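import Pool.Agent.P.MP_a14ce1_nt.Nil.Tiny
import Pool.Agent.P.MP_a14ce1_nt.Nil.StdD
import Pool.Agent.P.MP_a14ce1_nt.Nil.Hom
import Pool.Agent.P.MP_a14ce1_nt.Nil.Gowers

/-!
Definitions for the inverse theorem for the Gowers norms on intervals.
-/

open Filter Finset MvPolynomial
open scoped BigOperators

set_option linter.unusedSectionVars false

noncomputable section

namespace Pool.Agent.P.MP_a14ce1_nt.GI

open Nil

/-! ### The finitary statement -/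

/-- A type of nilsequences: a rational filtered system, a level and a Lipschitz constant. -/
structure Ty where
  ι : Type
  [fin : Fintype ι]
  [dec : DecidableEq ι]
  lv : ι → ℕ
  g : Fam (⊥ : Subfield ℝ) lv ℕ
  D : ℕ
  fil : g.Fil D
  q : ℕ
  pos : 0 < q
  L : ℝ
  L0 : 0 ≤ L

attribute [instance] Ty.fin Ty.dec

/-- Nilsequences of the given type and of degree at most `k`. -/
def Ty.At (T : Ty) (k : ℕ) (ψ : ℤ → ℂ) : Prop :=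
  ∃ F : UT T.lv ℝ → ℂ, NiceR T.q T.L T.g.GG F ∧ EqvR T.g.GG (T.g.r (k + 1)) 0 F ∧
    ∃ x ∈ (T.g.fine Unit).PG, ∀ n : ℤ, ψ n = F (ev (fun _ => (n : ℝ)) x)

/-- The inverse theorem for the norm `U ^ (k + 1)` on `[0, N)`. -/
def GIst (k : ℕ) : Prop := ∀ δ : ℝ, 0 < δ → ∃ (T : Ty) (c : ℝ) (N₀ : ℕ), 0 < c ∧
  ∀ N : ℕ, N₀ ≤ N → ∀ φ : ℤ → ℂ, (∀ n, ‖φ n‖ ≤ 1) → (∀ n, φ n ≠ 0 → 0 ≤ n ∧ n < N) →
    δ * (N : ℝ) ^ (k + 2) ≤ U k φ →
      ∃ ψ, T.At k ψ ∧ c * N ≤ ‖∑ n ∈ Ico (0 : ℤ) N, φ n * ψ n‖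

/-! ### The scale -/

instance two : Fact (2 ≤ (2 : HR)) := ⟨le_rfl⟩

abbrev K2 : Subfield HR := KK 2

/-- Infinite positive integers. -/
def Inf (N : HZ) : Prop := 0 < N ∧ Tiny 2 (ci N)⁻¹

abbrev SN (N : HZ) (σ : Type) : Sc K2 σ := Sm 2 (zv fun _ : σ => N)
abbrev TN (σ : Type) : Sc K2 σ := Rt 2 1

theorem sepN (N : HZ) [h : Fact (Inf N)] (σ : Type) : Sep (SN N σ) (TN σ) :=
  sep_Sm_Rt fun _ => ⟨by
    change ci N ≠ 0
    rw [← map_zero ci]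
    exact fun e => h.out.1.ne' (ci_inj e), one_ne_zero, by
    change Tiny 2 (1 / ci N)
    rw [one_div]; exact h.out.2⟩

/-- The linear substitution with integer matrix `M`. -/
def lin {σ τ : Type} [Fintype τ] (M : σ → τ → ℤ) : σ → MvPolynomial τ HR :=
  fun l => ∑ m, C (M l m : HR) * X m

/-! ### Nilsequences -/

/-- The data of a nilsequence in the variables `σ`. -/
structure Dat (σ : Type) where
  ι : Type
  [fin : Fintype ι]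
  [dec : DecidableEq ι]
  lv : ι → ℕ
  g : Fam K2 lv ℕ
  D : ℕ
  fil : g.Fil D
  q : HR
  F : UT lv HR → HC
  nice : Nice 2 q g.GG F
  x : PS lv σ HR
  mem : x ∈ (g.fine σ).PG

attribute [instance] Dat.fin Dat.dec

variable {σ : Type}

def Dat.val (d : Dat σ) (t : σ → HZ) : HC := d.F (ev (zv t) d.x)

/-- Degree at most `s`, frequency `ξ` in degree `s`. -/
structure Dat.Frq (d : Dat σ) (s : ℕ) (ξ : Matrix d.ι d.ι HR →ₗ[HR] HR) : Prop where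
  rat : RatF K2 ξ
  top : ∀ X ∈ d.g.r (s + 1), ξ X = 0
  eqv : Eqv 2 d.g.GG (d.g.r s) ξ d.F

/-- Nilsequences of degree at most `k`. -/
def Nl (k : ℕ) (Φ : (σ → HZ) → HC) : Prop := ∃ d : Dat σ, Φ = d.val ∧ d.Frq (k + 1) 0

abbrev Nl1 (k : ℕ) (Φ : HZ → HC) : Prop := Nl k fun t : Unit → HZ => Φ (t ())

/-- A unit vector. -/
def Unt {A : Type} {D : ℕ} (a : Fin D → A → HC) : Prop := ∀ t, ∑ l, a l t * cj (a l t) = 1

/-- Germs of nilsequences of one standard type. -/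
def SNil (k : ℕ) (Φ : HZ → HC) : Prop := ∃ (T : Ty) (ψ : ℕ → ℤ → ℂ), (∀ i, T.At k (ψ i)) ∧
  ∀ n : ℕ → ℤ, Φ (st n) = st fun i => ψ i (n i)

/-! ### One variable analysis -/

/-- Internal and bounded by one. -/
def Bd (φ : HZ → HC) : Prop := IntF φ ∧ ∀ n, nm (φ n) ≤ 1
/-- Supported in `[0, N)`. -/
def Supp (N : HZ) (φ : HZ → HC) : Prop := ∀ n, φ n ≠ 0 → 0 ≤ n ∧ n < N
/-- The mean over `[0, N)` is not infinitesimal. -/
def Cr (N : HZ) (φ : HZ → HC) : Prop :=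
  BigC 2 (Ex (box fun _ : Unit => N) fun t : Unit → HZ => φ (t ()))
/-- Correlation with a nilsequence of degree at most `j`. -/
def Cor (N : HZ) (j : ℕ) (φ : HZ → HC) : Prop := ∃ ψ, Nl1 j ψ ∧ Cr N fun n => φ n * ψ n
/-- Cut-off to `[0, N)`. -/
def cut (N : ℤ) (p : ℤ → ℂ) (n : ℤ) : ℂ := if 0 ≤ n ∧ n < N then p n else 0
/-- The norm `U ^ (j + 1)` of `φ` on `[0, N)` is not infinitesimal. -/
def BU (N : HZ) (j : ℕ) (φ : HZ → HC) : Prop :=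
  ∃ p : ℕ → ℤ → ℂ, (∀ n : ℕ → ℤ, φ (st n) = st fun i => p i (n i)) ∧ ∃ δ : ℝ, 0 < δ ∧
    ∀ᶠ i in UU, δ * ((rep N i : ℤ) : ℝ) ^ (j + 2) ≤ U j (cut (rep N i) (p i))
/-- The set of shifts `(-N, N)`. -/
def HH (N : HZ) : Ns (Finset ℤ) := st fun i => Ioo (-rep N i) (rep N i)
/-- Dense internal subsets of the set of shifts. -/
def Sub (N : HZ) (H : Ns (Finset ℤ)) : Prop :=
  (∀ h : HZ, Mem h H → Mem h (HH N)) ∧ Big 2 (cd H / cd (HH N))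
/-- `R` holds for a dense set of additive quadruples of `H`. -/
def Quad (N : HZ) (H : Ns (Finset ℤ)) (R : HZ → HZ → HZ → HZ → Prop) : Prop :=
  Dense 2 (fprod (HH N) (fprod (HH N) (HH N))) fun p : HZ × HZ × HZ =>
    (Mem p.1 H ∧ Mem p.2.1 H ∧ Mem p.2.2 H ∧ Mem (p.1 + p.2.1 - p.2.2) H) ∧
      R p.1 p.2.1 p.2.2 (p.1 + p.2.1 - p.2.2)

/-- Cells: a modulus, a residue and two end points. -/
abbrev CI : Type := ℕ × ℤ × ℚ × ℚ
open Classical in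
def cel (N : HZ) (P : CI) (n : HZ) : HC :=
  if ((P.1 : HZ) ∣ n - (P.2.1 : HZ)) ∧ (P.2.2.1 : HR) * ci N ≤ ci n ∧ ci n < (P.2.2.2 : HR) * ci N
  then 1 else 0

/-! ### The structures produced in the proof -/

section str

variable {ι : Type} [Fintype ι] [DecidableEq ι] {lv : ι → ℕ}

/-- The monomials `h n ^ k` and `n ^ (k + 1)`; variable `0` is `h`, variable `1` is `n`. -/
def b1 (k : ℕ) : Fin 2 →₀ ℕ := Finsupp.single 0 1 + Finsupp.single 1 k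
def b0 (k : ℕ) : Fin 2 →₀ ℕ := Finsupp.single 1 (k + 1)

/-- Bracket linear families. -/
structure Lin (lv : ι → ℕ) (k D : ℕ) (ξ : Matrix ι ι HR →ₗ[HR] HR) where
  r : Fam K2 lv ℕ
  n : Fam K2 lv ℕ
  r0 : r.r 0 = ⊥
  rD : ∀ i, D < i → r.r i = ⊥
  top : ∀ i, k < i → ∀ X ∈ r.r i, ξ X = 0
  ide : r.Ide n
  fw : ∀ a b, a + b = k → ∀ X ∈ n.r a, ∀ Y ∈ n.r b, ξ (X * Y - Y * X) = 0
  y : PS lv Unit HR
  hy : y ∈ (r.fine Unit).PG
  J : ℕ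
  θ : Fin J → HR
  h₀ : HZ
  B₀ : Matrix ι ι (MvPolynomial Unit HR)
  hB₀ : B₀ ∈ pm (n.fine Unit).r
  B : Fin J → Matrix ι ι (MvPolynomial Unit HR)
  hB : ∀ j, B j ∈ pm (n.fine Unit).r

variable {k D : ℕ} {ξ : Matrix ι ι HR →ₗ[HR] HR}

/-- `m` is an integer vector near `θ (h - h₀)`. -/
def Lin.Near (Λ : Lin lv k D ξ) (h : HZ) (m : Fin Λ.J → HZ) : Prop :=
  ∀ j, Λ.θ j * ci (h - Λ.h₀) - ci (m j) ∈ OO 2
/-- The member of the family. -/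
def Lin.seq (Λ : Lin lv k D ξ) (h : HZ) (m : Fin Λ.J → HZ) : PS lv Unit HR :=
  Λ.y * ex lv (ci (h - Λ.h₀) • Λ.B₀ + ∑ j, ci (m j) • Λ.B j)

/-- A symbol in the variables `(h, n)` supported on the monomial `h n ^ k`. -/
structure Bi (k : ℕ) where
  ι : Type
  [fin : Fintype ι]
  [dec : DecidableEq ι]
  lv : ι → ℕ
  u : Fam K2 lv (Fin 2 →₀ ℕ)
  u0 : u.r 0 = ⊥
  W : PS lv (Fin 2) HR
  mem : W ∈ u.PG
  ξ : Matrix ι ι HR →ₗ[HR] HR
  rat : RatF K2 ξ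
  sup : ∀ β : Fin 2 →₀ ℕ, β.degree = k + 1 → β ≠ b1 k → ∀ Y ∈ u.r β, ξ Y = 0

attribute [instance] Bi.fin Bi.dec

end str

end Pool.Agent.P.MP_a14ce1_nt.GI
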