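import Pool.Agent.P.MP_a14ce1_nt.GI.BU0
import Pool.Agent.P.MP_a14ce1_nt.Nil.Fs
import Pool.Agent.P.MP_a14ce1_nt.Nil.BoxA
import Pool.Agent.P.MP_a14ce1_nt.Nil.Gowers3

/-! Correlation with a nilsequence gives a large Gowers norm. -/

open Filter Finset

noncomputable section

namespace Pool.Agent.P.MP_a14ce1_nt.GI

open Nil

variable {N : HZ} [hN : Fact (Inf N)] {j : ℕ}

theorem Cor.bu {φ : HZ → HC} (hφ : Bd φ) (h : Cor N j φ) : BU N j φ := by
  obtain ⟨ψ, ⟨d, hd, hq⟩, h⟩ := h
  obtain ⟨p, hp⟩ := hφ.1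
  have e : ∀ n : HZ, (0 ≤ n ∧ n < N → (ap (st fun i => cut (rep N i) (p i)) n : HC) = φ n) ∧
      (¬(0 ≤ n ∧ n < N) → (ap (st fun i => cut (rep N i) (p i)) n : HC) = 0) :=
    st_ind fun n => by
      rw [ap_st, hp, win_st, ← ev_not]
      exact ⟨fun h => st_congr (h.mono fun _ c => if_pos c),
        fun h => st_congr (y := fun _ => 0) (h.mono fun _ c => if_neg c)⟩
  have hi := d.nice.int
  have hf := hφ.1
  have := fs d.fil d.nice hq.eqv d.mem hN.out.1 (φ := st fun i => cut (rep N i) (p i))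
    (fun n => by
      by_cases c : 0 ≤ n ∧ n < N
      · rw [(e n).1 c]; exact hφ.2 n
      · rw [(e n).2 c, nm_zero]; exact zero_le_one) (fun n => (e n).2)
    (by
      rw [Ex_congr (g := fun t : Unit → HZ => φ (t ()) * d.F (ev (zv t) d.x)) (by fun_prop)
        (by fun_prop) fun t ht => by rw [(e _).1 (mem_box.1 ht ())]]
      simp only [Cr, congrFun hd] at h
      exact h)
  rw [bu_iff_big hp]
  have e2 : gowN j (st (rep N)) (st fun i => cut (rep N i) (p i)) = st fun i =>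
      U j (cut (rep N i) (p i)) / ((rep N i : ℤ) : ℝ) ^ (j + 2) :=
    st_congr (A := HR) ((rep_pos (N := N)).mono fun i hi => by
      change V.gow _ j _ / _ = _
      rw [gow_eq_U _ j fun n hn => by
        rw [Int.toNat_of_nonneg hi.le]
        exact cut_supp n hn])
  rwa [← e2, st_rep]

end Pool.Agent.P.MP_a14ce1_nt.GI
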