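import Pool.Agent.P.MP_a14ce1_nt.GI.Def0
import Pool.Agent.P.MP_a14ce1_nt.Nil.Avg
import Pool.Agent.P.MP_a14ce1_nt.Nil.Std

/-! Gowers norms of internal functions. -/

open Filter Finset MvPolynomial
open scoped BigOperators

set_option linter.unusedSectionVars false

noncomputable section

namespace Pool.Agent.P.MP_a14ce1_nt.GI

open Nil

variable {N : HZ} [hN : Fact (Inf N)] {j : ℕ}

theorem big_two {x : ℕ → ℝ} :
    Big 2 (st x : HR) ↔ ∃ δ : ℝ, 0 < δ ∧ ∀ᶠ i in UU, δ ≤ |x i| := by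
  have e : ∀ C : ℕ, |(st x : HR)| * 2 ^ C = st fun i => |x i| * 2 ^ C := fun C => by
    rw [st_abs]; rfl
  constructor
  · rintro ⟨C, h⟩
    rw [e] at h
    exact ⟨(2 ^ C)⁻¹, by positivity, (st_le.1 h).mono fun i hi => by
      rwa [inv_le_iff_one_le_mul₀ (by positivity)]⟩
  · rintro ⟨δ, hδ, h⟩
    obtain ⟨C, hC⟩ := pow_unbounded_of_one_lt δ⁻¹ (one_lt_two (α := ℝ))
    refine ⟨C, ?_⟩
    rw [e]
    refine st_le.2 (h.mono fun i hi => ?_)
    rw [inv_lt_iff_one_lt_mul₀' hδ] at hC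
    exact hC.le.trans (by gcongr)

theorem rep_pos : ∀ᶠ i in UU, (0 : ℤ) < rep N i := by
  have := hN.out.1
  rw [← st_rep N] at this
  exact st_lt.1 this

theorem rep_ge (M : ℕ) : ∀ᶠ i in UU, (M : ℤ) ≤ rep N i := by
  by_contra h
  rw [← ev_not] at h
  refine hN.out.2 ?_
  have e : (ci N)⁻¹ = st fun i => ((rep N i : ℤ) : ℝ)⁻¹ := by
    conv_lhs => rw [← st_rep N]
    rfl
  rw [e, big_two]
  refine ⟨((M : ℝ) + 1)⁻¹, by positivity, (h.and (rep_pos (N := N))).mono fun i ⟨h1, h2⟩ => ?_⟩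
  have h3 : (0 : ℝ) < (rep N i : ℤ) := by exact_mod_cast h2
  have h4 : ((rep N i : ℤ) : ℝ) ≤ M + 1 := by exact_mod_cast (not_le.1 h1).le.trans (by omega)
  rw [abs_of_pos (inv_pos.2 h3)]
  gcongr

omit hN in
theorem win_st {n : ℕ → ℤ} :
    (0 ≤ (st n : HZ) ∧ (st n : HZ) < N) ↔ ∀ᶠ i in UU, 0 ≤ n i ∧ n i < rep N i := by
  conv_lhs => rw [← st_rep N]
  rw [eventually_and]
  exact and_congr st_le st_lt

theorem mem_HH {h : HZ} : Mem h (HH N) ↔ -N < h ∧ h < N := by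
  induction h using st_ind with | _ h
  conv_rhs => rw [← st_rep N]
  rw [HH, mem_st]
  simp only [mem_Ioo, eventually_and]
  exact (and_congr st_lt st_lt).symm

theorem card_ioo {H : ℤ} (hH : 0 < H) : ((Ioo (-H) H).card : ℝ) = 2 * H - 1 := by
  rw [Int.card_Ioo]
  have : ((H - -H - 1).toNat : ℤ) = 2 * H - 1 := by omega
  exact_mod_cast this

theorem cd_HH : cd (HH N) = 2 * ci N - 1 := by
  conv_rhs => rw [← st_rep N]
  rw [HH, cd_st]
  exact st_congr (A := HR) ((rep_pos (N := N)).mono fun i h => card_ioo h)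

theorem Dense.exists_sub {p : HZ → Prop} (h : Dense 2 (HH N) p) :
    ∃ H, Sub N H ∧ ∀ a : HZ, Mem a H → p a := by
  obtain ⟨H, h1, h2⟩ := h
  exact ⟨H, ⟨fun a ha => (h1 a ha).1, h2⟩, fun a ha => (h1 a ha).2⟩

section rep
variable {φ : HZ → HC} {p p' : ℕ → ℤ → ℂ}

theorem rep_uniq (h : ∀ n : ℕ → ℤ, φ (st n) = st fun i => p i (n i))
    (h' : ∀ n : ℕ → ℤ, φ (st n) = st fun i => p' i (n i)) : ∀ᶠ i in UU, p i = p' i :=
  (ev_forall.2 fun n : ℕ → ℤ => (NS.eq_iff (A := HC) (fun i => p i (n i)) fun i => p' i (n i)).1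
    ((h n).symm.trans (h' n))).mono fun _ => funext

theorem rep_bd (h : ∀ n : ℕ → ℤ, φ (st n) = st fun i => p i (n i)) (hb : ∀ n, nm (φ n) ≤ 1) :
    ∀ᶠ i in UU, ∀ n, ‖p i n‖ ≤ 1 :=
  ev_forall.2 fun n => by
    have := hb (st n)
    rw [h] at this
    exact st_le.1 this

omit hN in
theorem rep_supp (h : ∀ n : ℕ → ℤ, φ (st n) = st fun i => p i (n i)) (hs : Supp N φ) :
    ∀ᶠ i in UU, ∀ n, p i n ≠ 0 → 0 ≤ n ∧ n < rep N i :=
  ev_forall.2 fun n => by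
    by_cases c : φ (st n) = 0
    · rw [h] at c
      exact ((NS.eq_iff (A := HC) _ fun _ => 0).1 c).mono fun i hi h' => (h' hi).elim
    · exact (win_st.1 (hs _ c)).mono fun i hi _ => hi

theorem cut_supp {H : ℤ} {θ : ℤ → ℂ} (n : ℤ) (h : cut H θ n ≠ 0) : 0 ≤ n ∧ n < H := by
  by_contra c
  exact h (if_neg c)

theorem cut_bd {H : ℤ} {θ : ℤ → ℂ} (h : ∀ n, ‖θ n‖ ≤ 1) (n : ℤ) : ‖cut H θ n‖ ≤ 1 := by
  unfold cut
  split_ifs
  exacts [h n, by simp]

theorem cut_eq {H : ℤ} {θ : ℤ → ℂ} (h : ∀ n, θ n ≠ 0 → 0 ≤ n ∧ n < H) : cut H θ = θ :=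
  funext fun n => by
    unfold cut
    split_ifs with c
    exacts [rfl, (not_not.1 fun h' => c (h n h')).symm]

theorem cut_mul (H : ℤ) (θ θ' : ℤ → ℂ) :
    (cut H fun n => θ n * θ' n) = fun n => θ n * cut H θ' n :=
  funext fun n => by simp only [cut, mul_ite, mul_zero]

theorem U_cut_le (j : ℕ) {H : ℤ} (hH : 0 < H) {θ : ℤ → ℂ} (h : ∀ n, ‖θ n‖ ≤ 1) :
    U j (cut H θ) ≤ (H : ℝ) ^ (j + 2) := by
  have := U_le_card j (S := Ico 0 H) (fun n hn => mem_Ico.2 (cut_supp n hn)) (cut_bd h)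
  rwa [Int.card_Ico, sub_zero, ← Int.cast_natCast, Int.toNat_of_nonneg hH.le] at this

omit hN in
theorem bu_iff (h : ∀ n : ℕ → ℤ, φ (st n) = st fun i => p i (n i)) : BU N j φ ↔ ∃ δ : ℝ, 0 < δ ∧
    ∀ᶠ i in UU, δ * ((rep N i : ℤ) : ℝ) ^ (j + 2) ≤ U j (cut (rep N i) (p i)) :=
  ⟨fun ⟨_, h', δ, hδ, e⟩ => ⟨δ, hδ, (e.and (rep_uniq h h')).mono fun _ hi => hi.2 ▸ hi.1⟩,
    fun e => ⟨p, h, e⟩⟩

theorem bu_iff_big (h : ∀ n : ℕ → ℤ, φ (st n) = st fun i => p i (n i)) : BU N j φ ↔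
    Big 2 (st fun i => U j (cut (rep N i) (p i)) / ((rep N i : ℤ) : ℝ) ^ (j + 2) : HR) := by
  rw [bu_iff h, big_two]
  refine exists_congr fun δ => and_congr_right fun _ => eventually_congr
    ((rep_pos (N := N)).mono fun i hi => ?_)
  have : (0 : ℝ) < ((rep N i : ℤ) : ℝ) ^ (j + 2) := pow_pos (by exact_mod_cast hi) _
  rw [abs_of_nonneg (div_nonneg (U_nonneg _ _) this.le), le_div_iff₀ this]

theorem Ex_win (h : ∀ n : ℕ → ℤ, φ (st n) = st fun i => p i (n i)) :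
    (Ex (box fun _ : Unit => N) fun t : Unit → HZ => φ (t ())) =
      st fun i => (∑ m ∈ Ico (0 : ℤ) (rep N i), p i m) / ((rep N i : ℤ) : ℂ) := by
  rw [Nil.box, Ex_st _ (φ := fun i x => p i (x ())) fun x : ℕ → Unit → ℤ => h fun i => x i ()]
  refine st_congr ((rep_pos (N := N)).mono fun i hi => ?_)
  rw [expect_eq_sum_div_card, Fintype.card_piFinset]
  congr 1
  · exact sum_nbij' (fun x => x ()) (fun n _ => n) (fun a ha => Fintype.mem_piFinset.1 ha ())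
      (by simp) (by simp) (by simp) (by simp)
  · simp only [univ_unique, Int.card_Ico, sub_zero, prod_singleton]
    exact_mod_cast Int.toNat_of_nonneg hi.le

theorem cr_iff (h : ∀ n : ℕ → ℤ, φ (st n) = st fun i => p i (n i)) : Cr N φ ↔ ∃ δ : ℝ, 0 < δ ∧
    ∀ᶠ i in UU, δ * ((rep N i : ℤ) : ℝ) ≤ ‖∑ m ∈ Ico (0 : ℤ) (rep N i), p i m‖ := by
  rw [Cr, Ex_win h]
  refine big_two.trans (exists_congr fun δ => and_congr_right fun _ => eventually_congr
    ((rep_pos (N := N)).mono fun i hi => ?_))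
  have : (0 : ℝ) < ((rep N i : ℤ) : ℝ) := by exact_mod_cast hi
  change δ ≤ |‖_‖| ↔ _
  rw [abs_norm, norm_div, Complex.norm_intCast, abs_of_pos this, le_div_iff₀ this]

end rep

variable (N j) in
/-- The normalised Gowers norm of the members of an internal family. -/
def gw {A S : Type} [NS A S] (Φ : ℕ → S → ℤ → ℂ) : A → HR :=
  app fun i s => U j (cut (rep N i) (Φ i s)) / ((rep N i : ℤ) : ℝ) ^ (j + 2)

theorem bu_gw {A S : Type} [NS A S] {φ : A → HZ → HC} {Φ : ℕ → S → ℤ → ℂ}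
    (h : ∀ (x : ℕ → S) (n : ℕ → ℤ), φ (st x) (st n) = st fun i => Φ i (x i) (n i)) (a : A) :
    BU N j (φ a) ↔ Big 2 (gw N j Φ a) := by
  induction a using st_ind with | _ x
  rw [gw, app_st]
  exact bu_iff_big (h x)

theorem bu_sig {A S : Type} [NS A S] {φ : A → HZ → HC} (h : IntF fun z : A × HZ => φ z.1 z.2) :
    Sig fun a => BU N j (φ a) := by
  obtain ⟨Φ, h⟩ := h
  exact (Sig.big (intF_app _)).congr
    (bu_gw (Φ := fun i s n => Φ i (s, n)) fun x n => h fun i => (x i, n i))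

theorem gw_nonneg {A S : Type} [NS A S] (Φ : ℕ → S → ℤ → ℂ) (a : A) : 0 ≤ gw N j Φ a := by
  induction a using st_ind with | _ x
  rw [gw, app_st]
  exact st_le.2 ((rep_pos (N := N)).mono fun i hi =>
    div_nonneg (U_nonneg _ _) (pow_nonneg (Int.cast_nonneg hi.le) _))

theorem gw_le {A S : Type} [NS A S] {Φ : ℕ → S → ℤ → ℂ} (h : ∀ᶠ i in UU, ∀ s n, ‖Φ i s n‖ ≤ 1)
    (a : A) : gw N j Φ a ≤ 1 := by
  induction a using st_ind with | _ x
  rw [gw, app_st]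
  exact st_le.2 (((rep_pos (N := N)).and h).mono fun i hi =>
    (div_le_one (pow_pos (Int.cast_pos.2 hi.1) _)).2 (U_cut_le j hi.1 (hi.2 _)))

theorem big_Ex_gw {Φ : ℕ → ℤ → ℤ → ℂ} : Big 2 (Ex (HH N) (gw N j Φ : HZ → HR)) ↔ ∃ δ : ℝ, 0 < δ ∧
    ∀ᶠ i in UU, δ * ((rep N i : ℤ) : ℝ) ^ (j + 3) ≤
      ∑ h ∈ Ioo (-rep N i) (rep N i), U j (cut (rep N i) (Φ i h)) := by
  rw [HH, gw, Ex_st _ (app_st _), big_two]
  have key : ∀ᶠ i in UU, ∃ c : ℝ, 1 ≤ c ∧ c ≤ 2 ∧ ∀ δ, δ ≤ |𝔼 h ∈ Ioo (-rep N i) (rep N i),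
      U j (cut (rep N i) (Φ i h)) / ((rep N i : ℤ) : ℝ) ^ (j + 2)| ↔
      δ * c * ((rep N i : ℤ) : ℝ) ^ (j + 3) ≤
        ∑ h ∈ Ioo (-rep N i) (rep N i), U j (cut (rep N i) (Φ i h)) :=
    (rep_pos (N := N)).mono fun i hi => by
      generalize rep N i = H at *
      have h1 : (1 : ℝ) ≤ H := by exact_mod_cast hi
      have h0 : (0 : ℝ) < H := by linarith
      have h2 : (0 : ℝ) < 2 * H - 1 := by linarith
      refine ⟨(2 * H - 1) / H, by rw [le_div_iff₀ h0]; linarith, by rw [div_le_iff₀ h0]; linarith,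
        fun δ => ?_⟩
      rw [expect_eq_sum_div_card, card_ioo hi, ← sum_div, div_div, abs_of_nonneg
        (div_nonneg (sum_nonneg fun _ _ => U_nonneg _ _) (by positivity)),
        le_div_iff₀ (by positivity)]
      refine iff_of_eq (congrArg (· ≤ _) ?_)
      field_simp
      ring
  constructor
  · rintro ⟨δ, hδ, h⟩
    refine ⟨δ, hδ, ((h.and key).and (rep_pos (N := N))).mono fun i ⟨⟨h1, c, c1, _, h2⟩, h3⟩ =>
      le_trans ?_ ((h2 δ).1 h1)⟩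
    have : (0 : ℝ) < (rep N i : ℤ) := by exact_mod_cast h3
    gcongr
    exact le_mul_of_one_le_right hδ.le c1
  · rintro ⟨δ, hδ, h⟩
    refine ⟨δ / 2, by positivity, ((h.and key).and (rep_pos (N := N))).mono
      fun i ⟨⟨h1, c, _, c2, h2⟩, h3⟩ => (h2 _).2 (le_trans ?_ h1)⟩
    have : (0 : ℝ) < (rep N i : ℤ) := by exact_mod_cast h3
    gcongr
    nlinarith

theorem BU.dense {f : HZ → HC} (hf : Bd f) (hs : Supp N f) (h : BU N (j + 1) f) :
    Dense 2 (HH N) fun h : HZ => BU N j fun n => f (n + h) * cj (f n) := by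
  obtain ⟨p, hp, δ, hδ, h⟩ := h
  have e : ∀ x n : ℕ → ℤ, f (st n + st x) * cj (f (st n)) = st fun i => dl (x i) (p i) (n i) :=
    fun x n => by
      rw [show (st n + st x : HZ) = st fun i => n i + x i from rfl, hp, hp]
      rfl
  refine (markovR (f := gw N j fun i h => dl h (p i)) (intF_app _) (fun a _ => OO_of_le_one ?_)
    (big_Ex_gw.2 ⟨δ, hδ, (h.and (rep_supp hp hs)).mono fun i ⟨h1, h2⟩ => ?_⟩)).mono
    fun a _ => (bu_gw (φ := fun h n => f (n + h) * cj (f n)) e a).2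
  · rw [abs_of_nonneg (gw_nonneg _ _)]
    exact gw_le ((rep_bd hp hf.2).mono fun i hi s n => norm_dl_le hi s n) a
  · rw [cut_eq h2, U_succ_eq j (T := Ioo (-rep N i) (rep N i)) fun x y hx hy => by
      have := h2 x hx
      have := h2 y hy
      rw [mem_Ioo]
      omega] at h1
    refine h1.trans_eq (sum_congr rfl fun h _ => ?_)
    rw [cut_eq fun n hn => h2 n (dl_ne hn).2]

theorem bu_gcs {f f' : HZ → HC} (hf : Bd f) (hs : Supp N f) (hf' : Bd f')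
    (h : Dense 2 (HH N) fun h : HZ => BU N j fun n => f (n + h) * f' n) : BU N (j + 1) f := by
  obtain ⟨p, hp⟩ := hf.1
  obtain ⟨p', hp'⟩ := hf'.1
  have e : ∀ x n : ℕ → ℤ, f (st n + st x) * f' (st n) = st fun i => p i (n i + x i) * p' i (n i) :=
    fun x n => by
      rw [show (st n + st x : HZ) = st fun i => n i + x i from rfl, hp, hp']
      rfl
  obtain ⟨δ, hδ, h⟩ := big_Ex_gw.1 (Dense.big_Ex
    (f := gw N j fun i h n => p i (n + h) * p' i n) (intF_app _) (fun a _ => gw_nonneg _ _)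
    (h.mono fun a _ => (bu_gw (φ := fun h n => f (n + h) * f' n) e a).1))
  refine ⟨p, hp, δ ^ 2, by positivity, (((h.and (rep_supp hp hs)).and (rep_bd hp' hf'.2)).and
    (rep_pos (N := N))).mono fun i ⟨⟨⟨h1, h2⟩, h3⟩, h4⟩ => ?_⟩
  generalize rep N i = H at *
  have h0 : (0 : ℝ) < (H : ℝ) ^ (j + 3) := pow_pos (by exact_mod_cast h4) _
  simp only [cut_mul] at h1
  have h5 := gcs2_sum j (fin_of (S := Ico 0 H) fun n hn => mem_Ico.2 (h2 n hn))
    (fin_of (f := cut H (p' i)) (S := Ico 0 H) fun n hn => mem_Ico.2 (cut_supp n hn)) (Ioo (-H) H)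
  rw [cut_eq h2]
  refine le_of_mul_le_mul_right ?_ h0
  calc _ = (δ * (H : ℝ) ^ (j + 3)) ^ 2 := by ring
    _ ≤ _ := (pow_le_pow_left₀ (by positivity) h1 2).trans h5
    _ ≤ _ := mul_le_mul_of_nonneg_left (U_cut_le (j + 1) h4 h3) (U_nonneg _ _)

/-- Germs of nilsequences of one type are nilsequences. -/
theorem nl1_of_at (T : Ty) {ψ : ℕ → ℤ → ℂ} (h : ∀ᶠ i in UU, T.At j (ψ i)) :
    Nl1 j (app ψ : HZ → HC) := by
  obtain ⟨F, h⟩ := ev_exists.1 h
  obtain ⟨x, hx⟩ := ev_exists.1 (h.mono fun i hi => hi.2.2)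
  obtain ⟨y, hy, hg⟩ := exists_germs (Q := 2) T.fil (hx.mono fun i hi => hi.1)
  refine ⟨⟨T.ι, T.lv, T.g.star 2, T.D, T.fil.star, st fun _ => (T.q : ℝ), app F,
    NiceR.nice (q := fun _ => T.q) (L := fun _ => T.L) (h.mono fun i hi => ⟨T.pos, hi.1⟩)
      (real_OO _) (real_OO _), y, hy⟩, funext fun t => ?_, RatF.zero, fun _ _ => rfl, ?_⟩
  · induction t using st_ind with | _ t
    change app ψ (st fun i => t i () : HZ) = app F (ev (st fun i l => ((t i l : ℤ) : ℝ)) y)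
    rw [hg.ev, app_st, app_st]
    exact st_congr (hx.mono fun i hi => hi.2 _)
  · have := EqvR.eqv (Q := 2) (h.mono fun i hi => hi.2.1)
    rwa [starF_zero] at this

theorem SNil.nl {φ : HZ → HC} (h : SNil j φ) : Nl1 j φ := by
  obtain ⟨T, ψ, h1, h2⟩ := h
  have : φ = app ψ := funext (st_ind fun n => by rw [h2, app_st])
  exact this ▸ nl1_of_at T (Eventually.of_forall h1)

theorem BU.cor (hG : GIst j) {φ : HZ → HC} (hφ : Bd φ) (h : BU N j φ) : Cor N j φ := by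
  obtain ⟨p, hp, δ, hδ, h⟩ := h
  obtain ⟨T, c, N₀, hc, hT⟩ := hG δ hδ
  obtain ⟨ψ, hψ⟩ := ev_exists.1 (((h.and (rep_bd hp hφ.2)).and (rep_ge (N := N) N₀)).mono
    fun i ⟨⟨h1, h2⟩, h3⟩ => show ∃ ψ, T.At j ψ ∧ c * ((rep N i : ℤ) : ℝ) ≤
      ‖∑ n ∈ Ico (0 : ℤ) (rep N i), p i n * ψ n‖ by
        generalize rep N i = H at *
        lift H to ℕ using (Nat.cast_nonneg _).trans h3
        obtain ⟨ψ, a1, a2⟩ := hT H (by exact_mod_cast h3) _ (cut_bd h2) cut_supp h1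
        refine ⟨ψ, a1, a2.trans_eq (congrArg _ (sum_congr rfl fun n hn => ?_))⟩
        rw [cut, if_pos (mem_Ico.1 hn)])
  refine ⟨app ψ, nl1_of_at T (hψ.mono fun i hi => hi.1),
    (cr_iff (p := fun i n => p i n * ψ i n) fun n => ?_).2 ⟨c, hc, hψ.mono fun i hi => hi.2⟩⟩
  rw [hp, app_st]
  rfl

end Pool.Agent.P.MP_a14ce1_nt.GI
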