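import Pool.Agent.P.MP_a14ce1_nt.Nil.Hom

/-! Families obtained by summing the members of a family along a relation. -/

open Finset

set_option linter.unusedSectionVars false

noncomputable section

namespace Pool.Agent.P.MP_a14ce1_nt.Nil

variable {FF : Type} [Field FF] [CharZero FF] {ι : Type} [Fintype ι] [DecidableEq ι]
  {K : Subfield FF} {lv : ι → ℕ} {I I' : Type} [AddCommMonoid I] [AddCommMonoid I']

/-- The sum of the members whose index satisfies `p`. -/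
def Fam.su (h : Fam K lv I) (p : I → Prop) : Submodule FF (Matrix ι ι FF) :=
  ⨆ i : {i // p i}, h.r i.1

theorem Fam.le_su (h : Fam K lv I) {p : I → Prop} {i : I} (hi : p i) : h.r i ≤ h.su p :=
  le_iSup (fun i : {i // p i} => h.r i.1) ⟨i, hi⟩

theorem Fam.su_le {h : Fam K lv I} {p : I → Prop} {V : Submodule FF (Matrix ι ι FF)}
    (hV : ∀ i, p i → h.r i ≤ V) : h.su p ≤ V := iSup_le fun i => hV i.1 i.2

theorem Fam.su_mono (h : Fam K lv I) {p q : I → Prop} (e : ∀ i, p i → q i) : h.su p ≤ h.su q :=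
  Fam.su_le fun i hi => h.le_su (e i hi)

theorem Fam.su_mono' (h : Fam K lv I) {p q : I → Prop} (e : ∀ i, p i → q i ∨ h.r i = ⊥) :
    h.su p ≤ h.su q :=
  Fam.su_le fun i hi => (e i hi).elim h.le_su fun e => e ▸ bot_le

theorem Fam.su_eq_bot {h : Fam K lv I} {p : I → Prop} (e : ∀ i, p i → h.r i = ⊥) : h.su p = ⊥ :=
  le_bot_iff.1 (Fam.su_le fun i hi => (e i hi).le)

theorem Fam.su_rat (h : Fam K lv I) (p : I → Prop) : IsRat K (h.su p) :=
  IsRat.iSup fun i => h.rat i.1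

theorem Fam.su_ind {h : Fam K lv I} {p : I → Prop} {P : Matrix ι ι FF → Prop}
    (h1 : ∀ i, p i → ∀ X ∈ h.r i, P X) (h0 : P 0) (ha : ∀ X Y, P X → P Y → P (X + Y)) {X}
    (hX : X ∈ h.su p) : P X :=
  Submodule.iSup_induction (fun i : {i // p i} => h.r i.1) (motive := P) hX
    (fun i => h1 i.1 i.2) h0 ha

theorem Fam.su_up (h : Fam K lv I) (p : I → Prop) {X} (hX : X ∈ h.su p) : X ∈ mF FF lv 1 :=
  Fam.su_ind (fun i _ => h.up i) (zero_mem _) (fun _ _ => add_mem) hX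

theorem Fam.su_kill {h : Fam K lv I} {p : I → Prop} {ξ : Matrix ι ι FF →ₗ[FF] FF}
    (e : ∀ i, p i → ∀ X ∈ h.r i, ξ X = 0) : ∀ X ∈ h.su p, ξ X = 0 :=
  fun _ hX => (Fam.su_le (V := LinearMap.ker ξ) fun i hi Y hY => e i hi Y hY) hX

theorem Fam.su_br' {h : Fam K lv I} {p q : I → Prop} {V : Submodule FF (Matrix ι ι FF)}
    (e : ∀ i j, p i → q j → ∀ X ∈ h.r i, ∀ Y ∈ h.r j, X * Y - Y * X ∈ V) {X Y}
    (hX : X ∈ h.su p) (hY : Y ∈ h.su q) : X * Y - Y * X ∈ V := by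
  refine Fam.su_ind (P := fun X => X * Y - Y * X ∈ V) (fun i hi X hX => ?_) (by simp)
    (fun X X' a b => ?_) hX
  · refine Fam.su_ind (P := fun Y => X * Y - Y * X ∈ V) (fun j hj Y hY => e i j hi hj X hX Y hY)
      (by simp) (fun Y Y' a b => ?_) hY
    have := add_mem a b
    rwa [show X * Y - Y * X + (X * Y' - Y' * X) = X * (Y + Y') - (Y + Y') * X by noncomm_ring] at this
  · have := add_mem a b
    rwa [show X * Y - Y * X + (X' * Y - Y * X') = (X + X') * Y - Y * (X + X') by noncomm_ring] at this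

theorem Fam.su_br {h : Fam K lv I} {p q s : I → Prop} (e : ∀ i j, p i → q j → s (i + j)) {X Y}
    (hX : X ∈ h.su p) (hY : Y ∈ h.su q) : X * Y - Y * X ∈ h.su s :=
  Fam.su_br' (fun i j hi hj X hX Y hY => h.le_su (e i j hi hj) (h.br i j X hX Y hY)) hX hY

/-- The family `j ↦ ∑ (h i | R j i)`. -/
def Fam.sm (h : Fam K lv I) (R : I' → I → Prop)
    (hR : ∀ j j' i i', R j i → R j' i' → R (j + j') (i + i')) : Fam K lv I' where
  r j := h.su (R j)
  up _ _ hX := h.su_up _ hX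
  rat _ := h.su_rat _
  br j j' _ hX _ hY := Fam.su_br (hR j j') hX hY

theorem Fam.sm_r (h : Fam K lv I) (R : I' → I → Prop) (hR) (j : I') :
    (h.sm R hR).r j = h.su (R j) := rfl

/-- The nested hull for the degree function `φ`. -/
def Fam.hl (h : Fam K lv I) (φ : I →+ ℕ) : Fam K lv ℕ :=
  h.sm (fun d i => max d 1 ≤ φ i) fun j j' i i' a b => by rw [map_add]; omega

theorem Fam.hl_r (h : Fam K lv I) (φ : I →+ ℕ) (d : ℕ) :
    (h.hl φ).r d = h.su fun i => max d 1 ≤ φ i := rfl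

theorem Fam.hl_fil {h : Fam K lv I} {φ : I →+ ℕ} {D : ℕ} (hD : ∀ i, D < φ i → h.r i = ⊥) :
    (h.hl φ).Fil D where
  zero := rfl
  anti d := h.su_mono fun i (a : max (d + 1) 1 ≤ φ i) => (by omega : max d 1 ≤ φ i)
  bd := Fam.su_eq_bot fun i (a : max (D + 1) 1 ≤ φ i) => hD i (by omega)

theorem Fam.le_hl (h : Fam K lv I) (φ : I →+ ℕ) {i : I} {d : ℕ} (h1 : 1 ≤ φ i) (hd : d ≤ φ i) :
    h.r i ≤ (h.hl φ).r d := h.le_su (p := fun i => max d 1 ≤ φ i) (max_le hd h1)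

end Pool.Agent.P.MP_a14ce1_nt.Nil
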