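import Pool.Agent.P.MP_a14ce1_nt.GI.Def0
import Pool.Agent.P.MP_a14ce1_nt.Nil.Cls

/-! Symbols of nilsequences. -/

open Filter Finset MvPolynomial
open scoped BigOperators

set_option linter.unusedSectionVars false

noncomputable section

namespace Pool.Agent.P.MP_a14ce1_nt.GI

open Nil

/-! ### Symbols -/

section sym

variable {ι : Type} [Fintype ι] [DecidableEq ι] {lv : ι → ℕ} {σ τ : Type}

/-- One class for every monomial. -/
abbrev Sy (N : HZ) [Fact (Inf N)] (σ : Type) := ∀ β : σ →₀ ℕ, Cls (sepN N σ) β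

/-- The symbol of a polynomial sequence and a functional. -/
def sy (N : HZ) [Fact (Inf N)] (x : PS lv σ HR) (ξ : Matrix ι ι HR →ₗ[HR] HR) : Sy N σ :=
  fun β => cl (sepN N σ) β x ξ

variable {N : HZ} [Fact (Inf N)]

/-- Equality in degree `s`. -/
def Eqd (s : ℕ) (A B : Sy N σ) : Prop := ∀ β : σ →₀ ℕ, β.degree = s → A β = B β

/-- Symbols with a rational functional. -/
def Rep (s : ℕ) (A : Sy N σ) : Prop :=
  ∃ (ι : Type) (_ : Fintype ι) (_ : DecidableEq ι) (lv : ι → ℕ) (x : PS lv σ HR)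
    (ξ : Matrix ι ι HR →ₗ[HR] HR), RatF K2 ξ ∧ Eqd s A (sy N x ξ)

end sym

variable {σ : Type} {k : ℕ}

/-- Nilsequences of degree at most `s` with a frequency and the symbol `A` in degree `s`. -/
def Nsq {N : HZ} [Fact (Inf N)] (s : ℕ) (Φ : (σ → HZ) → HC) (A : Sy N σ) : Prop :=
  ∃ (d : Dat σ) (ξ : Matrix d.ι d.ι HR →ₗ[HR] HR), Φ = d.val ∧ d.Frq s ξ ∧ Eqd s A (sy N d.x ξ)

abbrev Nsq1 {N : HZ} [Fact (Inf N)] (s : ℕ) (Φ : HZ → HC) (A : Sy N Unit) : Prop :=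
  Nsq s (fun t : Unit → HZ => Φ (t ())) A

/-- The symbol of `Θ (h, n) * conj (ω (n + h)) * ω n`. -/
def Bi.xi (b : Bi k) (N : HZ) [Fact (Inf N)] : Sy N (Fin 2) :=
  sy N b.W b.ξ - ((k + 1 : ℕ) : HR)⁻¹ • sy N (sb (fun _ => X 0 + X 1) b.W) b.ξ
    + ((k + 1 : ℕ) : HR)⁻¹ • sy N (sb (fun _ => X 1) b.W) b.ξ

end Pool.Agent.P.MP_a14ce1_nt.GI
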