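import Pool.Agent.P.MP_a14ce1_nt.GI.FamS

/-! Restriction of a two variable polynomial sequence to a row: the algebra. -/

open Finset MvPolynomial

set_option linter.unusedSectionVars false

noncomputable section

namespace Pool.Agent.P.MP_a14ce1_nt.Nil

variable {FF : Type} [Field FF] [CharZero FF] {ι : Type} [Fintype ι] [DecidableEq ι]
  {K : Subfield FF} {lv : ι → ℕ}

/-- The substitution `(h, n) := (a, n)`. -/
def row (a : FF) : Fin 2 → MvPolynomial Unit FF := ![C a, X ()]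

theorem aeval_row (a : FF) (γ : Fin 2 →₀ ℕ) :
    aeval (row a) (monomial γ (1 : FF)) = monomial (Finsupp.single () (γ 1)) (a ^ γ 0) := by
  rw [aeval_monomial, map_one, one_mul, Finsupp.prod_fintype _ _ (by simp), Fin.prod_univ_two]
  simp only [row, Matrix.cons_val_zero, Matrix.cons_val_one]
  rw [← C_pow, X_pow_eq_monomial, C_mul_monomial, mul_one]

theorem coeff_row (a : FF) (γ : Fin 2 →₀ ℕ) (β : Unit →₀ ℕ) :
    coeff β (aeval (row a) (monomial γ (1 : FF))) = if γ 1 = β.degree then a ^ γ 0 else 0 := by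
  rw [aeval_row, coeff_monomial]
  congr 1
  have : β = Finsupp.single () β.degree := by
    ext; rw [Finsupp.degree_eq_sum]; simp
  rw [eq_iff_iff]
  constructor
  · rintro rfl; simp
  · intro h; rw [h, ← this]

theorem row_deg (a : FF) (l : Fin 2) : (row a l).totalDegree ≤ 1 := by
  fin_cases l
  · simp [row]
  · simp [row]

theorem ev_row (a n : FF) (x : PS lv (Fin 2) FF) :
    ev (fun _ => n) (sb (row a) x) = ev ![a, n] x := by
  rw [ev_sb]
  congr 2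
  funext l
  fin_cases l <;> simp [row]

/-- Sums over all powers of `h`, and over the positive powers of `h`. -/
def Fam.GB (h : Fam K lv (Fin 2 →₀ ℕ)) : Fam K lv ℕ :=
  h.sm (fun b β => β 1 = b) fun _ _ _ _ a b => by rw [Finsupp.add_apply, a, b]
def Fam.JB (h : Fam K lv (Fin 2 →₀ ℕ)) : Fam K lv ℕ :=
  h.sm (fun b β => β 1 = b ∧ β 0 ≠ 0) fun _ _ _ _ a b =>
    ⟨by rw [Finsupp.add_apply, a.1, b.1], by rw [Finsupp.add_apply]; have := a.2; omega⟩
/-- The nested system for the degree in `n`. -/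
def Fam.NB (h : Fam K lv (Fin 2 →₀ ℕ)) : Fam K lv ℕ := h.hl (Finsupp.applyAddHom 1)

variable {h : Fam K lv (Fin 2 →₀ ℕ)}

theorem Fam.ide_JB (h : Fam K lv (Fin 2 →₀ ℕ)) : h.GB.Ide h.JB where
  le _ := h.su_mono fun _ a => a.1
  br _ _ _ hX _ hY := Fam.su_br (fun _ _ (a : _ = _) (b : _ ∧ _) =>
    ⟨by rw [Finsupp.add_apply, a, b.1], by rw [Finsupp.add_apply]; have := b.2; omega⟩) hX hY

theorem Fam.GB_zero (h0 : h.r 0 = ⊥) : h.GB.r 0 ≤ h.JB.r 0 :=
  h.su_mono' fun β (a : β 1 = 0) => by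
    by_cases e : β 0 = 0
    · right
      rw [show β = 0 from Finsupp.ext fun l => by fin_cases l <;> assumption, h0]
    · exact Or.inl ⟨a, e⟩

theorem row_mem {η : PS lv (Fin 2) FF} (hη : η ∈ h.PG) (a : FF) :
    sb (row a) η ∈ (h.GB.fine Unit).PG :=
  sb_mem_PG _ (fun γ β e => h.le_su (p := fun γ => γ 1 = β.degree) (by
    rw [coeff_row] at e
    by_contra e'
    exact e (if_neg e'))) hη

theorem row_sub {η : PS lv (Fin 2) FF} (hη : η ∈ h.PG) (a : FF) (β : Unit →₀ ℕ) :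
    co β (lg (sb (row a) η)) - co β (lg (sb (row 0) η)) ∈ (h.JB.fine Unit).r β := by
  rw [lg_sb, lg_sb, co_map, co_map, ← sum_sub_distrib]
  refine Submodule.sum_mem _ fun γ _ => ?_
  rw [← sub_smul]
  change (coeff β (aeval (row a) _) - coeff β (aeval (row 0) _)) • _ ∈ _
  rw [coeff_row, coeff_row]
  split_ifs with e
  · by_cases e0 : γ 0 = 0
    · simp [e0]
    · exact Submodule.smul_mem _ _
        (h.le_su (p := fun γ => γ 1 = β.degree ∧ γ 0 ≠ 0) ⟨e, e0⟩ (hη γ))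
  · simp

theorem Fam.Ide.plus {σ : Type} {g n : Fam K lv (σ →₀ ℕ)} (a : g.Ide n) : g.plus.Ide n.plus where
  le := Fam.plus_mono a.le
  br β γ X hX Y hY := by
    by_cases e : γ = 0
    · rw [e, n.plus_zero, Submodule.mem_bot] at hY
      simp [hY]
    · rw [n.plus_ne e] at hY
      rw [n.plus_ne fun h => e (add_eq_zero.1 h).2]
      exact a.br β γ X (g.plus_le β hX) Y hY

theorem row_alg (h0 : h.r 0 = ⊥) {η : PS lv (Fin 2) FF} (hη : η ∈ h.PG) (t : FF) {a b : UT lv FF}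
    (ha : a ∈ h.GB.GG) (hb : b ∈ h.GB.GG) (e : ev 0 (sb (row t) η) = a * b) :
    (cst Unit a)⁻¹ * sb (row t) η * (cst Unit b)⁻¹ ∈ (h.NB.fine Unit).PG ∧
      sb (row 0) η ∈ (h.GB.fine Unit).plus.PG ∧
      (sb (row 0) η)⁻¹ * ((cst Unit a)⁻¹ * sb (row t) η * (cst Unit b)⁻¹) ∈
        (h.JB.fine Unit).plus.PG := by
  have I : (h.GB.fine Unit).Ide (h.JB.fine Unit) := h.ide_JB.comap _
  have a1 : cst Unit a ∈ (h.JB.fine Unit).PG := cst_mem_PG (Fam.GB_zero h0 ha)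
  have b1 : cst Unit b ∈ (h.JB.fine Unit).PG := cst_mem_PG (Fam.GB_zero h0 hb)
  have r0 := row_mem hη 0
  have rt := row_mem hη t
  have w0 : ev 0 ((cst Unit a)⁻¹ * sb (row t) η * (cst Unit b)⁻¹) = 1 := by
    rw [map_mul, map_mul, map_inv, map_inv, ev_cst, ev_cst, e]; group
  have e0 : ev 0 (sb (row 0) η) = 1 := by
    have := ev_row (0 : FF) 0 η
    rw [show (![0, 0] : Fin 2 → FF) = 0 from funext fun l => by fin_cases l <;> rfl] at this
    refine this.trans (lg_inj ?_)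
    have h1 := hη 0
    rwa [h0, Submodule.mem_bot, co_zero_lg, ← lg_one (lv := lv)] at h1
  have w1 : (cst Unit a)⁻¹ * sb (row t) η * (cst Unit b)⁻¹ ∈ (h.GB.fine Unit).PG :=
    mul_mem (mul_mem (inv_mem (cst_mem ha)) rt) (inv_mem (cst_mem hb))
  refine ⟨Fam.PG_mono (Fam.plus_le _) (mem_plus'.2 ⟨fun β hβ => ?_, w0⟩), mem_plus.2 ⟨r0, e0⟩,
    mem_plus.2 ⟨?_, by rw [map_mul, map_inv, w0, e0]; simp⟩⟩
  · refine h.su_mono (fun γ (c : γ 1 = β.degree) => ?_) (w1 β)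
    change max β.degree 1 ≤ γ 1
    have := (Finsupp.degree_eq_zero_iff β).not.2 hβ
    omega
  · have := mul_mem (mul_mem (I.conj' r0 (inv_mem a1)) ((I.inv_mul_iff r0 rt).2 (row_sub hη t)))
      (inv_mem b1)
    convert this using 1
    group

section top

variable {g : Fam K lv ℕ} {D k : ℕ}

/-- The ideal along which the row function is invariant. -/
def Fam.UB (h : Fam K lv (Fin 2 →₀ ℕ)) (k : ℕ) : Submodule FF (Matrix ι ι FF) :=
  h.su fun β => k + 1 ≤ β 1 ∨ (β 1 = k ∧ β 0 ≠ 0)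

theorem deg_two (β : Fin 2 →₀ ℕ) : β.degree = β 0 + β 1 := by
  rw [Finsupp.degree_eq_sum, Fin.sum_univ_two]

theorem Fam.NB_le_UB (h : Fam K lv (Fin 2 →₀ ℕ)) (k : ℕ) : h.NB.r (k + 1) ≤ h.UB k :=
  h.su_mono fun β (a : max (k + 1) 1 ≤ β 1) => Or.inl (by omega)

theorem Fam.JB_le_UB (h : Fam K lv (Fin 2 →₀ ℕ)) (k : ℕ) : h.JB.r k ≤ h.UB k :=
  h.su_mono fun _ a => Or.inr a

theorem Fam.UB_le_NB (h : Fam K lv (Fin 2 →₀ ℕ)) (hk : 1 ≤ k) : h.UB k ≤ h.NB.r k :=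
  h.su_mono fun β a => (by omega : max k 1 ≤ β 1)

theorem Fam.UB_idl (h : Fam K lv (Fin 2 →₀ ℕ)) (hk : 1 ≤ k) : h.NB.Idl (h.UB k) where
  rat := h.su_rat _
  le := h.su_mono fun β a => (by omega : max 0 1 ≤ β 1)
  br _ hX _ hY := Fam.su_br (h := h) (p := fun β => max 0 1 ≤ β 1)
    (q := fun β => k + 1 ≤ β 1 ∨ (β 1 = k ∧ β 0 ≠ 0))
    (s := fun β => k + 1 ≤ β 1 ∨ (β 1 = k ∧ β 0 ≠ 0))
    (fun β γ a b => Or.inl (by rw [Finsupp.add_apply]; omega)) hX hY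

theorem Fam.NB_fil (hg : g.Fil D) (hh : h ≤ g.fine _) : h.NB.Fil D :=
  Fam.hl_fil fun β (a : D < β 1) => le_bot_iff.1
    ((hh β).trans (hg.eq_bot (by rw [deg_two]; omega)).le)

theorem Fam.su_le_fil (hg : g.Fil D) (hh : h ≤ g.fine _) {p : (Fin 2 →₀ ℕ) → Prop} {d : ℕ}
    (e : ∀ β, p β → d ≤ β 0 + β 1) : h.su p ≤ g.r d :=
  Fam.su_le fun β a => (hh β).trans (hg.le (by rw [deg_two]; exact e β a))

theorem Fam.NB_GG (hg : g.Fil D) (hh : h ≤ g.fine _) : h.NB.GG ≤ g.GG :=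
  fun _ hx => Fam.su_le_fil hg hh (fun _ _ => Nat.zero_le _) hx

theorem Fam.GB_GG (hg : g.Fil D) (hh : h ≤ g.fine _) : h.GB.GG ≤ g.GG :=
  fun _ hx => Fam.su_le_fil hg hh (fun _ _ => Nat.zero_le _) hx

theorem Fam.UB_le (hg : g.Fil D) (hh : h ≤ g.fine _) : h.UB k ≤ g.r (k + 1) :=
  Fam.su_le_fil hg hh fun β a => by omega

theorem Fam.UB_kill (hg : g.Fil D) (hh : h ≤ g.fine _) {ξ : Matrix ι ι FF →ₗ[FF] FF}
    (h2 : ∀ X ∈ g.r (k + 2), ξ X = 0)
    (h1 : ∀ X ∈ h.r (Finsupp.single 0 1 + Finsupp.single 1 k), ξ X = 0)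
    (h0 : ∀ X ∈ h.r (Finsupp.single 1 (k + 1)), ξ X = 0) : ∀ X ∈ h.UB k, ξ X = 0 :=
  Fam.su_kill fun β a X hX => by
    by_cases e : k + 2 ≤ β 0 + β 1
    · exact h2 X (hg.le (by rw [deg_two]; exact e) (hh β hX))
    · rcases a with a | a
      · refine h0 X ?_
        rwa [show Finsupp.single 1 (k + 1) = β from Finsupp.ext fun l => by
          fin_cases l <;> simp <;> omega]
      · refine h1 X ?_
        rwa [show Finsupp.single 0 1 + Finsupp.single 1 k = β from Finsupp.ext fun l => by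
          fin_cases l <;> simp <;> omega]

end top

end Pool.Agent.P.MP_a14ce1_nt.Nil
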