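import Pool.Agent.P.MP_a14ce1_nt.GI.Low
import Pool.Agent.P.MP_a14ce1_nt.GI.BU0
import Pool.Agent.P.MP_a14ce1_nt.GI.Sec6A
import Pool.Agent.P.MP_a14ce1_nt.Nil.Cell
import Pool.Agent.P.MP_a14ce1_nt.Nil.NiceL

/-! Removing the dependence on the shift. -/

open Filter Finset MvPolynomial
open scoped BigOperators

set_option linter.unusedSectionVars false

noncomputable section

namespace Pool.Agent.P.MP_a14ce1_nt.GI

open Nil

variable {ι : Type} [Fintype ι] [DecidableEq ι] {lv : ι → ℕ} {N : HZ} [hN : Fact (Inf N)] {k : ℕ}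

theorem mem_SN {σ : Type} {β : σ →₀ ℕ} {t : HR} :
    t ∈ (SN N σ).s β ↔ t * ci N ^ β.degree ∈ OO 2 := by
  rw [← CellP.mn_const]; rfl

theorem mem_TN {σ : Type} {β : σ →₀ ℕ} {t : HR} : t ∈ (TN σ).s β ↔ t ∈ RT 2 := by
  have := CellP.mn_const (1 : HR) β
  rw [one_pow] at this
  change t * CellP.mn (fun _ => 1) β ∈ RT 2 ↔ _
  rw [this, mul_one]

theorem row_SN {h : HZ} (hh : Mem h (HH N)) {e : PS lv (Fin 2) HR}
    (he : e ∈ (SN N (Fin 2)).EE lv) : sb (row (ci h)) e ∈ (SN N Unit).EE lv :=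
  sb_mem_EE _ (fun γ β t ht => by
    rw [coeff_row, mem_SN]
    rw [mem_SN, deg_two] at ht
    have h0 : 0 < ci N := by rw [← map_zero ci]; exact ci_lt.2 hN.out.1
    split_ifs with e
    · have h1 : ci h / ci N ∈ OO 2 := OO_of_le_one (by
        rw [abs_div, abs_of_pos h0, div_le_one h0, abs_le, ← map_neg]
        exact ⟨ci_le.2 (mem_HH.1 hh).1.le, ci_le.2 (mem_HH.1 hh).2.le⟩)
      have := mul_mem (pow_mem h1 (γ 0)) ht
      convert this using 1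
      rw [← e, div_pow, pow_add]
      field_simp
    · rw [zero_mul, zero_mul]; exact zero_mem _) he

theorem row_TN (h : HZ) {c : PS lv (Fin 2) HR} (hc : c ∈ (TN (Fin 2)).EE lv) :
    sb (row (ci h)) c ∈ (TN Unit).EE lv :=
  sb_mem_EE _ (fun γ β t ht => by
    rw [coeff_row, mem_TN]
    rw [mem_TN] at ht
    split_ifs
    · exact mul_mem (pow_mem (ZZ_le_RT (ci_mem h)) _) ht
    · rw [zero_mul]; exact zero_mem _) hc

theorem zv_two (h n : HZ) : zv ![h, n] = ![ci h, ci n] :=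
  funext fun l => by fin_cases l <;> rfl

theorem sec6 (hk : 1 ≤ k) {Ξ : (Fin 2 → HZ) → HC} {A : Sy N (Fin 2)} (hΞ : Nsq (k + 1) Ξ A)
    (h1 : A (b1 k) = 0) (h0 : A (b0 k) = 0) :
    ∃ 𝒟 : ℕ → Sy N Unit, (∀ c, Rep k (𝒟 c)) ∧ ∀ h : HZ, Mem h (HH N) → ∀ φ, Bd φ →
      (Cr N fun n => φ n * Ξ ![h, n]) →
        ∃ P c Φ, Nsq1 k Φ (𝒟 c) ∧ Cr N fun n => φ n * cel N P n * Φ n := by
  have iΞ := hΞ.nl
  obtain ⟨d, ξ, rfl, hf, hA⟩ := hΞ
  obtain ⟨F, x, hF, hx, hE, ht, hS⟩ := d.norm (N := N) 0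
  obtain ⟨u, hle, ⟨e, he, η, hη, c, hc, rfl⟩, hu⟩ := exists_fam (sepN N _) (Fam.plus_zero _) hx
  have hA' := hA.trans (hS _ ξ hf.top).symm
  have u0 : u.r 0 = ⊥ := le_bot_iff.1 ((hle 0).trans (Fam.plus_zero _).le)
  have ule : u ≤ d.g.fine _ := hle.trans (Fam.plus_le _)
  have kill := Fam.UB_kill d.fil ule hf.top
    (hu _ ξ ((hA' (b1 k) (by simp [b1, add_comm])).symm.trans h1))
    (hu _ ξ ((hA' (b0 k) (by simp [b0])).symm.trans h0))
  obtain ⟨en, e1, e2⟩ := exists_enum d.ι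
  refine ⟨fun i => sy N (sb (row 0) η) (en i), fun i => rep_sy _ (e1 i), fun h hh φ hφ hc' => ?_⟩
  have pl := Fam.PG_mono (d.g.fine (Fin 2)).plus_le
  have sm := fun {y} (hy : y ∈ (d.g.fine (Fin 2)).plus.PG) =>
    sb_mem d.fil (pl hy) (row (ci h)) (row_deg _)
  have iφ := hφ.1
  have iF := hF.int
  obtain ⟨P, q', F', g1, g2, g3⟩ := cell1 d.fil hF ⟨sm he.1, row_SN hh he.2⟩ (sm hη.1)
    ⟨sm hc.1, row_TN h hc.2⟩ hφ (hc'.congr (hφ.mul (iΞ.row h)).1 (by fun_prop) fun n _ _ => by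
      rw [← mul_sub, ← map_mul, ← map_mul]
      have := ht ![h, n]
      rw [zero_add, zv_two, ← ev_row] at this
      exact this.mul' (nm_OO (hφ.2 _)))
  have m0 : ev 0 (sb (row (ci h)) η) ∈ u.GB.GG := by
    have := row_mem hη.2 (ci h) 0
    rwa [co_zero_lg] at this
  obtain ⟨a, ha, b, hb, hab, hO, hL⟩ := normaliseQ u.GB g1.lvl m0
  obtain ⟨w1, w2, w3⟩ := row_alg u0 hη.2 (ci h) ha hb hab
  have ha' := Fam.GB_GG d.fil ule ha
  have hb' := Fam.GB_GG d.fil ule hb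
  have iF' := g1.int
  have bP := hφ.mul (cel_bd (N := N) P)
  have iP := bP.1
  have nG := Fam.NB_GG d.fil ule
  obtain ⟨ξ', x1, x2, Φ, x3, x4⟩ := spl (N := N) (k := k) ⟨d.ι, d.lv, u.NB, d.D,
    Fam.NB_fil d.fil ule, q', fun w => F' (a * w), (g1.left ha' hO).mono nG, _, w1⟩
    (u.UB_idl hk).cen (u.NB_le_UB k) (u.UB_le_NB hk) (fun _ _ => rfl)
    (((g2 _ _ (d.cen hf) (hE _ _ (d.cen hf) hf.eqv)).left (d.cen hf) ha').mono nG
      (Fam.UB_le d.fil ule) fun X hX => (kill X hX).symm) bP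
    (g3.congr (by fun_prop) (by unfold Dat.val; fun_prop) fun n _ _ => by
      rw [← mul_sub]
      refine TinyC.mul' ?_ (nm_OO (bP.2 _))
      have := g1.per b hb' hL _ (mul_mem ha' (nG (ev_mem (Fam.NB_fil d.fil ule) w1
        (zv fun _ => n))))
      convert this using 3
      · rw [map_mul, map_mul, map_inv, map_inv, ev_cst, ev_cst]; group
      · rfl)
  obtain ⟨i, rfl⟩ := e2 ξ' x1
  refine ⟨P, i, Φ, Nsq.congr x3 fun β hβ => ?_, x4⟩
  have := cl_ideal (sepN N _) (Fam.plus_zero _) (Fam.Ide.plus (u.ide_JB.comap _)) w2 w3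
    (β := β) (ξ := en i) fun X hX => x2 X (u.JB_le_UB k (hβ ▸ Fam.plus_le _ β hX))
  rwa [mul_inv_cancel_left] at this

end Pool.Agent.P.MP_a14ce1_nt.GI
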