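import Pool.Agent.P.MP_a14ce1_nt.GI.Star
import Pool.Agent.P.MP_a14ce1_nt.GI.Sec6

/-! Integration of the symmetric nilcharacter. -/

open Filter Finset MvPolynomial
open scoped BigOperators

set_option linter.unusedSectionVars false

noncomputable section

namespace Pool.Agent.P.MP_a14ce1_nt.GI

open Nil

variable {N : HZ} [Fact (Inf N)] {j k : ℕ}

/-- Pigeonhole over a countable list of bounded functions. -/
theorem dense_bu {J : Type} [Countable J] {F : J → HZ → HZ → HC}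
    (hF : ∀ i, IntF fun z : HZ × HZ => F i z.1 z.2)
    (hd : Dense 2 (HH N) fun h : HZ => ∃ i, BU N j (F i h)) :
    ∃ i, Dense 2 (HH N) fun h : HZ => BU N j (F i h) := by
  obtain ⟨i, hi⟩ := Dense.any (p := fun _ => True) (q := fun i h => BU N j (F i h))
    (fun i => bu_sig (hF i)) (hd.mono fun a _ h => ⟨trivial, h⟩)
  exact ⟨i, hi.mono fun a _ h => h.2⟩

theorem nsq_xi (b : Bi k) {Θ : (Fin 2 → HZ) → HC} (hΘ : Nsq (k + 1) Θ (sy N b.W b.ξ))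
    {ω ω' : HZ → HC}
    (h : Nsq1 (k + 1) ω (sy N (sb (fun _ => X ()) b.W) (((k + 1 : ℕ) : HR)⁻¹ • b.ξ)))
    (h' : Nsq1 (k + 1) ω' (sy N (sb (fun _ => X ()) b.W) (((k + 1 : ℕ) : HR)⁻¹ • b.ξ))) :
    Nsq (k + 1) (fun t => Θ t * cj (ω (t 1 + t 0)) * ω' (t 1)) (b.xi N) := by
  have e1 := Nsq.lin h (τ := Fin 2) fun _ _ => 1
  have e2 := Nsq.lin h' (τ := Fin 2) fun _ => ![0, 1]
  rw [sb_sb, sy_smul] at e1 e2
  have l1 : (fun _ : Fin 2 => aeval (lin fun (_ : Unit) (_ : Fin 2) => (1 : ℤ))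
      (X () : MvPolynomial Unit HR)) = fun _ => X 0 + X 1 := by
    funext l; simp [lin]
  have l2 : (fun _ : Fin 2 => aeval (lin fun _ : Unit => (![0, 1] : Fin 2 → ℤ))
      (X () : MvPolynomial Unit HR)) = fun _ => X 1 := by
    funext l; simp [lin]
  rw [l1] at e1
  rw [l2] at e2
  have := (hΘ.mul e1.cj).mul e2
  rw [← sub_eq_add_neg] at this
  unfold Bi.xi
  convert this using 2 with t
  simp [add_comm]

theorem end6 (hG : GIst j) (b : Bi (j + 1)) {Θ : (Fin 2 → HZ) → HC}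
    (hΘ : Nsq (j + 2) Θ (sy N b.W b.ξ)) (x1 : b.xi N (b1 (j + 1)) = 0)
    (x0 : b.xi N (b0 (j + 1)) = 0) {f₁ f₂ : HZ → HC} (h1 : Bd f₁) (hs : Supp N f₁) (h2 : Bd f₂)
    (hd : Dense 2 (HH N) fun h : HZ => BU N j fun n => f₁ (n + h) * f₂ n * Θ ![h, n]) :
    ∃ ω, SNil (j + 2) ω ∧ BU N (j + 1) fun n => f₁ n * ω n := by
  obtain ⟨D, ω, hω, hu⟩ := (rep_sy (N := N) (s := j + 2) (sb (fun _ => X ()) b.W)
    (b.rat.smul (c := ((j + 1 + 1 : ℕ) : HR)⁻¹) (inv_mem (natCast_mem _ _)))).unit1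
    (Nat.le_add_left 1 _)
  have bω : ∀ i, Bd (ω i) := fun i => Nl1.bd (hω i).1.nl
  have hΞ := fun i l => nsq_xi b hΘ (hω i).1 (hω l).1
  choose 𝒟 h𝒟 h6 using fun i l => sec6 (Nat.le_add_left 1 j) (hΞ i l) x1 x0
  choose Dc a ha hua using fun i l c => (h𝒟 i l c).unit1 (Nat.le_add_left 1 j)
  have b3 : ∀ i l c l' P P', Bd fun n =>
      f₂ n * cj (ω l n) * cel N P n * a i l c l' n * cel N P' n := fun i l c l' P P' =>
    (((h2.mul (bω l).cj).mul (cel_bd P)).mul (Nl1.bd (ha i l c l').1.nl)).mul (cel_bd P')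
  have b4 : ∀ i, Bd fun n => f₁ n * ω i n := fun i => h1.mul (bω i)
  obtain ⟨⟨⟨⟨i, l, c⟩, l'⟩, P, P'⟩, hi⟩ := dense_bu (N := N) (j := j)
    (J := (Σ c : Fin D × Fin D × ℕ, Fin (Dc c.1 c.2.1 c.2.2)) × CI × CI)
    (F := fun w h n => f₁ (n + h) * ω w.1.1.1 (n + h) * (f₂ n * cj (ω w.1.1.2.1 n) *
      cel N w.2.1 n * a w.1.1.1 w.1.1.2.1 w.1.1.2.2 w.1.2 n * cel N w.2.2 n))
    (fun w => ((b4 w.1.1.1).1.comp (f := fun z : HZ × HZ => z.2 + z.1) (by fun_prop)).mul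
      ((b3 _ _ _ w.1.2 w.2.1 w.2.2).1.comp (f := fun z : HZ × HZ => z.2) (by fun_prop)))
    (hd.mono fun h hh g0 => by
      have c0 : Bd fun n => f₁ (n + h) * f₂ n * Θ ![h, n] :=
        ((h1.shift h).mul h2).mul (hΘ.nl.row h)
      obtain ⟨ψ, g1, g2⟩ := g0.cor hG c0
      have c1 := c0.mul (Nl1.bd g1)
      obtain ⟨i, g3⟩ := Cr.unt c1.1 g2 (a := fun i n => ω i (n + h))
        (fun i => ((bω i).shift h).1) fun n => hu _
      obtain ⟨l, g4⟩ := Cr.unt ((c1.mul ((bω i).shift h)).mul ((bω i).shift h).cj).1 g3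
        (fun l => (bω l).1) hu
      have c2 : Bd fun n => f₁ (n + h) * ω i (n + h) * (f₂ n * cj (ω l n)) :=
        ((b4 i).shift h).mul (h2.mul (bω l).cj)
      obtain ⟨P, c, Φ, g5, g6⟩ := h6 i l h hh _ (c2.mul (Nl1.bd g1))
        (g4.of_eq fun n => by simp only [Matrix.cons_val_zero, Matrix.cons_val_one]; ring)
      obtain ⟨l', P', g7⟩ := swap g5 (fun l' => (ha i l c l').1) (hua i l c) (c2.mul (cel_bd P))
        ⟨ψ, g1, g6.of_eq fun n => by ring⟩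
      exact ⟨(⟨(i, l, c), l'⟩, P, P'), Cor.bu (((b4 i).shift h).mul (b3 i l c l' P P'))
        (g7.of_eq fun n => by ring)⟩)
  exact ⟨ω i, (hω i).2, bu_gcs (b4 i) (fun n hn => hs n (left_ne_zero_of_mul hn))
    (b3 i l c l' P P') hi⟩

end Pool.Agent.P.MP_a14ce1_nt.GI
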