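import Pool.Agent.P.MP_a14ce1_nt.GI.Ty

/-! From the nonstandard step to the finitary inverse theorem. -/

open Filter Finset
open scoped BigOperators

noncomputable section

namespace Pool.Agent.P.MP_a14ce1_nt.GI

open Nil

theorem inf_st {M : ℕ → ℕ} (h : ∀ i, i + 1 ≤ M i) : Inf (st fun i => (M i : ℤ)) := by
  refine ⟨st_lt.2 (Eventually.of_forall fun i => Nat.cast_pos.2 (Nat.succ_pos i |>.trans_le (h i))),
    tiny_inv_iff.2 (Or.inr fun ⟨C, hC⟩ => ?_)⟩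
  have h1 : ∀ᶠ i in UU, ((M i : ℤ) : ℝ) ≤ 2 ^ C := st_le.1 ((le_abs_self _).trans hC)
  obtain ⟨i, h2, h3⟩ := (h1.and (ev_ge (2 ^ C))).exists
  have h4 : M i ≤ 2 ^ C := by exact_mod_cast h2
  have := h i
  omega

theorem cut_eqF {N : ℤ} {p : ℤ → ℂ} (h : ∀ n, p n ≠ 0 → 0 ≤ n ∧ n < N) : cut N p = p :=
  funext fun n => by
    rw [cut]
    split_ifs with c
    exacts [rfl, (not_not.1 (mt (h n) c)).symm]

theorem fin_step {k : ℕ} (hG : GIst k) (h : ∀ (N : HZ) [Fact (Inf N)] (f : HZ → HC), Bd f →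
    Supp N f → BU N (k + 1) f → ∃ ω, SNil (k + 1) ω ∧ BU N k fun n => f n * ω n) :
    GIst (k + 1) := by
  intro δ hδ
  by_contra hc
  obtain ⟨𝒯, h𝒯⟩ := Ty.cofinal
  push Not at hc
  choose M hM φ h1 h2 h3 h4 using fun i : ℕ => hc (𝒯 i) (1 / (i + 1)) (i + 1) (by positivity)
  have : Fact (Inf (st fun i => (M i : ℤ))) := ⟨inf_st hM⟩
  have hr := rep_st (A := HZ) fun i => (M i : ℤ)
  obtain ⟨ω, ⟨T, ψ, a1, a2⟩, p, a3, δ', a4, a5⟩ := h (st fun i => (M i : ℤ)) (app φ)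
    ⟨intF_app φ, st_ind fun n => by rw [app_st]; exact le_of_forall fun i => h1 i _⟩
    (st_ind fun n hn => by
      rw [app_st] at hn
      have := (ev_not.2 (mt (NS.eq_iff (A := HC) _ fun _ => 0).2 hn)).mono fun i hi => h2 i _ hi
      rw [eventually_and] at this
      exact ⟨st_le.2 this.1, st_lt.2 this.2⟩)
    ⟨φ, app_st φ, δ, hδ, hr.mono fun i hi => by rw [hi, cut_eqF (h2 i)]; exact h3 i⟩
  have a6 : ∀ᶠ i in UU, ∀ s, φ i s * ψ i s = p i s := ev_forall.2 fun n => by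
    have := a3 n
    beta_reduce at this
    rw [app_st, a2] at this
    exact (NS.eq_iff (A := HC) _ _).1 this
  obtain ⟨T', c, N₀, b1, b2⟩ := hG δ' a4
  obtain ⟨T'', b3⟩ := T.exists_mul T'
  obtain ⟨i₀, b4⟩ := h𝒯 T''
  obtain ⟨m, hm⟩ := exists_nat_one_div_lt b1
  obtain ⟨i, ⟨c1, c2, c3⟩, c4⟩ := ((hr.and (a5.and a6)).and (ev_ge (max i₀ (max N₀ m)))).exists
  simp only [max_le_iff] at c4
  have hs : ∀ n, φ i n * ψ i n ≠ 0 → 0 ≤ n ∧ n < M i := fun n hn => h2 i n (left_ne_zero_of_mul hn)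
  rw [c1, ← funext c3, cut_eqF hs] at c2
  obtain ⟨ψ', d1, d2⟩ := b2 (M i) (c4.2.1.trans ((Nat.le_succ i).trans (hM i))) _ (fun n => by
    rw [norm_mul]; exact mul_le_one₀ (h1 i n) (norm_nonneg _) ((a1 i).le n)) hs c2
  have d3 := h4 i _ (b4 i c4.1 _ _ (b3 _ _ _ (a1 i) d1.succ))
  simp only [mul_assoc] at d2
  refine absurd (d2.trans_lt d3) (not_lt.2 (mul_le_mul_of_nonneg_right (le_trans ?_ hm.le)
    (Nat.cast_nonneg _)))
  exact one_div_le_one_div_of_le (by positivity) (by exact_mod_cast Nat.succ_le_succ c4.2.2)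

end Pool.Agent.P.MP_a14ce1_nt.GI
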