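import Pool.Agent.P.MP_a14ce1_nt.GI.BU0
import Pool.Agent.P.MP_a14ce1_nt.Nil.Lin5

/-! Linearisation, stated with factorisations. -/

open Filter Finset MvPolynomial
open scoped BigOperators

set_option linter.unusedSectionVars false

noncomputable section

namespace Pool.Agent.P.MP_a14ce1_nt.GI

open Nil

variable {ι : Type} [Fintype ι] [DecidableEq ι] {lv : ι → ℕ} {N : HZ} [hN : Fact (Inf N)]
  {k D : ℕ}

theorem intS_udg {A S ι' σ : Type} [NS A S] [Fintype ι'] [DecidableEq ι'] {lv' : ι' → ℕ}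
    {x : A → PS lv σ HR} {y : A → PS lv' σ HR} (hx : IntS x) (hy : IntS y) :
    IntS fun a => UT.dg (x a, y a) :=
  intS_iff.2 fun i j => by
    rcases i with i | i <;> rcases j with j | j
    exacts [hx.val i j, IntY.const 0, IntY.const 0, hy.val i j]

theorem big_HH : Big 2 (cd (HH N) / ci N) := by
  have h0 : (1 : HR) ≤ ci N := by
    rw [← map_one ci]
    exact ci_le.2 (by simpa using HZ_add_one_le.2 hN.out.1)
  refine big_one.mono zero_le_one ?_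
  rw [cd_HH, le_div_iff₀ (by linarith)]
  linarith

variable (N) in
/-- Dense sets of shifts and of additive quadruples. -/
def lgN : Lg HZ where
  D1 p := Dense 2 (HH N) p
  D4 P := Dense 2 (fprod (HH N) (fprod (HH N) (HH N))) fun p : HZ × HZ × HZ =>
    Mem (p.1 + p.2.1 - p.2.2) (HH N) ∧ P ![p.1, p.2.1, p.2.2, p.1 + p.2.1 - p.2.2]
  mono1 h hpq := h.mono fun a _ => hpq a
  mono4 h hpq := h.mono fun _ _ a => ⟨a.1, hpq _ a.2⟩
  ne1 h := let ⟨a, _, b⟩ := h.exists; ⟨a, b⟩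
  fib {P} h k hk := by
    rcases hk with rfl | rfl
    · obtain ⟨b, -, d⟩ := h.fub'.exists
      exact ⟨b.1, b.2, d.mono fun a _ e => ⟨_, e.2, rfl, rfl, rfl⟩⟩
    · obtain ⟨T, h1, h2⟩ := h
      have T0 : cd T ≠ 0 := fun e => h2.ne_zero (by rw [e, zero_div])
      have h3 := Dense.of_inj (Q := 2) (T := T) (T' := fprod (HH N) (fprod (HH N) (HH N)))
        (e := fun p : HZ × HZ × HZ => (p.1, p.2.1, p.1 + p.2.1 - p.2.2)) (by fun_prop)
        (fun a ha => by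
          obtain ⟨a1, a2, -⟩ := h1 a ha
          exact mem_fprod.2 ⟨(mem_fprod.1 a1).1,
            mem_fprod.2 ⟨(mem_fprod.1 (mem_fprod.1 a1).2).1, a2⟩⟩)
        (fun a a' _ _ e => by
          simp only [Prod.ext_iff] at e ⊢
          obtain ⟨e1, e2, e3⟩ := e
          rw [e1, e2] at e3
          exact ⟨e1, e2, sub_right_injective e3⟩) h2
        (p := fun p => P ![p.1, p.2.1, p.1 + p.2.1 - p.2.2, p.2.2])
        (dense_all T0 fun a ha => by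
          simpa only [sub_sub_cancel] using (h1 a ha).2.2)
      obtain ⟨b, -, d⟩ := h3.fub'.exists
      exact ⟨b.1, b.2, d.mono fun a _ e => ⟨_, e, rfl, rfl, rfl⟩⟩

/-- The monomial of degree `i` in one variable. -/
abbrev mo : ℕ →+ (Unit →₀ ℕ) := Finsupp.singleAddHom ()

theorem deg_mo (i : ℕ) : (mo i).degree = i := Finsupp.degree_single _ _

theorem mo_deg (β : Unit →₀ ℕ) : mo β.degree = β := by
  ext
  simp [Finsupp.degree_eq_sum]

theorem comap_fine (r : Fam K2 lv (Unit →₀ ℕ)) : (r.comap mo).fine Unit = r :=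
  Fam.ext (funext fun β => congrArg r.r (mo_deg β))

theorem sig_dc {G : Fam K2 lv (Unit →₀ ℕ)} (GD : G.Bd D) {A S : Type} [NS A S]
    {v w : A → PS lv Unit HR} (hv : IntS v) (hw : IntS w) :
    Sig fun a => Dc (SN N Unit) (TN Unit) G (v a) (w a) :=
  (Sig.exS GD (r := fun a e => e ∈ (SN N Unit).EE lv ∧ ∃ c ∈ G.PG, c ∈ (TN Unit).EE lv ∧
    (w a)⁻¹ * (e * v a * c) ∈ (Fam.bot K2 lv (Unit →₀ ℕ)).PG)
    ((Sig.EE _ (sig_Sm _) (IntS.dec _ IntF.id.snd)).and (Sig.exS GD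
      (r := fun (z : A × (upTo Unit D → Matrix ι ι HR)) c => c ∈ (TN Unit).EE lv ∧
        (w z.1)⁻¹ * (dec lv _ z.2 * v z.1 * c) ∈ (Fam.bot K2 lv (Unit →₀ ℕ)).PG)
      ((Sig.EE _ (sig_Rt _) (IntS.dec _ IntF.id.snd)).and
        (((hw.comp IntF.id.fst.fst).inv.mul (((IntS.dec _ IntF.id.fst.snd).mul
          (hv.comp IntF.id.fst.fst)).mul (IntS.dec _ IntF.id.snd))).PG _).sig)))).congr
    fun a => by
      simp only [Fam.bot_PG, Subgroup.mem_bot, inv_mul_eq_one]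
      exact ⟨fun ⟨e, he, c, hc, E⟩ => ⟨e, he.1, he.2, c, hc.1, hc.2, E⟩,
        fun ⟨e, h1, h2, c, h3, h4, E⟩ => ⟨e, ⟨h1, h2⟩, c, ⟨h3, h4⟩, E⟩⟩

theorem all4 {A : Type} {p : A → Prop} {a b c d : A} :
    (∀ j, p (![a, b, c, d] j)) ↔ p a ∧ p b ∧ p c ∧ p d :=
  ⟨fun h => ⟨h 0, h 1, h 2, h 3⟩, fun h j => by
    fin_cases j
    exacts [h.1, h.2.1, h.2.2.1, h.2.2.2]⟩

theorem linear0 {g : Fam K2 lv ℕ} (hg : g.Fil D) {ξ : Matrix ι ι HR →ₗ[HR] HR}
    (ht : ∀ X ∈ g.r (k + 1), ξ X = 0) {x : HZ → PS lv Unit HR} (hx : IntS x) {H}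
    (hH : Sub N H) (hm : ∀ h : HZ, Mem h H → x h ∈ (g.fine Unit).plus.PG)
    (hq : ∀ H', Sub N H' → (∀ h : HZ, Mem h H' → Mem h H) → Quad N H' fun a b c d =>
      ∃ h ≤ (g.fine Unit).plus.p4, (∀ Z ∈ h.r (mo k), ξ (sg Z) = 0) ∧
        Fac (SN N Unit) (TN Unit) (g.fine Unit).plus.p4 h (uu ![x a, x b, x c, x d])) :
    ∃ (Λ : Lin lv k D ξ) (r m : Fam K2 lv (Unit →₀ ℕ)), r ≤ (g.fine Unit).plus ∧ r.Ide m ∧
      (∀ X ∈ m.r (mo k), ξ X = 0) ∧ Dense 2 (HH N) fun h : HZ => Mem h H ∧ ∃ u, Λ.Near h u ∧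
        Λ.seq h u ∈ r.PG ∧
        Nil.Rel (SN N Unit) (TN Unit) (g.fine Unit).plus m (Λ.seq h u) (x h) := by
  set G := (g.fine Unit).plus with hG
  have G0 : G.r 0 = ⊥ := Fam.plus_zero _
  have GD : G.Bd D := hg.fine_bd.plus
  obtain ⟨r, n, y, hr, i, hy, d1, m1, m2⟩ := core1 (lgN N) (sepN N Unit) G0 _ GD.bot
    (p := fun h => Mem h H) ⟨H, fun a ha => ⟨hH.1 a ha, ha⟩, hH.2⟩ hm
  have nD : n.Bd D := fun β hβ => le_bot_iff.1 (GD β hβ ▸ (i.le.trans hr) β)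
  obtain ⟨z, hz, d2⟩ := Dense.choiceS nD
    (r := fun h z => Dc (SN N Unit) (TN Unit) G (y * z) (x h))
    (sig_dc GD ((IntS.const y).mul (IntS.dec _ IntF.id.snd)) (hx.comp IntF.id.fst))
    (Nil.Dense.mono d1 fun a _ h => ⟨h.1, rel_iff.1 h.2⟩)
  obtain ⟨H', hH', hp⟩ := Dense.exists_sub d2
  have GD4 : G.p4.Bd D := (GD.prod GD).prod (GD.prod GD)
  obtain ⟨h₀, -, kill, d3⟩ := pigeon_fam GD4
    (x := fun p : HZ × HZ × HZ => uu ![x p.1, x p.2.1, x p.2.2, x (p.1 + p.2.1 - p.2.2)])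
    (intS_udg (intS_udg (hx.comp (by fun_prop)) (hx.comp (by fun_prop)))
      (intS_udg (hx.comp (by fun_prop)) (hx.comp (by fun_prop))))
    (fun _ : Unit => mo k) (fun _ => ξ ∘ₗ sg)
    (Nil.Dense.mono (hq H' hH' fun a ha => (hp a ha).1) fun p _ ⟨a, h, h1, h2, h3⟩ =>
      ⟨a, h, h1, fun _ => h2, h3⟩)
  obtain ⟨m, B, -, i', hle, hbr, hk, d4⟩ := core2 (lgN N) (sepN N Unit) G0 hr i hy m1 m2
    (p := fun h => Mem h H') (fun a ha => ⟨(hp a ha).1, rel_iff.2 ⟨_, (hp a ha).2⟩⟩) (kill ())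
    (P := fun _ => True) (Nil.Dense.mono d3 fun p _ ⟨a, h⟩ => ⟨hH'.1 _ a.2.2.2, trivial,
      (all4 (p := fun h => Mem h H')).2 a, h⟩)
  obtain ⟨D', θ, a₀, y', hy', B₀, hB₀, b, hb, d5⟩ := lin_step4 hN.out.1
    (fun h hh => ⟨(mem_HH.1 hh).1.le, (mem_HH.1 hh).2.le⟩) big_HH
    (w := zv fun _ : Unit => N) (fun _ e => hN.out.1.ne' (ci_inj (e.trans (map_zero ci).symm)))
    nD i i' hle hbr hy (B := B) hz hH'.1 (fun a ha => (hp a ha).2.1)
    (Nil.Dense.mono d4 fun p _ ⟨_, _, a, h⟩ => ⟨(all4 (p := fun h => Mem h H')).1 a,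
      h (fun j => z (![p.1, p.2.1, p.2.2, p.1 + p.2.1 - p.2.2] j)) (fun j => (hp _ (a j)).2.1)
        fun j => (hp _ (a j)).2.2⟩)
  have rG : ∀ j, r.r (mo j) ≤ g.r j := fun j =>
    ((hr.trans (Fam.plus_le _)) (mo j)).trans (by rw [Fam.fine_r, deg_mo])
  refine ⟨
    { r := r.comap mo
      n := n.comap mo
      r0 := (congrArg r.r (map_zero mo)).trans (le_bot_iff.1 (G0 ▸ hr 0))
      rD := fun j hj => le_bot_iff.1 (hg.eq_bot hj ▸ rG j)
      top := fun j hj X hX => ht X (hg.le hj (rG j hX))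
      ide := i.comap mo
      fw := fun a c e X hX Y hY => hk _ (by rw [← e, map_add]; exact hbr _ _ X hX Y hY)
      y := y'
      hy := by rwa [comap_fine]
      J := D'
      θ := θ
      h₀ := a₀
      B₀ := B₀
      hB₀ := by rwa [comap_fine]
      B := b
      hB := by rwa [comap_fine] }, r, m, hr, i', hk, d5.mono fun h _ ⟨a, u, h1, h2⟩ =>
    ⟨(hp h a).1, u, h1, mul_mem hy' (Fam.PG_mono i.le (ex_mem_grp (add_mem (smul_mem_pm _ hB₀)
      (sum_mem fun l _ => smul_mem_pm _ (hb l))))), (h2.mono hr le_rfl).dc (hp h a).2.2⟩⟩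

end Pool.Agent.P.MP_a14ce1_nt.GI
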