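import Pool.Agent.P.MP_a14ce1_nt.GI.Def
import Pool.Agent.P.MP_a14ce1_nt.GI.Lin0

/-! Linearisation of the symbol in the shift. -/

open Filter Finset MvPolynomial
open scoped BigOperators

set_option linter.unusedSectionVars false

noncomputable section

namespace Pool.Agent.P.MP_a14ce1_nt.GI

open Nil

variable {ι : Type} [Fintype ι] [DecidableEq ι] {lv : ι → ℕ} {N : HZ} [Fact (Inf N)] {k D : ℕ}

theorem comp_sg (ξ : Matrix ι ι HR →ₗ[HR] HR) :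
    ξ ∘ₗ sg = fsum (fsum ξ ξ) (-fsum ξ ξ) := by
  ext1 Z
  simp only [sg, LinearMap.comp_apply, LinearMap.add_apply, map_add,
    fsum_apply, LinearMap.neg_apply, neg_add, sub_eq_add_neg, map_neg, add_assoc]
  rfl

theorem linear (_hk : 1 ≤ k) {g : Fam K2 lv ℕ} (hg : g.Fil D) {ξ : Matrix ι ι HR →ₗ[HR] HR}
    (_hξ : RatF K2 ξ) (ht : ∀ X ∈ g.r (k + 1), ξ X = 0) {x : HZ → PS lv Unit HR} (hx : IntS x) {H}
    (hH : Sub N H) (hm : ∀ h : HZ, Mem h H → x h ∈ (g.fine Unit).plus.PG)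
    (hq : ∀ H', Sub N H' → (∀ h : HZ, Mem h H' → Mem h H) → Quad N H' fun a b c d =>
      Eqd k (sy N (x a) ξ + sy N (x b) ξ) (sy N (x c) ξ + sy N (x d) ξ)) :
    ∃ Λ : Lin lv k D ξ, Dense 2 (HH N) fun h : HZ => Mem h H ∧ ∃ m, Λ.Near h m ∧
      Eqd k (sy N (x h) ξ) (sy N (Λ.seq h m) ξ) := by
  have G0 : (g.fine Unit).plus.r 0 = ⊥ := Fam.plus_zero _
  obtain ⟨Λ, r, m, hr, i, hk, d⟩ := linear0 hg ht hx hH hm fun H' h1 h2 =>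
    Nil.Dense.mono (hq H' h1 h2) fun p _ ⟨a, e⟩ => ⟨a, by
      have h0 : cl (sepN N Unit) (mo k)
          (uu ![x p.1, x p.2.1, x p.2.2, x (p.1 + p.2.1 - p.2.2)]) (ξ ∘ₗ sg) = 0 := by
        rw [comp_sg]
        refine (cl_sub _ _ _ _ _ _).trans (sub_eq_zero.2 ?_)
        rw [cl_dg, cl_dg]
        exact e _ (deg_mo k)
      obtain ⟨h, b1, b2, b3⟩ := (cl_eq_zero_iff _ (p4_zero G0) (uu_mem.2
        ((all4 (p := fun z => z ∈ (g.fine Unit).plus.PG)).2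
          ⟨hm _ (h2 _ a.1), hm _ (h2 _ a.2.1), hm _ (h2 _ a.2.2.1), hm _ (h2 _ a.2.2.2)⟩))).1 h0
      exact ⟨h, b1, b3, b2⟩⟩
  refine ⟨Λ, d.mono fun h _ ⟨a, u, h1, h2, h3⟩ => ⟨a, u, h1, fun β hβ => ?_⟩⟩
  obtain ⟨z, hz, h4⟩ := rel_iff.1 h3
  obtain rfl : β = mo k := by rw [← hβ, mo_deg]
  exact (cl_Dc _ G0 (Fam.PG_mono hr (mul_mem h2 (Fam.PG_mono i.le hz))) h4 ξ).trans
    (cl_ideal _ (le_bot_iff.1 (G0 ▸ hr 0)) i h2 hz hk)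

end Pool.Agent.P.MP_a14ce1_nt.GI
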