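import Pool.Agent.P.MP_a14ce1_nt.GI.Def
import Pool.Agent.P.MP_a14ce1_nt.Nil.NiceL

/-! Closure properties of symbols and of nilsequences. -/

open Filter Finset MvPolynomial
open scoped BigOperators

set_option linter.unusedSectionVars false

noncomputable section

namespace Pool.Agent.P.MP_a14ce1_nt.GI

open Nil

variable {ι ι' : Type} [Fintype ι] [DecidableEq ι] [Fintype ι'] [DecidableEq ι'] {lv : ι → ℕ}
  {lv' : ι' → ℕ} {σ τ : Type} [Fintype σ] [DecidableEq σ] [Fintype τ] [DecidableEq τ]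
  {N : HZ} [Fact (Inf N)] {s k j D : ℕ}

section nsq
variable {A B C : Sy N σ} {A' B' : Sy N σ} {Φ Ψ : (σ → HZ) → HC}

/-! ### Symbols -/

theorem Eqd.refl (A : Sy N σ) : Eqd s A A := fun _ _ => rfl
theorem Eqd.of_eq (h : A = B) : Eqd s A B := h ▸ Eqd.refl A
theorem Eqd.symm (h : Eqd s A B) : Eqd s B A := fun β hβ => (h β hβ).symm
theorem Eqd.trans (h : Eqd s A B) (h' : Eqd s B C) : Eqd s A C :=
  fun β hβ => (h β hβ).trans (h' β hβ)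
theorem Eqd.add (h : Eqd s A B) (h' : Eqd s A' B') : Eqd s (A + A') (B + B') := fun β hβ => by
  rw [Pi.add_apply, Pi.add_apply, h β hβ, h' β hβ]
theorem Eqd.neg (h : Eqd s A B) : Eqd s (-A) (-B) := fun β hβ => by
  rw [Pi.neg_apply, Pi.neg_apply, h β hβ]
theorem Eqd.sub (h : Eqd s A B) (h' : Eqd s A' B') : Eqd s (A - A') (B - B') := fun β hβ => by
  rw [Pi.sub_apply, Pi.sub_apply, h β hβ, h' β hβ]
theorem Eqd.smul (c : HR) (h : Eqd s A B) : Eqd s (c • A) (c • B) := fun β hβ => by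
  rw [Pi.smul_apply, Pi.smul_apply, h β hβ]
theorem Eqd.sum {J : Type} (u : Finset J) {A B : J → Sy N σ} (h : ∀ i ∈ u, Eqd s (A i) (B i)) :
    Eqd s (∑ i ∈ u, A i) (∑ i ∈ u, B i) := fun β hβ => by
  rw [Finset.sum_apply, Finset.sum_apply]
  exact sum_congr rfl fun i hi => h i hi β hβ
theorem eqd_sub_zero : Eqd s (A - B) 0 ↔ Eqd s A B :=
  forall₂_congr fun _ _ => sub_eq_zero
theorem sy_smul (c : HR) (x : PS lv σ HR) (ξ) : sy N x (c • ξ) = c • sy N x ξ :=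
  funext fun _ => map_smul _ _ _
theorem sy_neg (x : PS lv σ HR) (ξ) : sy N x (-ξ) = -sy N x ξ := funext fun _ => map_neg _ _
theorem sy_zero (x : PS lv σ HR) : sy N x 0 = 0 := funext fun _ => map_zero _
theorem sy_add (x : PS lv σ HR) (ξ η) : sy N x (ξ + η) = sy N x ξ + sy N x η :=
  funext fun _ => map_add _ _ _
theorem sy_sub (x : PS lv σ HR) (ξ η) : sy N x (ξ - η) = sy N x ξ - sy N x η :=
  funext fun _ => map_sub _ _ _
theorem sy_dg (x : PS lv σ HR) (y : PS lv' σ HR) (ξ η) :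
    sy N (UT.dg (x, y)) (fsum ξ η) = sy N x ξ + sy N y η := funext fun β => cl_dg _ β x y ξ η
theorem sy_sh {g : Fam K2 lv ℕ} (hg : g.Fil D) {x : PS lv σ HR} (hx : x ∈ (g.fine σ).PG) {ξ}
    (ht : ∀ X ∈ g.r (s + 1), ξ X = 0) (a : σ → HR) : Eqd s (sy N (sh a x) ξ) (sy N x ξ) :=
  fun _ hβ => cl_sh _ hg hx (hβ ▸ ht) a
theorem rep_sy (x : PS lv σ HR) {ξ} (h : RatF K2 ξ) : Rep s (sy N x ξ) :=
  ⟨ι, inferInstance, inferInstance, lv, x, ξ, h, Eqd.refl _⟩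
theorem Rep.congr (h : Rep s A) (e : Eqd s A B) : Rep s B :=
  let ⟨ι, i1, i2, lv, x, ξ, h1, h2⟩ := h; ⟨ι, i1, i2, lv, x, ξ, h1, e.symm.trans h2⟩
theorem Rep.add (h : Rep s A) (h' : Rep s B) : Rep s (A + B) :=
  let ⟨_, _, _, _, x, ξ, h1, h2⟩ := h
  let ⟨_, _, _, _, y, η, k1, k2⟩ := h'
  (rep_sy (UT.dg (x, y)) (h1.fsum k1)).congr
    ((Eqd.of_eq (sy_dg x y ξ η)).trans (h2.symm.add k2.symm))
theorem Rep.neg (h : Rep s A) : Rep s (-A) :=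
  let ⟨_, _, _, _, x, ξ, h1, h2⟩ := h
  (rep_sy x h1.neg).congr ((Eqd.of_eq (sy_neg x ξ)).trans h2.symm.neg)
theorem Rep.sub (h : Rep s A) (h' : Rep s B) : Rep s (A - B) := sub_eq_add_neg A B ▸ h.add h'.neg
theorem Rep.smul (h : Rep s A) (c : ℚ) : Rep s ((c : HR) • A) :=
  let ⟨_, _, _, _, x, ξ, h1, h2⟩ := h
  (rep_sy x (h1.smul (SubfieldClass.ratCast_mem _ c))).congr
    ((Eqd.of_eq (sy_smul _ x ξ)).trans (h2.symm.smul _))
theorem lin_hom (M : σ → τ → ℤ) (l : σ) : (lin M l).IsHomogeneous 1 :=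
  IsHomogeneous.sum _ _ _ fun m _ => (isHomogeneous_X _ m).C_mul _
theorem lin_coeff (M : σ → τ → ℤ) (l : σ) (β : τ →₀ ℕ) : coeff β (lin M l) ∈ K2 := by
  rw [lin, coeff_sum]
  refine sum_mem fun m _ => ?_
  rw [coeff_C_mul, coeff_X]
  split_ifs
  · exact mul_mem (intCast_mem _ _) (one_mem _)
  · exact mul_mem (intCast_mem _ _) (zero_mem _)
theorem scw_deg {K : Subfield HR} {R : Subring HR} (hR : ∀ k ∈ K, k ∈ R) (w : HR) (γ : σ →₀ ℕ)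
    (β : τ →₀ ℕ) (h : γ.degree = β.degree) :
    (scw R hR fun _ : σ => w).s γ ≤ (scw R hR fun _ : τ => w).s β := fun t ht => by
  change t * γ.prod (fun _ k => w ^ k) ∈ R at ht
  change t * β.prod (fun _ k => w ^ k) ∈ R
  rw [Finsupp.prod, prod_pow_eq_pow_sum, ← Finsupp.degree_apply] at ht ⊢
  rwa [← h]
/-- Equal symbols stay equal after a homogeneous rational substitution. -/
theorem Eqd.sb {x : PS lv σ HR} {y : PS lv' σ HR} {ξ η} (h : Eqd s (sy N x ξ) (sy N y η))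
    {f : σ → MvPolynomial τ HR} (hf : ∀ l, (f l).IsHomogeneous 1)
    (hK : ∀ l β, coeff β (f l) ∈ K2) : Eqd s (sy N (sb f x) ξ) (sy N (sb f y) η) :=
  fun _ hβ => cl_sb (sepN N σ) (sepN N τ) hf hK (scw_deg _ (ci N)) (scw_deg _ 1) h hβ
/-- Equal symbols stay equal after a linear substitution. -/
theorem Eqd.lin {x : PS lv σ HR} {y : PS lv' σ HR} {ξ η} (h : Eqd s (sy N x ξ) (sy N y η))
    (M : σ → τ → ℤ) : Eqd s (sy N (Nil.sb (lin M) x) ξ) (sy N (Nil.sb (lin M) y) η) :=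
  h.sb (lin_hom M) (lin_coeff M)

/-! ### Operations on the data -/

theorem Dat.cen (d : Dat σ) {ξ} (h : d.Frq s ξ) : Cen d.g (d.g.r s) ξ :=
  ⟨⟨d.g.rat s, d.fil.le (Nat.zero_le s), fun _ hX _ hY => d.fil.anti s (d.fil.br0 hX hY)⟩, h.rat,
    fun _ hX _ hY => h.top _ (d.fil.br0 hX hY)⟩

theorem Dat.intF (d : Dat σ) : IntF d.val := d.nice.int.comp (by fun_prop)

theorem Dat.Frq.succ {d : Dat σ} {ξ} (h : d.Frq s ξ) : d.Frq (s + 1) 0 :=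
  ⟨RatF.zero, fun _ _ => rfl, h.eqv.mono le_rfl (d.fil.anti s) fun X hX => (h.top X hX).symm⟩

/-- The constant one. -/
def Dat.one (σ : Type) : Dat σ where
  ι := Unit
  lv _ := 0
  g := Fam.bot _ _ _
  D := 0
  fil := ⟨rfl, fun _ => le_rfl, rfl⟩
  q := 1
  F _ := 1
  nice := nice_const (by simp) ⟨one_mem _, one_mem _, one_ne_zero⟩
  x := 1
  mem := one_mem _

theorem Dat.one_frq : (Dat.one σ).Frq s 0 := ⟨RatF.zero, fun _ _ => rfl, eqv_const _⟩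

/-- The product. -/
def Dat.mul (d d' : Dat σ) : Dat σ where
  ι := d.ι ⊕ d'.ι
  lv := Sum.elim d.lv d'.lv
  g := d.g.prod d'.g
  D := max d.D d'.D
  fil := (d.fil.mono (le_max_left _ _)).prod (d'.fil.mono (le_max_right _ _))
  q := d.q * d'.q
  F z := d.F z.p1 * d'.F z.p2
  nice := (d.nice.lev d'.nice.lvl).tens (d'.nice.lev' d.nice.lvl)
  x := UT.dg (d.x, d'.x)
  mem := by
    rw [Fam.prod_fine]
    exact Fam.dg_mem_prod_PG.2 ⟨d.mem, d'.mem⟩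

theorem Dat.mul_val (d d' : Dat σ) (t : σ → HZ) : (d.mul d').val t = d.val t * d'.val t := by
  change d.F (ev _ (UT.dg (d.x, d'.x))).p1 * d'.F (ev _ (UT.dg (d.x, d'.x))).p2 = _
  rw [ev_dg]
  rfl

theorem Dat.Frq.mul {d d' : Dat σ} {ξ η} (h : d.Frq s ξ) (h' : d'.Frq s η) :
    (d.mul d').Frq s (fsum ξ η) :=
  ⟨h.rat.fsum h'.rat, by
    rintro _ ⟨X, hX, Y, hY, rfl⟩
    exact (fsum_dg ξ η X Y).trans (by rw [h.top X hX, h'.top Y hY, add_zero]),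
    h.eqv.tens h'.eqv d.nice.bd d'.nice.bd⟩

/-- The conjugate. -/
def Dat.cj (d : Dat σ) : Dat σ := { d with F := fun z => Nil.cj (d.F z), nice := d.nice.cj }

theorem Dat.Frq.cj {d : Dat σ} {ξ} (h : d.Frq s ξ) : d.cj.Frq s (-ξ) :=
  ⟨h.rat.neg, fun X hX => neg_eq_zero.2 (h.top X hX), h.eqv.cj⟩

/-- Another sequence. -/
def Dat.seq (d : Dat σ) (y : PS d.lv τ HR) (hy : y ∈ (d.g.fine τ).PG) : Dat τ :=
  { d with x := y, mem := hy }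

theorem Dat.Frq.seq {d : Dat σ} {ξ} (h : d.Frq s ξ) (y : PS d.lv τ HR) (hy) :
    (d.seq y hy).Frq s ξ := ⟨h.rat, h.top, h.eqv⟩

theorem zv_add (t a : σ → HZ) : zv (t + a) = zv t + zv a := funext fun _ => map_add ci _ _

theorem lin_deg (M : σ → τ → ℤ) (l : σ) : (lin M l).totalDegree ≤ 1 :=
  (totalDegree_finsetSum _ _).trans (Finset.sup_le fun _ _ =>
    (totalDegree_mul _ _).trans (by rw [totalDegree_C, totalDegree_X]))

theorem eval_lin (M : σ → τ → ℤ) (t : τ → HZ) :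
    (fun l => eval (zv t) (lin M l)) = zv fun l => ∑ m, (M l m : HZ) * t m := by
  funext l
  simp [lin, zv]

theorem ev_lin (M : σ → τ → ℤ) (t : τ → HZ) (x : PS lv σ HR) :
    ev (zv t) (sb (lin M) x) = ev (zv fun l => ∑ m, (M l m : HZ) * t m) x := by
  rw [ev_sb, eval_lin]

/-! ### Nilsequences -/

theorem Nl.intF (h : Nl k Φ) : IntF Φ := let ⟨d, e, _⟩ := h; e ▸ d.intF
theorem Nl.le (h : Nl k Φ) (t) : nm (Φ t) ≤ 1 := let ⟨d, e, _⟩ := h; e ▸ d.nice.bd _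
theorem Nl.succ (h : Nl k Φ) : Nl (k + 1) Φ := let ⟨d, e, f⟩ := h; ⟨d, e, f.succ⟩
theorem Nl.mono (h : Nl k Φ) (hk : k ≤ j) : Nl j Φ := by
  induction hk with
  | refl => exact h
  | step _ ih => exact ih.succ
theorem Nl.mul (h : Nl k Φ) (h' : Nl k Ψ) : Nl k fun t => Φ t * Ψ t := by
  obtain ⟨d, rfl, f⟩ := h
  obtain ⟨d', rfl, f'⟩ := h'
  refine ⟨d.mul d', funext fun t => (d.mul_val d' t).symm, ?_⟩
  have e : fsum (0 : Matrix d.ι d.ι HR →ₗ[HR] HR) (0 : Matrix d'.ι d'.ι HR →ₗ[HR] HR) = 0 :=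
    LinearMap.ext fun _ => add_zero _
  exact e ▸ f.mul f'
theorem Nl.cj (h : Nl k Φ) : Nl k fun t => cj (Φ t) := by
  obtain ⟨d, rfl, f⟩ := h
  exact ⟨d.cj, rfl, neg_zero (G := Matrix d.ι d.ι HR →ₗ[HR] HR) ▸ f.cj⟩
theorem nl_one : Nl k fun _ : σ → HZ => 1 := ⟨Dat.one σ, rfl, Dat.one_frq⟩
theorem Nl.nsq (h : Nl k Φ) : Nsq (k + 1) Φ (0 : Sy N σ) :=
  let ⟨d, e, f⟩ := h; ⟨d, 0, e, f, Eqd.of_eq (sy_zero _).symm⟩
theorem Nl1.bd {φ : HZ → HC} (h : Nl1 k φ) : Bd φ :=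
  ⟨h.intF.comp (f := fun (n : HZ) (_ : Unit) => n) (by fun_prop), fun n => h.le fun _ => n⟩
theorem Nl.shift (h : Nl k Φ) (a : σ → HZ) : Nl k fun t => Φ (t + a) := by
  obtain ⟨d, rfl, f⟩ := h
  exact ⟨d.seq (sh (zv a) d.x) (sh_mem d.fil d.mem _).1,
    funext fun t => congrArg d.F (by rw [zv_add]; exact (ev_sh _ _ _).symm), f.seq _ _⟩
theorem Nl.lin (h : Nl k Φ) (M : σ → τ → ℤ) :
    Nl k fun t : τ → HZ => Φ fun l => ∑ m, (M l m : HZ) * t m := by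
  obtain ⟨d, rfl, f⟩ := h
  exact ⟨d.seq (sb (GI.lin M) d.x) (sb_mem d.fil d.mem _ (lin_deg M)),
    funext fun t => congrArg d.F (ev_lin M t d.x).symm, f.seq _ _⟩
theorem Nsq.nl (h : Nsq s Φ A) : Nl s Φ := let ⟨d, _, e, f, _⟩ := h; ⟨d, e, f.succ⟩
theorem Nsq.rep (h : Nsq s Φ A) : Rep s A :=
  let ⟨d, _, _, f, e⟩ := h; (rep_sy d.x f.rat).congr e.symm
theorem Nsq.congr (h : Nsq s Φ A) (e : Eqd s A B) : Nsq s Φ B :=
  let ⟨d, ξ, h1, h2, h3⟩ := h; ⟨d, ξ, h1, h2, e.symm.trans h3⟩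
theorem Nsq.mul (h : Nsq s Φ A) (h' : Nsq s Ψ B) : Nsq s (fun t => Φ t * Ψ t) (A + B) := by
  obtain ⟨d, ξ, rfl, f, e⟩ := h
  obtain ⟨d', η, rfl, f', e'⟩ := h'
  exact ⟨d.mul d', fsum ξ η, funext fun t => (d.mul_val d' t).symm, f.mul f',
    (e.add e').trans (Eqd.of_eq (sy_dg d.x d'.x ξ η).symm)⟩
theorem Nsq.cj (h : Nsq s Φ A) : Nsq s (fun t => cj (Φ t)) (-A) := by
  obtain ⟨d, ξ, rfl, f, e⟩ := h
  exact ⟨d.cj, -ξ, rfl, f.cj, e.neg.trans (Eqd.of_eq (sy_neg d.x ξ).symm)⟩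
theorem nsq_one : Nsq s (fun _ : σ → HZ => 1) (0 : Sy N σ) :=
  ⟨Dat.one σ, 0, rfl, Dat.one_frq, Eqd.of_eq (sy_zero _).symm⟩
theorem Nsq.prod {J : Type} (u : Finset J) {Φ : J → (σ → HZ) → HC} {A : J → Sy N σ}
    (h : ∀ i ∈ u, Nsq s (Φ i) (A i)) : Nsq s (fun t => ∏ i ∈ u, Φ i t) (∑ i ∈ u, A i) := by
  classical
  induction u using Finset.induction_on with
  | empty => simpa using nsq_one
  | insert a u ha ih =>
    simp only [prod_insert ha, sum_insert ha]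
    exact (h a (mem_insert_self _ _)).mul (ih fun i hi => h i (mem_insert_of_mem hi))
theorem Nsq.shift (h : Nsq s Φ A) (a : σ → HZ) : Nsq s (fun t => Φ (t + a)) A := by
  obtain ⟨d, ξ, rfl, f, e⟩ := h
  exact ⟨d.seq (sh (zv a) d.x) (sh_mem d.fil d.mem _).1, ξ,
    funext fun t => congrArg d.F (by rw [zv_add]; exact (ev_sh _ _ _).symm), f.seq _ _,
    e.trans (sy_sh d.fil d.mem f.top _).symm⟩
theorem Nsq.lin {x : PS lv σ HR} {ξ} (h : Nsq s Φ (sy N x ξ)) (M : σ → τ → ℤ) :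
    Nsq s (fun t : τ → HZ => Φ fun l => ∑ m, (M l m : HZ) * t m) (sy N (sb (lin M) x) ξ) := by
  obtain ⟨d, η, rfl, f, e⟩ := h
  exact ⟨d.seq (sb (GI.lin M) d.x) (sb_mem d.fil d.mem _ (lin_deg M)), η,
    funext fun t => congrArg d.F (ev_lin M t d.x).symm, f.seq _ _, e.lin M⟩

theorem Nsq1.bd {φ : HZ → HC} {A : Sy N Unit} (h : Nsq1 s φ A) : Bd φ := Nl1.bd h.nl
theorem Nsq1.shift {φ : HZ → HC} {A : Sy N Unit} (h : Nsq1 s φ A) (a : HZ) :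
    Nsq1 s (fun n => φ (n + a)) A := Nsq.shift h fun _ => a
theorem Nl1.shift {φ : HZ → HC} (h : Nl1 k φ) (a : HZ) : Nl1 k fun n => φ (n + a) :=
  Nl.shift h fun _ => a

theorem bd_one : Bd fun _ => 1 := ⟨IntF.const _, fun _ => by simp⟩
theorem Bd.mul {φ ψ : HZ → HC} (h : Bd φ) (h' : Bd ψ) : Bd fun n => φ n * ψ n :=
  ⟨h.1.mul h'.1, fun n => nm_mul_le_one (h.2 n) (h'.2 n)⟩
theorem Bd.cj {φ : HZ → HC} (h : Bd φ) : Bd fun n => cj (φ n) :=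
  ⟨h.1.cj, fun n => by simpa using h.2 n⟩
theorem Bd.shift {φ : HZ → HC} (h : Bd φ) (a : HZ) : Bd fun n => φ (n + a) :=
  ⟨h.1.comp (by fun_prop), fun _ => h.2 _⟩
theorem Nl.intF2 {Θ : (Fin 2 → HZ) → HC} (h : Nl k Θ) :
    IntF fun z : HZ × HZ => Θ ![z.1, z.2] :=
  h.intF.comp (IntF.pi (Fin.forall_fin_two.2 ⟨IntF.id.fst, IntF.id.snd⟩))
theorem Nl.row {Θ : (Fin 2 → HZ) → HC} (h : Nl k Θ) (a : HZ) : Bd fun n => Θ ![a, n] :=
  ⟨h.intF2.comp (f := fun n : HZ => (a, n)) (by fun_prop), fun _ => h.le _⟩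

end nsq

end Pool.Agent.P.MP_a14ce1_nt.GI
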