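import Pool.Agent.P.MP_a14ce1_nt.GI.LowA
import Pool.Agent.P.MP_a14ce1_nt.GI.Nsq
import Pool.Agent.P.MP_a14ce1_nt.Nil.Key
import Pool.Agent.P.MP_a14ce1_nt.Nil.Peel
import Pool.Agent.P.MP_a14ce1_nt.Nil.Cell
import Pool.Agent.P.MP_a14ce1_nt.Nil.Std

/-! Equidistribution, cells and Fourier expansion for symbols. -/

open Filter Finset MvPolynomial
open scoped BigOperators

set_option linter.unusedSectionVars false

noncomputable section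

namespace Pool.Agent.P.MP_a14ce1_nt.GI

open Nil

variable {ι : Type} [Fintype ι] [DecidableEq ι] {lv : ι → ℕ} {σ : Type} [Fintype σ] [DecidableEq σ]
  {N : HZ} [Fact (Inf N)] {s k j D : ℕ}

/-- Removing the constant term of the sequence. -/
theorem Dat.norm (d : Dat σ) (a : σ → HZ) : ∃ (F : UT d.lv HR → HC) (x : PS d.lv σ HR),
    Nice 2 d.q d.g.GG F ∧ x ∈ (d.g.fine σ).plus.PG ∧
    (∀ U ξ, Cen d.g U ξ → Eqv 2 d.g.GG U ξ d.F → Eqv 2 d.g.GG U ξ F) ∧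
    (∀ t, TinyC 2 (d.val (a + t) - F (ev (zv t) x))) ∧
    ∀ s ξ, (∀ X ∈ d.g.r (s + 1), ξ X = 0) → Eqd s (sy N x ξ) (sy N d.x ξ) := by
  obtain ⟨b, hb, c, hc, e, hO, hL⟩ := normaliseQ d.g d.nice.lvl (ev_mem d.fil d.mem (zv a))
  have h1 : sh (zv a) d.x ∈ (d.g.fine σ).PG := (sh_mem d.fil d.mem _).1
  have h2 : (cst σ b)⁻¹ * sh (zv a) d.x * (cst σ c)⁻¹ ∈ (d.g.fine σ).PG :=
    mul_mem (mul_mem (inv_mem (cst_mem hb)) h1) (inv_mem (cst_mem hc))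
  refine ⟨fun w => d.F (b * w), _, d.nice.left hb hO, mem_plus.2 ⟨h2, ?_⟩,
    fun U ξ hU hE => Eqv.left hU hE hb, fun t => ?_, fun s ξ hξ β hβ =>
      cl_norm _ d.fil d.mem (hβ ▸ hξ) _ hb hc⟩
  · simp only [map_mul, map_inv, ev_cst, ev_sh, zero_add, e]; group
  · have e1 : ev (zv (a + t)) d.x
        = b * ev (zv t) ((cst σ b)⁻¹ * sh (zv a) d.x * (cst σ c)⁻¹) * c := by
      have : zv (a + t) = zv t + zv a := funext fun l => (map_add ci _ _).trans (add_comm _ _)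
      simp only [map_mul, map_inv, ev_cst, ev_sh, this]; group
    rw [Dat.val, e1]
    exact d.nice.per c hc hL _ (mul_mem hb (ev_mem d.fil h2 _))

theorem Nsq.key {Φ : (σ → HZ) → HC} {A : Sy N σ} (h : Nsq s Φ A) (_hs : 1 ≤ s) (a M : σ → HZ)
    (hM : ∀ l, 0 < M l ∧ Big 2 (ci (M l) / ci N) ∧ ci (M l) / ci N ∈ OO 2)
    (hb : BigC 2 (Ex (box M) fun t => Φ (a + t))) : Eqd s A 0 := by
  have iΦ := h.nl.intF
  obtain ⟨d, ξ, rfl, hf, hA⟩ := h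
  obtain ⟨F, x, hF, hx, hE, ht, hS⟩ := d.norm (N := N) a
  have iF := hF.int
  obtain ⟨h, hle, hh, -, h0, hfac⟩ := Nil.key d.fil (d.cen hf) hF (hE _ _ (d.cen hf) hf.eqv)
    ((long_N (N := N) Unit).of_big (fun l => (hM l).1) fun l => ⟨(), (hM l).2.1⟩) hx
    (hb.of_sub (tinyC_Ex (by fun_prop) (by fun_prop) fun t _ => ht t))
  rw [Sm_congr (N := zv M) (M := zv fun _ : σ => N) fun l => (hM l).2] at hfac
  refine hA.trans ((hS s ξ hf.top).symm.trans fun β hβ => cl_zero_of_fac _ hfac fun X hX => ?_)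
  rw [Fam.fine_r, hβ] at hX
  exact h0 X ⟨hle s hX, hh.le (Nat.zero_le s) hX⟩

theorem Cr.cor {φ : HZ → HC} (h : Cr N φ) : Cor N j φ :=
  ⟨fun _ => 1, nl_one, h.of_eq fun _ => (mul_one _).symm⟩

/-- Expansion along the top degree. -/
theorem spl (d : Dat Unit) {U ξ₀} (hc : Cen d.g U ξ₀) (h1 : d.g.r (k + 1) ≤ U) (h2 : U ≤ d.g.r k)
    (h3 : ∀ X ∈ d.g.r (k + 1), ξ₀ X = 0) (he : Eqv 2 d.g.GG U ξ₀ d.F) {φ : HZ → HC} (hφ : Bd φ)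
    (h : Cr N fun n => φ n * d.val fun _ => n) :
    ∃ ξ, RatF K2 ξ ∧ (∀ X ∈ U, ξ X = ξ₀ X) ∧ ∃ Φ, Nsq1 k Φ (sy N d.x ξ) ∧
      Cr N fun n => φ n * Φ n := by
  obtain ⟨ξ, F, hc', hξ, hF, hE, hb⟩ := fourG1 hc (d.g.rat k) (d.fil.le (Nat.zero_le k))
    (fun X hX W hW => ⟨h1 (d.fil.br0 hX hW), h3 _ (d.fil.br0 hX hW)⟩) d.nice he
    (w := fun t : Unit → HZ => φ (t ())) (intF_unit hφ.1)
    (x := fun t : Unit → HZ => ev (zv t) d.x) (by fun_prop)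
    (fun t _ => ⟨hφ.2 _, ev_mem d.fil d.mem _⟩) h
  rw [sup_eq_right.2 h2] at hE
  exact ⟨ξ, hc'.rat, hξ, fun n => F (ev (zv fun _ => n) d.x), ⟨{ d with F := F, nice := hF }, ξ,
    rfl, ⟨hc'.rat, fun X hX => (hξ X (h1 hX)).trans (h3 X hX), hE⟩, Eqd.refl _⟩, hb⟩

theorem lower {Φ φ : HZ → HC} {A : Sy N Unit} (h : Nsq1 (j + 1) Φ A) (h0 : Eqd (j + 1) A 0)
    (hφ : Bd φ) (hc : Cr N fun n => φ n * Φ n) : ∃ P, Cor N j fun n => φ n * cel N P n := by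
  have iΦ := (Nl1.bd h.nl).1
  have iφ := hφ.1
  obtain ⟨d, ξ, hv, hf, hA⟩ := h
  obtain ⟨F, x, hF, hx, hE, ht, hS⟩ := d.norm (N := N) 0
  have iF := hF.int
  obtain ⟨h, hle, hh, hk, e, he, y, hy, c, hc', rfl⟩ := exists_nested _ d.fil hx hf.top
    ((hS _ ξ hf.top).trans (hA.symm.trans h0))
  have pl := fun g : Fam K2 d.lv ℕ => Fam.PG_mono (g.fine Unit).plus_le
  obtain ⟨P, q', F', h1, h2, h3⟩ := cell1 d.fil hF ⟨pl _ he.1, he.2⟩ (pl _ hy.1) ⟨pl _ hc'.1, hc'.2⟩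
    hφ (hc.congr (by fun_prop) (by fun_prop) fun n _ _ => by
      rw [← mul_sub, show Φ n = d.val (0 + fun _ => n) by
        rw [zero_add]; exact congrFun hv fun _ => n]
      exact (ht _).mul' (nm_OO (hφ.2 _)))
  exact ⟨P, fun n => F' (ev (zv fun _ => n) y), ⟨⟨d.ι, d.lv, h, d.D, hh, q', F',
    h1.mono (Fam.GG_mono hle), y, pl _ hy.2⟩, rfl, ⟨fun _ _ => zero_mem _, fun _ _ => rfl,
      (h2 _ _ (d.cen hf) (hE _ _ (d.cen hf) hf.eqv)).mono (Fam.GG_mono hle) (hle _)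
        fun X hX => (hk X hX).symm⟩⟩, h3⟩

theorem swap {Φ φ : HZ → HC} {A : Sy N Unit} (h : Nsq1 (j + 1) Φ A) {a : Fin D → HZ → HC}
    (ha : ∀ l, Nsq1 (j + 1) (a l) A) (hu : Unt a) (hφ : Bd φ) (hc : Cor N j fun n => φ n * Φ n) :
    ∃ l P, Cor N j fun n => φ n * a l n * cel N P n := by
  obtain ⟨ψ, hψ, hc⟩ := hc
  have b1 := Nl1.bd h.nl
  have b2 := fun l => Nl1.bd (ha l).nl
  have b3 := Nl1.bd hψ
  obtain ⟨l, hl⟩ := Cr.unt ((hφ.mul b1).mul b3).1 hc (fun l => (b2 l).1) hu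
  obtain ⟨P, ψ', h1, h2⟩ := lower (Φ := fun n => Φ n * cj (a l n)) (Nsq.mul h (ha l).cj)
    (by rw [add_neg_cancel]; exact Eqd.refl _) ((hφ.mul b3).mul (b2 l))
    (hl.of_eq fun n => by ring)
  exact ⟨l, P, fun n => ψ n * ψ' n, Nl.mul hψ h1, h2.of_eq fun n => by ring⟩

end Pool.Agent.P.MP_a14ce1_nt.GI
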