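import Pool.Agent.P.MP_a14ce1_nt.GI.Def0
import Pool.Agent.P.MP_a14ce1_nt.Nil.Cell
import Pool.Agent.P.MP_a14ce1_nt.Nil.NiceL
import Pool.Agent.P.MP_a14ce1_nt.Nil.Std

/-! Correlations on `[0, N)` and cells. -/

open Filter Finset MvPolynomial
open scoped BigOperators

set_option linter.unusedSectionVars false

noncomputable section

namespace Pool.Agent.P.MP_a14ce1_nt.GI

open Nil

variable {ι : Type} [Fintype ι] [DecidableEq ι] {lv : ι → ℕ} {N : HZ} [Fact (Inf N)] {D : ℕ}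

theorem exists_enum (ι : Type) [Fintype ι] [DecidableEq ι] :
    ∃ e : ℕ → Matrix ι ι HR →ₗ[HR] HR, (∀ i, RatF K2 (e i)) ∧ ∀ ξ, RatF K2 ξ → ∃ i, e i = ξ := by
  obtain ⟨f, hf⟩ := exists_surjective_nat (ι → ι → ℚ)
  refine ⟨fun i => fn (Matrix.of fun a b => (f i a b : HR)),
    fun i => ratF_fn.2 fun a b => mem_KK_two.2 ⟨_, rfl⟩, fun ξ hξ => ?_⟩
  obtain ⟨κ, rfl⟩ := exists_fn ξ
  choose r hr using fun a b => mem_KK_two.1 (ratF_fn.1 hξ a b)
  obtain ⟨i, hi⟩ := hf r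
  exact ⟨i, congrArg fn (Matrix.ext fun a b => by rw [hi]; exact (hr a b).symm)⟩

theorem cel_bd (P : CI) : Bd (cel N P) := by
  classical
  refine ⟨IntF.ite ((IntP.dvd (IntF.const _) (by fun_prop)).and
    ((IntP.le (IntF.const _) (by fun_prop)).and (IntP.lt (by fun_prop) (IntF.const _))))
    (IntF.const _) (IntF.const _), fun n => ?_⟩
  unfold cel
  split_ifs <;> simp

theorem intF_unit {φ : HZ → HC} (hφ : IntF φ) : IntF fun t : Unit → HZ => φ (t ()) := by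
  fun_prop

theorem Cr.congr {φ ψ : HZ → HC} (h : Cr N φ) (hφ : IntF φ) (hψ : IntF ψ)
    (e : ∀ n, 0 ≤ n → n < N → TinyC 2 (φ n - ψ n)) : Cr N ψ :=
  BigC.of_sub h (tinyC_Ex (intF_unit hφ) (intF_unit hψ) fun _ ht =>
    e _ (mem_box.1 ht ()).1 (mem_box.1 ht ()).2)

theorem Cr.cj {φ : HZ → HC} (h : Cr N φ) (hφ : IntF φ) : Cr N fun n => cj (φ n) := by
  unfold Cr
  rw [← cj_Ex (intF_unit hφ)]
  exact bigC_cj.2 h

theorem Cr.sum {J : Type} {u : Finset J} {φ : J → HZ → HC} (hφ : ∀ i, IntF (φ i))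
    (h : Cr N fun n => ∑ i ∈ u, φ i n) : ∃ i ∈ u, Cr N (φ i) := by
  unfold Cr at h
  rw [Ex_sum u fun i => intF_unit (hφ i)] at h
  exact h.of_sum

theorem Cr.unt {φ : HZ → HC} (hφ : IntF φ) (h : Cr N φ) {a : Fin D → HZ → HC}
    (ha : ∀ l, IntF (a l)) (hu : Unt a) :
    ∃ l, Cr N fun n => φ n * a l n * Nil.cj (a l n) := by
  have e : φ = fun n => ∑ l, φ n * a l n * Nil.cj (a l n) := funext fun n => by
    simp only [mul_assoc, ← mul_sum, hu n, mul_one]
  obtain ⟨l, -, hl⟩ := Cr.sum (φ := fun l n => φ n * a l n * Nil.cj (a l n))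
    (fun l => (hφ.mul (ha l)).mul (ha l).cj) (e ▸ h)
  exact ⟨l, hl⟩

theorem Cr.of_eq {φ ψ : HZ → HC} (h : Cr N φ) (e : ∀ n, φ n = ψ n) : Cr N ψ :=
  (funext e : φ = ψ) ▸ h

theorem long_N (σ : Type) : Long 2 fun _ : σ => N := fun _ => (Fact.out : Inf N)

namespace LowP

theorem std_nat {z : HZ} (h0 : 0 < z) (h : ci z ∈ OO 2) : ∃ k : ℕ, 0 < k ∧ z = k := by
  obtain ⟨C, hC⟩ := h
  have h1 : z < ((2 ^ C + 1 : ℕ) : HZ) := by
    rw [← ci_lt, map_natCast]
    push_cast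
    linarith [le_abs_self (ci z)]
  induction z using st_ind with | _ z
  obtain ⟨k, -, hk⟩ := (Ultrafilter.eventually_exists_mem_iff (f := hyperfilter ℕ)
    (P := fun (k : ℕ) n => z n = k) (finite_toSet (range (2 ^ C + 1)))).1
    (((st_lt.1 h0).and (st_lt.1 h1)).mono fun n hn => ⟨(z n).toNat, by
      have a : 0 < z n := hn.1
      have b : z n < ((2 ^ C + 1 : ℕ) : ℤ) := hn.2
      rw [mem_coe, mem_range]; omega, (Int.toNat_of_nonneg hn.1.le).symm⟩)
  have e : (st z : HZ) = k := st_congr (y := fun _ => (k : ℤ)) hk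
  exact ⟨k, by rw [e] at h0; exact_mod_cast h0, e⟩

theorem exists_res {q : ℕ} (hq : 0 < q) (n : HZ) : ∃ r ∈ range q, (q : HZ) ∣ n - r := by
  induction n using st_ind with | _ x
  have hq' : (0 : ℤ) < q := by exact_mod_cast hq
  obtain ⟨r, hr, hk⟩ := (Ultrafilter.eventually_exists_mem_iff (f := hyperfilter ℕ)
    (P := fun (r : ℕ) n => x n - r = q * (x n / q)) (finite_toSet (range q))).1
    (Eventually.of_forall fun n => ⟨(x n % q).toNat, by
      have := Int.emod_lt_of_pos (x n) hq'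
      have := Int.emod_nonneg (x n) hq'.ne'
      rw [mem_coe, mem_range]; omega, by
      rw [Int.toNat_of_nonneg (Int.emod_nonneg _ hq'.ne')]
      linarith [Int.mul_ediv_add_emod (x n) q]⟩)
  exact ⟨r, hr, st fun n => x n / q, st_congr (A := HZ) hk⟩

theorem res_unique {q r r' : ℕ} (hr : r ∈ range q) (hr' : r' ∈ range q) {n : HZ}
    (h : (q : HZ) ∣ n - r) (h' : (q : HZ) ∣ n - r') : r = r' := by
  obtain ⟨c, hc⟩ := dvd_sub h h'
  induction c using st_ind with | _ c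
  have e : (st fun _ => (r' : ℤ) - r : HZ) = st fun n => q * c n := by
    change ((r' : HZ) - r) = q * st c
    rw [← hc]; ring
  obtain ⟨n, hn⟩ := ((NS.eq_iff _ _).1 e).exists
  have h1 : (r : ℤ) ≡ r' [ZMOD q] := Int.modEq_iff_dvd.2 ⟨_, hn⟩
  exact (Int.natCast_modEq_iff.1 h1).eq_of_lt_of_lt (mem_range.1 hr) (mem_range.1 hr')

theorem exists_int {m : ℕ} {t : HR} (h0 : 0 ≤ t) (h1 : t < m) :
    ∃ i ∈ range m, (i : HR) ≤ t ∧ t < i + 1 := by
  induction m with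
  | zero => exact absurd (h0.trans_lt h1) (by simp)
  | succ m ih =>
    rcases lt_or_ge t m with h | h
    · obtain ⟨i, hi, h2⟩ := ih h
      exact ⟨i, mem_range.2 ((mem_range.1 hi).trans m.lt_succ_self), h2⟩
    · exact ⟨m, self_mem_range_succ m, h, by exact_mod_cast h1⟩

/-- The cells of a partition of `[0, N)`. -/
def pc (q m : ℕ) (p : ℕ × ℕ) : CI := (q, p.1, (p.2 : ℚ) / m, ((p.2 : ℚ) + 1) / m)

/-- Membership in a cell. -/
def In (N : HZ) (q m : ℕ) (p : ℕ × ℕ) (n : HZ) : Prop :=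
  (q : HZ) ∣ n - p.1 ∧ (p.2 : HR) ≤ ci n * m / ci N ∧ ci n * m / ci N < p.2 + 1

open Classical in
theorem cel_pc {q m : ℕ} (hm : 0 < m) (p : ℕ × ℕ) (n : HZ) :
    cel N (pc q m p) n = if In N q m p n then 1 else 0 := by
  have h1 : (0 : HR) < ci N := ci_pos.2 (Fact.out : Inf N).1
  have h2 : (0 : HR) < m := by exact_mod_cast hm
  unfold cel pc In
  congr 1
  simp only [Int.cast_natCast, Rat.cast_div, Rat.cast_natCast, Rat.cast_add, Rat.cast_one]
  rw [le_div_iff₀ h1, div_lt_iff₀ h1, div_mul_eq_mul_div, div_mul_eq_mul_div, div_le_iff₀ h2,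
    lt_div_iff₀ h2]

theorem exists_cell {q m : ℕ} (hq : 0 < q) (hm : 0 < m) {n : HZ} (h0 : 0 ≤ n) (h1 : n < N) :
    ∃ p ∈ range q ×ˢ range m, In N q m p n ∧
      ∀ p' ∈ range q ×ˢ range m, In N q m p' n → p' = p := by
  have hN : (0 : HR) < ci N := ci_pos.2 (Fact.out : Inf N).1
  have h2 : (0 : HR) < m := by exact_mod_cast hm
  obtain ⟨r, hr, h3⟩ := exists_res hq n
  obtain ⟨i, hi, h4, h5⟩ := exists_int (m := m) (t := ci n * m / ci N)
    (div_nonneg (mul_nonneg (ci_nonneg.2 h0) h2.le) hN.le)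
    (by rw [div_lt_iff₀ hN, mul_comm]; exact mul_lt_mul_of_pos_left (ci_lt.2 h1) h2)
  refine ⟨(r, i), mem_product.2 ⟨hr, hi⟩, ⟨h3, h4, h5⟩, fun p' hp' ⟨a, b, c⟩ => Prod.ext
    (res_unique (mem_product.1 hp').1 hr a h3) ?_⟩
  have d1 : p'.2 < i + 1 := by exact_mod_cast b.trans_lt h5
  have d2 : i < p'.2 + 1 := by exact_mod_cast h4.trans_lt c
  change p'.2 = i
  omega

theorem exists_base {q m : ℕ} (hq : 0 < q) (hm : 0 < m) {M : HZ} (hM : ci N ≤ m * ci M)
    (p : ℕ × ℕ) : ∃ n0 : HZ, (0 ≤ n0 ∧ n0 < N) ∧ ∀ n, n < N → In N q m p n →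
      ∃ t : HZ, (0 ≤ t ∧ t < M) ∧ n = n0 + q * t := by
  have hN0 := (Fact.out : Inf N).1
  have hN : (0 : HR) < ci N := ci_pos.2 hN0
  have h2 : (0 : HR) < m := by exact_mod_cast hm
  have hq' : (0 : HZ) < q := by exact_mod_cast hq
  obtain ⟨s, hs, h3⟩ := exists_res hq (p.1 - cei (p.2 * ci N / m))
  have hs' : (s : HZ) < q := by exact_mod_cast mem_range.1 hs
  have b0 := le_ci_cei (p.2 * ci N / m)
  have key : ∀ n, In N q m p n →
      ∃ t : HZ, (0 ≤ t ∧ t < M) ∧ n = cei (p.2 * ci N / m) + s + q * t := fun n ⟨a, b, c⟩ => by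
    obtain ⟨t, ht⟩ := dvd_add a h3
    rw [le_div_iff₀ hN, ← div_le_iff₀ h2] at b
    rw [div_lt_iff₀ hN, ← lt_div_iff₀ h2] at c
    have b1 : cei (p.2 * ci N / m) ≤ n := cei_le.2 b
    have t0 : 0 ≤ t := by
      by_contra hc
      have : t + 1 ≤ 0 := HZ_add_one_le.2 (not_le.1 hc)
      nlinarith
    refine ⟨t, ⟨t0, ?_⟩, by rw [← ht]; ring⟩
    have e : ci n = ci (cei (p.2 * ci N / m)) + s + q * ci t := by
      rw [← map_natCast ci s, ← map_natCast ci q, ← map_mul, ← map_add, ← map_add, ← ht]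
      congr 1; ring
    have h4 : (1 : HR) ≤ q := by exact_mod_cast hq
    have h5 : (0 : HR) ≤ s := Nat.cast_nonneg s
    have h6 := ci_nonneg.2 t0
    have h7 : ci N / m ≤ ci M := by rw [div_le_iff₀ h2, mul_comm]; exact hM
    rw [add_mul, add_div, one_mul] at c
    rw [← ci_lt]
    nlinarith
  by_cases h : ∃ n, n < N ∧ In N q m p n
  · obtain ⟨n, h1, h4⟩ := h
    obtain ⟨t, ⟨t0, -⟩, e⟩ := key n h4
    have b2 : 0 ≤ cei (p.2 * ci N / m) := ci_nonneg.1 (le_trans (by positivity) b0)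
    refine ⟨cei (p.2 * ci N / m) + s, ⟨add_nonneg b2 (Nat.cast_nonneg s), ?_⟩, fun n _ => key n⟩
    have := mul_nonneg hq'.le t0
    linarith
  · exact ⟨0, ⟨le_rfl, hN0⟩, fun n h1 h4 => (h ⟨n, h1, h4⟩).elim⟩

end LowP

open LowP in
/-- Small and rational factors are constant on cells. -/
theorem cell1 {g : Fam K2 lv ℕ} (hg : g.Fil D) {q F} (hF : Nice 2 q g.GG F) {e y c : PS lv Unit HR}
    (he : e ∈ (g.fine Unit).PG ⊓ (SN N Unit).EE lv) (hy : y ∈ (g.fine Unit).PG)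
    (hc : c ∈ (g.fine Unit).PG ⊓ (TN Unit).EE lv) {φ : HZ → HC} (hφ : Bd φ)
    (h : Cr N fun n => φ n * F (ev (zv fun _ => n) (e * y * c))) :
    ∃ P q' F', Nice 2 q' g.GG F' ∧ (∀ U ξ, Cen g U ξ → Eqv 2 g.GG U ξ F → Eqv 2 g.GG U ξ F') ∧
      Cr N fun n => φ n * cel N P n * F' (ev (zv fun _ => n) y) := by
  classical
  have hN : (0 : HR) < ci N := ci_pos.2 (Fact.out : Inf N).1
  have iF := hF.int
  have iφ := hφ.1
  obtain ⟨r, hr⟩ := exists_denS hc.2
  obtain ⟨q', M, q1, q2, hM, hS, -, hcl⟩ := cell (A := HZ) hg (long_N (N := N) Unit)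
    (IntP.const True) (Φ := fun _ => F) (by fun_prop) (IntS.const e) (IntS.const y) (IntS.const c)
    (fun _ _ => ⟨hF, he, hy, hc.1, hr⟩) (Big.half h)
  obtain ⟨q0, hq, rfl⟩ := std_nat q1 q2
  have hM0 : (0 : HR) < ci (M ()) := ci_pos.2 (hM.pos ())
  obtain ⟨C, hC⟩ : ci N / ci (M ()) ∈ OO 2 := by
    have : (ci (M ()))⁻¹ ∈ (Sm 2 (zv M)).s (Finsupp.single () 1) := by
      change _ * (Finsupp.single () 1).prod (fun l k => zv M l ^ k) ∈ OO 2
      rw [Finsupp.prod_single_index (h := fun l k => zv M l ^ k) (pow_zero _), pow_one]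
      change _ * ci (M ()) ∈ OO 2
      rw [inv_mul_cancel₀ hM0.ne']; exact one_mem _
    rw [hS] at this
    change _ * (Finsupp.single () 1).prod (fun l k => zv (fun _ : Unit => N) l ^ k) ∈ OO 2 at this
    rwa [Finsupp.prod_single_index (h := fun l k => zv (fun _ : Unit => N) l ^ k) (pow_zero _),
      pow_one, mul_comm, ← div_eq_mul_inv] at this
  have hm : 0 < 2 ^ C := by positivity
  have hNM : ci N ≤ (2 ^ C : ℕ) * ci (M ()) := by
    rw [← div_le_iff₀ hM0]; push_cast; exact (le_abs_self _).trans hC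
  choose n0 hn0 hb using exists_base hq hm hNM
  have hmem : ∀ p, Mem (fun _ : Unit => n0 p) (box fun _ : Unit => N) :=
    fun p => mem_box.2 fun _ => hn0 p
  have ic := fun P => (cel_bd (N := N) P).1
  have iG : ∀ p, IntF fun n : HZ => φ n * cel N (pc q0 (2 ^ C) p) n
      * F (ev (zv fun _ => n0 p) e * ev (zv fun _ => n) y * ev (zv fun _ => n0 p) c) := fun p => by
    have := ic (pc q0 (2 ^ C) p)
    fun_prop
  have h1 : Cr N fun n => ∑ p ∈ range q0 ×ˢ range (2 ^ C), φ n * cel N (pc q0 (2 ^ C) p) n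
      * F (ev (zv fun _ => n0 p) e * ev (zv fun _ => n) y * ev (zv fun _ => n0 p) c) := by
    have i1 : IntF fun n : HZ => φ n * F (ev (zv fun _ => n) (e * y * c)) := by fun_prop
    have i2 := intF_unit (IntF.sum (s := range q0 ×ˢ range (2 ^ C)) iG)
    have h2 := nm_Ex_le (T := box fun _ : Unit => N) ((intF_unit i1).sub i2) (abs_nonneg _)
      fun t ht => by
        obtain ⟨p, hp, h3, h4⟩ := exists_cell hq hm (mem_box.1 ht ()).1 (mem_box.1 ht ()).2
        obtain ⟨u, hu, h5⟩ := hb p _ (mem_box.1 ht ()).2 h3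
        have h6 := hcl 0 trivial _ (fun _ => u) (hmem p) (mem_box.2 fun _ => hu)
        have h7 : ((fun _ => n0 p) + (q0 : HZ) • fun _ : Unit => u) = fun _ => t () :=
          funext fun _ => h5.symm
        rw [h7] at h6
        rw [sum_eq_single_of_mem p hp fun p' hp' hne => by
          rw [cel_pc hm, if_neg fun a => hne (h4 p' hp' a), mul_zero, zero_mul],
          cel_pc hm, if_pos h3, mul_one, ← mul_sub, nm_mul]
        exact (mul_le_of_le_one_left (nm_nonneg _) (hφ.2 _)).trans h6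
    rw [Ex_sub (intF_unit i1) i2, abs_of_nonneg (div_nonneg (nm_nonneg _) two_pos.le)] at h2
    refine BigC.of_le (Big.half h) ?_
    rw [abs_of_nonneg (div_nonneg (nm_nonneg _) two_pos.le)]
    have h3 := (nm_le_add_sub _ _).trans (add_le_add_right h2 _)
    linarith
  obtain ⟨p, -, hp⟩ := Cr.sum iG h1
  have a1 := ev_mem hg he.1 (zv fun _ => n0 p)
  have a2 := ev_mem hg hc.1 (zv fun _ => n0 p)
  refine ⟨pc q0 (2 ^ C) p, _, fun w => F (ev (zv fun _ => n0 p) e * w * ev (zv fun _ => n0 p) c),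
    (hF.right a2 hr.1 (hr.ev _).1 (hr.ev _).2).left a1 (ev_OO he.2 fun _ => ⟨hN.ne', ?_⟩),
    fun U ξ hU hE => Eqv.left hU (hE.right a2) a1, hp⟩
  refine OO_of_le_one ?_
  change |ci (n0 p) / ci N| ≤ 1
  rw [abs_of_nonneg (div_nonneg (ci_nonneg.2 (hn0 p).1) hN.le), div_le_one hN]
  exact ci_le.2 (hn0 p).2.le

end Pool.Agent.P.MP_a14ce1_nt.GI
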