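import Pool.Agent.P.MP_a14ce1_nt.GI.Low
import Pool.Agent.P.MP_a14ce1_nt.GI.BU0
import Pool.Agent.P.MP_a14ce1_nt.Nil.Gowers4

/-! The symmetry argument: the analytic part. -/

open Filter Finset MvPolynomial ComplexConjugate
open scoped BigOperators

set_option linter.unusedSectionVars false

noncomputable section

namespace Pool.Agent.P.MP_a14ce1_nt.GI

open Nil

variable {j : ℕ}

/-- The coordinates `z, u, u', v, v', n, b` of the box. -/
abbrev iz (j : ℕ) : Fin (j + 1 + 1 + 1 + 1 + 1 + 1) := 0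
abbrev iu (j : ℕ) : Fin (j + 1 + 1 + 1 + 1 + 1 + 1) := .succ 0
abbrev iu' (j : ℕ) : Fin (j + 1 + 1 + 1 + 1 + 1 + 1) := .succ (.succ 0)
abbrev iv (j : ℕ) : Fin (j + 1 + 1 + 1 + 1 + 1 + 1) := .succ (.succ (.succ 0))
abbrev iv' (j : ℕ) : Fin (j + 1 + 1 + 1 + 1 + 1 + 1) := .succ (.succ (.succ (.succ 0)))
abbrev iN (j : ℕ) : Fin (j + 1 + 1 + 1 + 1 + 1 + 1) := .succ (.succ (.succ (.succ (.succ 0))))
abbrev ib (r : Fin j) : Fin (j + 1 + 1 + 1 + 1 + 1 + 1) := r.succ.succ.succ.succ.succ.succ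

def sK (θ : ℤ → ℤ → ℂ) (t : Fin (j + 1 + 1 + 1 + 1 + 1 + 1) → ℤ)
    (p q : Fin (j + 1 + 1 + 1 + 1 + 1 + 1)) : ℂ :=
  symK (symW θ) (t (iN j), fun r => t (ib r)) (t (iz j)) (t p) (t q)

/-- The product over all vertices. -/
def tot (θ : ℤ → ℤ → ℂ) (t : Fin (j + 1 + 1 + 1 + 1 + 1 + 1) → ℤ) : ℂ :=
  sK θ t (iu j) (iv j) * conj (sK θ t (iu' j) (iv j)) * conj (sK θ t (iu j) (iv' j)) *
    sK θ t (iu' j) (iv' j)

theorem sym_fin (j : ℕ) {H : ℤ} (hH : 0 < H) {f1 f2 : ℤ → ℂ} (θ : ℤ → ℤ → ℂ)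
    (h1 : ∀ x, ‖f1 x‖ ≤ 1) (h2 : ∀ x, ‖f2 x‖ ≤ 1) (s1 : ∀ x, f1 x ≠ 0 → 0 ≤ x ∧ x < H)
    (s2 : ∀ x, f2 x ≠ 0 → 0 ≤ x ∧ x < H) {δ : ℝ} (hδ : 0 < δ) {T : Finset ℤ}
    (h : δ * (H : ℝ) ^ (j + 3) ≤ ∑ h ∈ T, U j fun n => f1 (n + h) * f2 n * θ h n) :
    δ ^ 8 / 4 ^ (8 * j + 24) ≤ ‖𝔼 x ∈ Fintype.piFinset fun _ => Ico 0 (4 * H),
      tot (j := j) θ fun l => -(2 * H) + x l‖ := by
  have k := sym_U j θ T (I := Ico (-(2 * H)) (2 * H)) h1 h2
    (fun x hx => by have := s1 x hx; rw [mem_Ico]; omega)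
    (fun x hx => by have := s2 x hx; rw [mem_Ico]; omega)
    (fun x y hx hy => by have := s1 x hx; have := s1 y hy; rw [mem_Ico]; omega)
    (fun x y hx hy => by have := s1 x hx; have := s1 y hy; rw [mem_Ico]; omega)
    (fun x y hx hy => by have := s2 x hx; have := s2 y hy; rw [mem_Ico]; omega)
  have c : ∀ a : ℤ, ((Ico a (a + 4 * H)).card : ℝ) = 4 * H := fun a => by
    rw [Int.card_Ico, add_sub_cancel_left, ← Int.cast_natCast, Int.toNat_of_nonneg (by omega)]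
    push_cast; rfl
  have c1 := c (-(2 * H))
  have c2 := c 0
  rw [show -(2 * H) + 4 * H = 2 * H by ring] at c1
  rw [zero_add] at c2
  have e : ∑ x ∈ Fintype.piFinset fun _ => Ico 0 (4 * H), tot (j := j) θ (fun l => -(2 * H) + x l) =
      ∑ x ∈ Fintype.piFinset fun _ => Ico (-(2 * H)) (2 * H), tot (j := j) θ x :=
    sum_nbij' (fun x l => -(2 * H) + x l) (fun x l => 2 * H + x l)
      (fun x hx => Fintype.mem_piFinset.2 fun l => by
        have := mem_Ico.1 (Fintype.mem_piFinset.1 hx l); rw [mem_Ico]; omega)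
      (fun x hx => Fintype.mem_piFinset.2 fun l => by
        have := mem_Ico.1 (Fintype.mem_piFinset.1 hx l); rw [mem_Ico]; omega)
      (fun x _ => funext fun l => by ring) (fun x _ => funext fun l => by ring) fun _ _ => rfl
  have h0 : (0 : ℝ) < H := by exact_mod_cast hH
  rw [expect_eq_sum_div_card, norm_div, Complex.norm_natCast, Fintype.card_piFinset_const,
    Nat.cast_pow, c2, e, div_le_div_iff₀ (by positivity) (by positivity)]
  rw [c1] at k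
  generalize Ico (-(2 * H)) (2 * H) = I at *
  have e' : ∑ x ∈ Fintype.piFinset fun _ => I, tot (j := j) θ x =
      ∑ ξ ∈ I ×ˢ Fintype.piFinset fun _ : Fin j => I, ∑ z ∈ I, ∑ u ∈ I, ∑ u' ∈ I, ∑ v ∈ I,
        ∑ v' ∈ I, symK (symW θ) ξ z u v * conj (symK (symW θ) ξ z u' v) *
          conj (symK (symW θ) ξ z u v') * symK (symW θ) ξ z u' v' := by
    iterate 5
      rw [sum_pi_succ, sum_comm (s := I ×ˢ _)]
      refine sum_congr rfl fun _ _ => ?_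
    rw [sum_pi_succ, sum_product]
    rfl
  rw [e']
  refine le_of_mul_le_mul_left ?_ (pow_pos h0 (7 * j + 18))
  have k' := (pow_le_pow_left₀ (by positivity) h 8).trans k
  calc _ = (δ * (H : ℝ) ^ (j + 3)) ^ 8 * 4 ^ (j + 6) := by ring
    _ ≤ _ := mul_le_mul_of_nonneg_right k' (by positivity)
    _ = _ := by ring

theorem fd1 (c d : ℤ) (j : ℕ) (a : ℤ) : (fwdDiff 1)^[j]
    (fun y : ℤ => c * (0 + d) * (y + a) ^ j - c * 0 * y ^ j) 0 = c * d * j.factorial := by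
  have := congrFun (fwdDiff_iter_const_smul (1 : ℤ) (c * d) (fun y : ℤ => (y + a) ^ j) j) 0
  rw [Pi.smul_apply, fwdDiff_iter_comp_add 1 (fun y : ℤ => y ^ j), fwdDiff_iter_eq_factorial] at this
  simpa [Pi.smul_def] using this

theorem fd2 (j : ℕ) : (fwdDiff 1)^[j] (fun y : ℤ => (y + 1) ^ (j + 1) - y ^ (j + 1)) 0 =
    (j + 1).factorial :=
  congrFun (fwdDiff_iter_eq_factorial (R := ℤ) (n := j + 1)) 0

theorem fd0 (j : ℕ) : (fwdDiff (1 : ℤ))^[j] (fun _ : ℤ => (0 : ℤ)) 0 = 0 :=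
  congrFun (Function.iterate_fixed (fwdDiff_const (1 : ℤ) (0 : ℤ)) j) 0

section tr

variable {σ : Type} [Fintype σ] [DecidableEq σ] {N : HZ} [hN : Fact (Inf N)] {s : ℕ}
  {β : Fin 2 →₀ ℕ}

/-- Linear forms. -/
def Fm (f : (σ → ℤ) → ℤ) : Prop := ∃ L : σ → ℤ, ∀ t, f t = ∑ m, L m * t m

theorem fm_co (l : σ) : Fm fun t : σ → ℤ => t l := ⟨Pi.single l 1, fun t => by
  simp [Pi.single_apply]⟩
theorem Fm.add {f g : (σ → ℤ) → ℤ} : Fm f → Fm g → Fm fun t => f t + g t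
  | ⟨L, h⟩, ⟨L', h'⟩ => ⟨L + L', fun t => by simp [h, h', add_mul, sum_add_distrib]⟩
theorem Fm.sub {f g : (σ → ℤ) → ℤ} : Fm f → Fm g → Fm fun t => f t - g t
  | ⟨L, h⟩, ⟨L', h'⟩ => ⟨L - L', fun t => by simp [h, h', sub_mul, sum_sub_distrib]⟩

/-- Nilsequences in many variables and the class of the pull-back of the symbol to the plane
spanned by `c 0, c 1`. -/
def Tr (s : ℕ) (c : Fin 2 → σ → ℤ) (P Q : Cls (sepN N (Fin 2)) β) (φ : ℕ → (σ → ℤ) → ℂ)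
    (p q : ℤ) : Prop :=
  ∃ (ι : Type) (_ : Fintype ι) (_ : DecidableEq ι) (lv : ι → ℕ) (x : PS lv σ HR)
    (ξ : Matrix ι ι HR →ₗ[HR] HR) (Φ : (σ → HZ) → HC), Nsq s Φ (sy N x ξ) ∧
      (∀ t : ℕ → σ → ℤ, Φ (st t) = st fun i => φ i (t i)) ∧
      sy N (sb (lin fun m r => c r m) x) ξ β = (p : HR) • P + (q : HR) • Q

variable {c : Fin 2 → σ → ℤ} {P Q : Cls (sepN N (Fin 2)) β} {φ ψ : ℕ → (σ → ℤ) → ℂ}
  {p q p' q' : ℤ}

theorem Tr.congr (h : Tr s c P Q φ p q) (e : p = p') (e' : q = q') : Tr s c P Q φ p' q' :=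
  e ▸ e' ▸ h

theorem Tr.mul : Tr s c P Q φ p q → Tr s c P Q ψ p' q' →
    Tr s c P Q (fun i t => φ i t * ψ i t) (p + p') (q + q')
  | ⟨_, _, _, _, x, ξ, _, h1, h2, h3⟩, ⟨_, _, _, _, y, η, _, k1, k2, k3⟩ =>
    ⟨_, _, _, _, UT.dg (x, y), fsum ξ η, _, (h1.mul k1).congr (Eqd.of_eq (sy_dg x y ξ η).symm),
      fun t => by rw [h2, k2]; rfl, by
        rw [sb_dg, sy_dg, Pi.add_apply, h3, k3]; push_cast; module⟩

theorem Tr.mulc : Tr s c P Q φ p q → Tr s c P Q ψ p' q' →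
    Tr s c P Q (fun i t => φ i t * conj (ψ i t)) (p - p') (q - q')
  | h, ⟨_, _, _, _, y, η, _, k1, k2, k3⟩ => by
    rw [sub_eq_add_neg p, sub_eq_add_neg q]
    exact h.mul ⟨_, _, _, _, y, -η, _, k1.cj.congr (Eqd.of_eq (sy_neg y η).symm),
      fun t => by rw [k2]; rfl, by rw [sy_neg, Pi.neg_apply, k3]; push_cast; module⟩

theorem Tr.cube {k : ℕ} {a : Fin k → (σ → ℤ) → ℤ} (ha : ∀ r, Fm (a r) ∧ a r (c 0) = 0 ∧ a r (c 1) = 1)
    {F : ℕ → (σ → ℤ) → ℤ → ℂ} {Z Z' : ℤ → ℤ → ℤ}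
    (h : ∀ g, Fm g → Tr s c P Q (fun i t => F i t (g t)) (Z (g (c 0)) (g (c 1)))
      (Z' (g (c 0)) (g (c 1)))) {g : (σ → ℤ) → ℤ} (hg : Fm g) :
    Tr s c P Q (fun i t => cube (fun _ => F i t) (fun r => a r t) (g t))
      ((fwdDiff 1)^[k] (Z (g (c 0))) (g (c 1))) ((fwdDiff 1)^[k] (Z' (g (c 0))) (g (c 1))) := by
  induction k generalizing F Z Z' with
  | zero => simpa only [cube_zero, Function.iterate_zero, id] using h g hg
  | succ k ih =>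
    have e : ∀ t, (fun r => a r t) = (Fin.cons (a 0 t) fun r => a r.succ t : Fin (k + 1) → ℤ) :=
      fun t => (Fin.cons_self_tail _).symm
    simp only [e, cube_cons]
    refine ih (fun r => ha r.succ) (F := fun i t y => F i t (y + a 0 t) * conj (F i t y))
      (Z := fun x => fwdDiff 1 (Z x)) (Z' := fun x => fwdDiff 1 (Z' x)) fun g hg => ?_
    have := (h _ (hg.add (ha 0).1)).mulc (h g hg)
    rwa [(ha 0).2.1, (ha 0).2.2, add_zero] at this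

theorem Tr.zero (h : Tr s c P Q φ p q) (hs : 1 ≤ s) (hβ : β.degree = s) {δ : ℝ} (hδ : 0 < δ)
    (hb : ∀ᶠ i in UU, δ ≤ ‖𝔼 x ∈ Fintype.piFinset fun _ : σ => Ico 0 (4 * rep N i),
      φ i fun l => -(2 * rep N i) + x l‖) : (p : HR) • P + (q : HR) • Q = 0 := by
  obtain ⟨_, _, _, _, x, ξ, Φ, h1, h2, h3⟩ := h
  have h0 := hN.out.1
  have c0 : ci N ≠ 0 := (ci_pos.2 h0).ne'
  have e4 : ci (4 * N) / ci N = 4 := by
    rw [map_mul, mul_div_cancel_right₀ _ c0, map_ofNat]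
  have eN : ∀ᶠ i in UU, rep (4 * N) i = 4 * rep N i := by
    conv => enter [1, i, 1]; rw [← st_rep N]
    exact rep_st (A := HZ) fun i => 4 * rep N i
  have k := h1.key hs (fun _ => -(2 * N)) (fun _ => 4 * N) (fun _ => ⟨by positivity, by
    rw [e4]; exact ⟨0, by norm_num⟩, by rw [e4]; exact ofNat_mem _ 4⟩) (by
      rw [Nil.box, Ex_st _ (φ := fun i x => φ i fun l => -(2 * rep N i) + x l) fun x => by
        rw [← h2]
        conv_lhs => rw [← st_rep N]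
        rfl]
      refine big_two.2 ⟨δ, hδ, (hb.and eN).mono fun i hi => ?_⟩
      simp only [Function.comp, hi.2]
      exact hi.1.trans (le_abs_self _))
  rw [← h3, ((k.trans (Eqd.of_eq (sy_zero x).symm)).lin _) β hβ, sy_zero]
  rfl

variable {ι : Type} [Fintype ι] [DecidableEq ι] {lv : ι → ℕ} {W : PS lv (Fin 2) HR}
  {ξ : Matrix ι ι HR →ₗ[HR] HR} {Θ : (Fin 2 → HZ) → HC} {θ : ℕ → (Fin 2 → ℤ) → ℂ}

theorem tr_base (hΘ : Nsq s Θ (sy N W ξ)) (hθ : ∀ t : ℕ → Fin 2 → ℤ, Θ (st t) = st fun i => θ i (t i))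
    {f g : (σ → ℤ) → ℤ} (hf : Fm f) (hg : Fm g)
    (th : sy N (sb (lin ![fun r => f (c r), fun r => g (c r)]) W) ξ β =
      (p : HR) • P + (q : HR) • Q) : Tr s c P Q (fun i t => θ i ![f t, g t]) p q := by
  obtain ⟨L, hL⟩ := hf
  obtain ⟨L', hL'⟩ := hg
  have e : ∀ t, ![f t, g t] = fun l => ∑ m, ![L, L'] l m * t m := fun t =>
    funext (Fin.forall_fin_two.2 ⟨hL t, hL' t⟩)
  refine ⟨_, _, _, _, _, ξ, _, hΘ.lin ![L, L'], fun t => ?_, ?_⟩
  · simp only [e]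
    rw [← hθ]
    exact congrArg Θ (funext fun l => st_sum univ fun m i => ![L, L'] l m * t i m)
  · rw [sb_sb, ← th]
    congr 3
    funext l
    have : ∀ r, ![fun r => f (c r), fun r => g (c r)] l r = ∑ m, ![L, L'] l m * c r m := fun r =>
      (congrFun (e (c r)) l).symm ▸ by fin_cases l <;> rfl
    simp only [lin, this, map_sum, map_mul, aeval_C, aeval_X, algebraMap_eq, mul_sum, sum_mul,
      Int.cast_sum, Int.cast_mul, mul_assoc]
    exact sum_comm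

end tr

/-- The plane: `u = h`, `v = -n`, `b = n`. -/
def pl (j : ℕ) : Fin 2 → Fin (j + 1 + 1 + 1 + 1 + 1 + 1) → ℤ :=
  ![Fin.cons 0 (Fin.cons 1 0), Fin.cons 0 (Fin.cons 0 (Fin.cons 0 (Fin.cons (-1) (Fin.cons 0
    (Fin.cons 0 1)))))]

theorem sec5A {N : HZ} [Fact (Inf N)] {ι : Type} [Fintype ι] [DecidableEq ι] {lv : ι → ℕ}
    {W : PS lv (Fin 2) HR} {ξ : Matrix ι ι HR →ₗ[HR] HR} {Θ : (Fin 2 → HZ) → HC}
    (hΘ : Nsq (j + 2) Θ (sy N W ξ)) {f₁ f₂ : HZ → HC} (h1 : Bd f₁) (hs : Supp N f₁) (h2 : Bd f₂)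
    (hd : Dense 2 (HH N) fun h : HZ => BU N j fun n => f₁ (n + h) * f₂ n * Θ ![h, n])
    {β : Fin 2 →₀ ℕ} (hβ : β.degree = j + 2) {P Q : Cls (sepN N (Fin 2)) β}
    (th : ∀ l m : Fin 2 → ℤ, sy N (sb (lin ![l, m]) W) ξ β =
      ((l 0 * m 1 ^ (j + 1) : ℤ) : HR) • P + ((l 1 * m 0 * m 1 ^ j : ℤ) : HR) • Q) :
    ((j + 1 : ℕ) : HR) • P - Q = 0 := by
  obtain ⟨p, hp⟩ := h1.1
  obtain ⟨p', hp'⟩ := h2.1
  obtain ⟨θ, hθ⟩ := hΘ.nl.intF
  have e : ∀ x n : ℕ → ℤ, f₁ (st n + st x) * f₂ (st n) * Θ ![st x, st n] =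
      st fun i => p i (n i + x i) * p' i (n i) * θ i ![x i, n i] := fun x n => by
    rw [show (st n + st x : HZ) = st fun i => n i + x i from rfl, hp, hp',
      show (![st x, st n] : Fin 2 → HZ) = st fun i => ![x i, n i] from
        funext (Fin.forall_fin_two.2 ⟨rfl, rfl⟩), hθ]
    rfl
  obtain ⟨δ, hδ, h⟩ := big_Ex_gw.1 (Dense.big_Ex
    (f := gw N j fun i h n => p i (n + h) * p' i n * θ i ![h, n]) (intF_app _)
    (fun a _ => gw_nonneg _ _)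
    (hd.mono fun a _ => (bu_gw (φ := fun h n => f₁ (n + h) * f₂ n * Θ ![h, n]) e a).1))
  have hW : ∀ (m) {a}, Fm a → Tr (j + 2) (pl j) P Q (fun i t => symW (fun h n => θ i ![h, n])
      (t (iN j), fun r => t (ib r)) (t m) (a t))
      ((fwdDiff 1)^[j] (fun y => pl j 0 m * (y + a (pl j 1)) ^ (j + 1) - pl j 0 m * y ^ (j + 1)) 0)
      (pl j 1 m * a (pl j 0) * j.factorial) := fun m a ha => by
    simp only [symW, cube_cons]
    have z : ∀ r, pl j r (iN j) = 0 := Fin.forall_fin_two.2 ⟨rfl, rfl⟩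
    have hm := (fm_co m).sub (fm_co (iN j))
    exact (Tr.cube (a := fun r t => t (ib r)) (fun r => ⟨fm_co _, rfl, rfl⟩)
      (F := fun i t y => θ i ![t m - t (iN j), y + a t] * conj (θ i ![t m - t (iN j), y]))
      (Z := fun _ y => pl j 0 m * (y + a (pl j 1)) ^ (j + 1) - pl j 0 m * y ^ (j + 1))
      (Z' := fun x y => pl j 1 m * (x + a (pl j 0)) * (y + a (pl j 1)) ^ j - pl j 1 m * x * y ^ j)
      (fun g hg => ((tr_base hΘ hθ hm (hg.add ha) (th _ _)).mulc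
        (tr_base hΘ hθ hm hg (th _ _))).congr (by simp only [z, sub_zero])
          (by simp only [z, sub_zero])) (fm_co (iN j))).congr rfl (fd1 _ _ j _)
  have hK := fun u v => (hW u (((fm_co (iz j)).sub (fm_co u)).sub (fm_co v))).mulc
    (hW v (((fm_co (iz j)).sub (fm_co u)).sub (fm_co v)))
  have k := ((((hK (iu j) (iv j)).mulc (hK (iu' j) (iv j))).mulc (hK (iu j) (iv' j))).mul
    (hK (iu' j) (iv' j))).zero (by omega) hβ (δ := δ ^ 8 / 4 ^ (8 * j + 24)) (by positivity)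
    (((((h.and (rep_supp hp hs)).and (rep_bd hp h1.2)).and (rep_bd hp' h2.2)).and
      (rep_pos (N := N))).mono fun i ⟨⟨⟨⟨a1, a2⟩, a3⟩, a4⟩, a5⟩ =>
      sym_fin j a5 (fun h n => θ i ![h, n]) a3 (cut_bd (H := rep N i) a4) a2 cut_supp hδ
        (a1.trans_eq (sum_congr rfl fun h _ => congrArg _ (funext fun n => by
          simp only [cut, mul_ite, ite_mul, mul_zero, zero_mul]))))
  simp only [show pl j 0 (iz j) = 0 from rfl, show pl j 0 (iu j) = 1 from rfl,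
    show pl j 0 (iu' j) = 0 from rfl, show pl j 0 (iv j) = 0 from rfl,
    show pl j 0 (iv' j) = 0 from rfl, show pl j 1 (iz j) = 0 from rfl,
    show pl j 1 (iu j) = 0 from rfl, show pl j 1 (iu' j) = 0 from rfl,
    show pl j 1 (iv j) = -1 from rfl, show pl j 1 (iv' j) = 0 from rfl, zero_mul, mul_zero, one_mul,
    sub_zero, zero_sub, neg_neg, sub_self, add_zero, fd0, fd2] at k
  refine (smul_eq_zero.1 (?_ : (j.factorial : HR) • (((j + 1 : ℕ) : HR) • P - Q) = 0)).resolve_left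
    (by positivity)
  rw [← k]
  push_cast [Nat.factorial_succ]
  module

end Pool.Agent.P.MP_a14ce1_nt.GI
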