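import Pool.Agent.P.MP_a14ce1_nt.GI.MainA
import Pool.Agent.P.MP_a14ce1_nt.GI.Sec5A

/-! The inverse theorem for the Gowers norms on intervals. -/

namespace Pool.Agent.P.MP_a14ce1_nt.GI

theorem gi_all (k : ℕ) : GIst k :=
  gi_of (fun _ _ _ b _ hΘ _ _ h1 hs h2 hd =>
    sec5A hΘ h1 hs h2 hd (by simp [b1]; omega) (theta_b1 b)) k

end Pool.Agent.P.MP_a14ce1_nt.GI
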