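import Pool.Agent.P.MP_a14ce1_nt.GI.PolyA
import Pool.Agent.P.MP_a14ce1_nt.GI.Def

/-! The classes of the pullbacks of a symbol supported on `h n ^ k`. -/

open Finset MvPolynomial

set_option linter.unusedSectionVars false

noncomputable section

namespace Pool.Agent.P.MP_a14ce1_nt.GI

open Nil Nil.PolyP

variable {N : HZ} [Fact (Inf N)] {k : ℕ} {σ : Type} [Fintype σ] [DecidableEq σ]

/-- The class only depends on the tensor. -/
theorem poly (b : Bi k) {J : Type} [Fintype J] [DecidableEq J] (L M : J → σ → ℤ) (c : J → HR)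
    {β : σ →₀ ℕ} (hβ : β.degree = k + 1)
    (h : ∀ v γ, Finsupp.single v 1 + γ = β → ∑ j, c j * ((L j v : HR) * mo (M j) γ) = 0) :
    ∑ j, c j • sy N (sb (lin ![L j, M j]) b.W) b.ξ β = 0 := by
  obtain ⟨z, hz⟩ := exists_joint b.u L M b.mem
  have f0 := fam_zero b.u L M b.u0
  rw [← cl_zero_of_mem (sepN N σ) f0 z.2 (kill b.u L M b.sup c hβ h), map_sum]
  refine sum_congr rfl fun j _ => ?_
  rw [map_smul, ← cl_hom _ f0, hz]
  rfl

theorem mo_two (m : Fin 2 → ℤ) (γ : Fin 2 →₀ ℕ) :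
    (mo m γ : HR) = (m 0 : HR) ^ γ 0 * (m 1 : HR) ^ γ 1 := Fin.prod_univ_two _

/-- The two basic classes in degree `h n ^ k`. -/
def Bi.cP (b : Bi k) (N : HZ) [Fact (Inf N)] : Cls (sepN N (Fin 2)) (b1 k) :=
  sy N (sb (lin ![![1, 0], ![0, 1]]) b.W) b.ξ (b1 k)
def Bi.cQ (b : Bi k) (N : HZ) [Fact (Inf N)] : Cls (sepN N (Fin 2)) (b1 k) :=
  sy N (sb (lin ![![0, 1], ![1, 1]]) b.W) b.ξ (b1 k)

theorem theta_b1 {j : ℕ} (b : Bi (j + 1)) (l m : Fin 2 → ℤ) :
    sy N (sb (lin ![l, m]) b.W) b.ξ (b1 (j + 1)) =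
      ((l 0 * m 1 ^ (j + 1) : ℤ) : HR) • b.cP N + ((l 1 * m 0 * m 1 ^ j : ℤ) : HR) • b.cQ N := by
  have := poly (N := N) b ![l, ![1, 0], ![0, 1]] ![m, ![0, 1], ![1, 1]]
    ![1, -((l 0 * m 1 ^ (j + 1) : ℤ) : HR), -((l 1 * m 0 * m 1 ^ j : ℤ) : HR)]
    (β := b1 (j + 1)) (by simp [b1, add_comm]) fun v γ e => by
      have e0 := DFunLike.congr_fun e 0
      have e1 := DFunLike.congr_fun e 1
      fin_cases v
      · have a0 : γ 0 = 0 := by simpa [b1] using e0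
        have a1 : γ 1 = j + 1 := by simpa [b1] using e1
        simp [Fin.sum_univ_three, mo_two, a0, a1]
      · have a0 : γ 0 = 1 := by simpa [b1] using e0
        have a1 : γ 1 = j := by
          have : 1 + γ 1 = j + 1 := by simpa [b1] using e1
          omega
        simp [Fin.sum_univ_three, mo_two, a0, a1, mul_assoc]
  rw [Fin.sum_univ_three] at this
  simp only [Matrix.cons_val_zero, Matrix.cons_val_one, Matrix.cons_val, one_smul, neg_smul]
    at this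
  rw [← sub_eq_zero, ← this, Bi.cP, Bi.cQ]
  abel

theorem xi_eq (b : Bi k) : b.xi N = sy N (sb (lin ![![1, 0], ![0, 1]]) b.W) b.ξ
    - ((k + 1 : ℕ) : HR)⁻¹ • sy N (sb (lin ![![1, 1], ![1, 1]]) b.W) b.ξ
    + ((k + 1 : ℕ) : HR)⁻¹ • sy N (sb (lin ![![0, 1], ![0, 1]]) b.W) b.ξ := by
  have e1 : (lin ![![1, 0], ![0, 1]] : Fin 2 → MvPolynomial (Fin 2) HR) =
      fun l => X l + C ((0 : Fin 2 → HR) l) := funext fun l => by fin_cases l <;> simp [lin]
  have e2 : (lin ![![1, 1], ![1, 1]] : Fin 2 → MvPolynomial (Fin 2) HR) =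
      fun _ => X 0 + X 1 := funext fun l => by fin_cases l <;> simp [lin]
  have e3 : (lin ![![0, 1], ![0, 1]] : Fin 2 → MvPolynomial (Fin 2) HR) =
      fun _ => X 1 := funext fun l => by fin_cases l <;> simp [lin]
  rw [e1, e2, e3, Bi.xi]
  congr 3
  exact (sh_zero b.W).symm

theorem xi_b0 (b : Bi k) : b.xi N (b0 k) = 0 := by
  have := poly (N := N) b ![![1, 0], ![1, 1], ![0, 1]] ![![0, 1], ![1, 1], ![0, 1]]
    ![1, -((k + 1 : ℕ) : HR)⁻¹, ((k + 1 : ℕ) : HR)⁻¹] (β := b0 k) (by simp [b0]) fun v γ e => by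
      have e0 := DFunLike.congr_fun e 0
      fin_cases v
      · simp [b0] at e0
      · have a0 : γ 0 = 0 := by simpa [b0] using e0
        simp [Fin.sum_univ_three, mo_two, a0]
  rw [Fin.sum_univ_three] at this
  simp only [Matrix.cons_val_zero, Matrix.cons_val_one, Matrix.cons_val, one_smul, neg_smul]
    at this
  rw [xi_eq, ← this, sub_eq_add_neg]
  rfl

theorem xi_b1 {j : ℕ} (b : Bi (j + 1)) (h : ((j + 1 : ℕ) : HR) • b.cP N - b.cQ N = 0) :
    b.xi N (b1 (j + 1)) = 0 := by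
  rw [xi_eq, Pi.add_apply, Pi.sub_apply, Pi.smul_apply, Pi.smul_apply, theta_b1, theta_b1,
    theta_b1, ← sub_eq_zero.1 h]
  have : ((j + 1 + 1 : ℕ) : HR) ≠ 0 := Nat.cast_ne_zero.2 (Nat.succ_ne_zero _)
  match_scalars
  push_cast at this
  simp only [Matrix.cons_val_zero, Matrix.cons_val_one]
  field_simp
  simp
  ring

end Pool.Agent.P.MP_a14ce1_nt.GI
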