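import Pool.Agent.P.MP_a14ce1_nt.GI.QuadA
import Pool.Agent.P.MP_a14ce1_nt.GI.Low

/-! Additive quadruples of symbols. -/

open Filter Finset
open scoped BigOperators

noncomputable section

namespace Pool.Agent.P.MP_a14ce1_nt.GI

open Nil

variable {N : HZ} [Fact (Inf N)] {k : ℕ}

theorem quadN (hk : 1 ≤ k) {f₁ f₂ : HZ → HC} (h1 : Bd f₁) (hs : Supp N f₁) (h2 : Bd f₂)
    {χ : HZ → HZ → HC} (hχ : IntF fun z : HZ × HZ => χ z.1 z.2) {A : HZ → Sy N Unit} {H}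
    (hH : Sub N H) (h : ∀ h : HZ, Mem h H → Nsq1 k (χ h) (A h) ∧
      Cr N fun n => f₁ (n + h) * f₂ n * χ h n) :
    Quad N H fun a b c d => Eqd k (A a + A b) (A c + A d) := by
  refine (quadA h1 hs h2 hχ hH (fun a ha => (h a ha).1.bd.2) fun a ha => (h a ha).2).mono
    fun p _ ⟨hm, n0, M, h3, h4⟩ => ⟨hm, eqd_sub_zero.1 (Eqd.trans (Eqd.of_eq ?_) (Nsq.key
      (((Nsq.mul (h _ hm.1).1 ((h _ hm.2.1).1.shift _)).mul (Nsq.cj (h _ hm.2.2.1).1)).mul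
        (Nsq.cj ((h _ hm.2.2.2).1.shift _))) hk (fun _ => n0) (fun _ => M) (fun _ => h3) h4))⟩
  abel

end Pool.Agent.P.MP_a14ce1_nt.GI
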