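import Pool.Agent.P.MP_a14ce1_nt.GI.Sec4A
import Pool.Agent.P.MP_a14ce1_nt.Nil.NiceL

/-! The polynomial sequences of the two variable nilcharacter. -/

open Finset MvPolynomial

set_option linter.unusedSectionVars false

noncomputable section

namespace Pool.Agent.P.MP_a14ce1_nt.GI.S4

open Nil

variable {ι J : Type} [Fintype ι] [DecidableEq ι] [Fintype J] [DecidableEq J] {lv : ι → ℕ}
  {FF : Type} [Field FF] [CharZero FF] {K : Subfield FF} {r n : Fam K lv ℕ}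

/-- The variable becomes the second variable. -/
def ren (FF : Type) [Field FF] : MvPolynomial Unit FF →+* MvPolynomial (Fin 2) FF :=
  (aeval fun _ => X 1 : MvPolynomial Unit FF →ₐ[FF] MvPolynomial (Fin 2) FF).toRingHom

theorem deg_unit (γ : Unit →₀ ℕ) : γ.degree = γ () := by
  rw [Finsupp.degree_eq_sum]; simp

theorem deg2 (β : Fin 2 →₀ ℕ) : β.degree = β 0 + β 1 := by
  rw [Finsupp.degree_eq_sum]; simp

theorem ren_on (g : Fam K lv ℕ) {Z : Matrix ι ι (MvPolynomial Unit FF)}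
    (hZ : Z ∈ pm (g.fine Unit).r) (β : Fin 2 →₀ ℕ) :
    On (g.r (β 1)) (β 0 = 0) (co β (Z.map (ren FF))) := by
  have h := map_mem_pm (aeval fun _ => X 1 :
      MvPolynomial Unit FF →ₐ[FF] MvPolynomial (Fin 2) FF).toLinearMap
    (r' := fun β : Fin 2 →₀ ℕ => if β 0 = 0 then g.r (β 1) else ⊥) (fun γ β h => by
      rw [AlgHom.toLinearMap_apply, aeval_monomial, map_one, one_mul, Finsupp.prod_fintype _ _
        (by simp), Fintype.prod_unique, X_pow_eq_monomial, coeff_monomial] at h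
      have e : Finsupp.single 1 (γ default) = β := by
        by_contra e
        exact h (if_neg e)
      subst e
      simp [Fam.fine_r, deg_unit]) hZ β
  beta_reduce at h
  by_cases e : β 0 = 0
  · rw [if_pos e] at h
    exact ⟨h, fun e' => absurd e e'⟩
  · rw [if_neg e, Submodule.mem_bot] at h
    have h' : co β (Z.map (ren FF)) = 0 := h
    rw [h']
    exact On.zero

theorem X0_on {V : ℕ → Submodule FF (Matrix ι ι FF)} {Z : Matrix ι ι (MvPolynomial (Fin 2) FF)}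
    (hZ : ∀ β : Fin 2 →₀ ℕ, On (V (β 1)) (β 0 = 0) (co β Z)) (β : Fin 2 →₀ ℕ) :
    On (V (β 1)) (β 0 = 1) (co β ((X 0 : MvPolynomial (Fin 2) FF) • Z)) := by
  by_cases e : β 0 = 0
  · have : co β ((X 0 : MvPolynomial (Fin 2) FF) • Z) = 0 := by
      ext a b
      simp [co, coeff_X_mul', e]
    rw [this]; exact On.zero
  · have : co β ((X 0 : MvPolynomial (Fin 2) FF) • Z) = co (β - Finsupp.single 0 1) Z := by
      ext a b
      simp [co, coeff_X_mul', e]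
    rw [this]
    have h := hZ (β - Finsupp.single 0 1)
    have e1 : (β - Finsupp.single 0 1 : Fin 2 →₀ ℕ) 1 = β 1 := by simp
    have e0 : (β - Finsupp.single 0 1 : Fin 2 →₀ ℕ) 0 = β 0 - 1 := by simp
    rw [e1, e0] at h
    exact ⟨h.1, fun e' => h.2 (by omega)⟩

theorem co_fsmul {σ : Type} (β : σ →₀ ℕ) (c : FF) (Z : Matrix ι ι (MvPolynomial σ FF)) :
    co β (c • Z) = c • co β Z := by
  ext a b
  simp [co]

theorem co_sc {σ : Type} (β : σ →₀ ℕ) (c : J → MvPolynomial σ FF) :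
    (fun j => co β (sc ι c j)) = sc ι fun j => coeff β (c j) := by
  funext j
  ext a b
  by_cases h : a = b <;> simp [co, sc, h]

theorem co_fun0 {σ : Type} (β : σ →₀ ℕ) :
    (fun j => co β ((0 : J → Matrix ι ι (MvPolynomial σ FF)) j)) = 0 := by
  funext j; simp

theorem pm_fsmul {σ : Type} {V : (σ →₀ ℕ) → Submodule FF (Matrix ι ι FF)} (c : FF) {Z}
    (h : Z ∈ pm V) : c • Z ∈ pm V := fun β => by
  rw [co_fsmul]; exact Submodule.smul_mem _ c (h β)

theorem pm_up {σ : Type} {g : Fam K lv (σ →₀ ℕ)} {Z} (h : Z ∈ pm g.r) :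
    Z ∈ mF (MvPolynomial σ FF) lv 1 := g.lie.up h

variable (q : FF) (θ : J → FF) (y : PS lv Unit FF) (B₀ : Matrix ι ι (MvPolynomial Unit FF))
  (B : J → Matrix ι ι (MvPolynomial Unit FF))

/-- The sequence in two variables. -/
def XX : PS (lv3 J lv) (Fin 2) FF :=
  e1 lv (fun j => C (q * θ j) * X 0) * e2 J lv ((lg y).map (ren FF)) *
    e3 lv ((X 0 : MvPolynomial (Fin 2) FF) • B₀.map (ren FF)) fun j => q⁻¹ • (B j).map (ren FF)

/-- The sequence in one variable. -/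
def ww (A : Matrix ι ι (MvPolynomial Unit FF)) : PS (lv3 J lv) Unit FF :=
  e2 J lv (lg y) * e3 lv A fun j => q⁻¹ • B j

variable {q θ y B₀ B}

theorem XX_mem (hI : r.Ide n) (hy : y ∈ (r.fine Unit).PG) (h0 : B₀ ∈ pm (n.fine Unit).r)
    (hB : ∀ j, B j ∈ pm (n.fine Unit).r) : XX q θ y B₀ B ∈ (uf J hI).PG := by
  refine mul_mem (mul_mem (ex_mem_grp fun β => ?_) (ex_mem_grp fun β => ?_))
    (ex_mem_grp fun β => ?_)
  · rw [co_T4, co_sc, co_zero, co_fun0]
    refine ⟨_, _, _, _, rfl, On.zero, On.zero, fun _ => On.zero, fun h => funext fun j => ?_⟩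
    rw [coeff_C_mul, coeff_X, if_neg, mul_zero, Pi.zero_apply]
    rintro rfl
    simp at h
  · rw [co_T4, co_zero, co_fun0, ← sc_zero]
    exact ⟨_, _, _, _, rfl, ren_on r hy β, On.zero, fun j => by rw [sc_zero]; exact On.zero,
      fun _ => rfl⟩
  · rw [co_T4, co_zero, co_fun0, ← sc_zero]
    exact ⟨_, _, _, _, rfl, On.zero, X0_on (ren_on n h0) β,
      fun j => by rw [co_fsmul]; exact (ren_on n (hB j) β).smul _, fun _ => rfl⟩

theorem T4_mem_hl (hI : r.Ide n) (r0 : r.r 0 = ⊥) {i : ℕ} {Y A : Matrix ι ι FF}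
    {H : J → Matrix ι ι FF} (hY : Y ∈ r.r i) (hA : A ∈ n.r i) (hH : ∀ j, H j ∈ n.r i) :
    T4 Y A H 0 ∈ ((uf J hI).hl (Finsupp.applyAddHom 1)).r i := by
  rcases Nat.eq_zero_or_pos i with rfl | hi
  · have z : ∀ Z ∈ r.r 0, Z = 0 := fun Z hZ => by rwa [r0, Submodule.mem_bot] at hZ
    rw [z Y hY, z A (hI.le _ hA), show H = 0 from funext fun j => z _ (hI.le _ (hH j)), T4_zero]
    exact zero_mem _
  have e : T4 Y A H 0 = T4 Y 0 H (sc ι 0) + T4 0 A 0 (sc ι 0) := by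
    rw [T4_add, sc_zero]; simp
  rw [e]
  refine add_mem ((uf J hI).le_hl _ (i := Finsupp.single 1 i) (by simpa) (by simp) ?_)
    ((uf J hI).le_hl _ (i := Finsupp.single 0 1 + Finsupp.single 1 i) (by simpa) (by simp) ?_)
  · exact ⟨_, _, _, _, rfl, ⟨by simpa, by simp⟩, On.zero, fun j => ⟨by simpa using hH j, by simp⟩,
      fun _ => rfl⟩
  · exact ⟨_, _, _, _, rfl, On.zero, ⟨by simpa, by simp⟩, fun _ => On.zero, fun _ => rfl⟩

theorem ww_mem (hI : r.Ide n) (r0 : r.r 0 = ⊥) (hy : y ∈ (r.fine Unit).PG)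
    (hB : ∀ j, B j ∈ pm (n.fine Unit).r) {A} (hA : A ∈ pm (n.fine Unit).r) :
    ww q y B A ∈ (((uf J hI).hl (Finsupp.applyAddHom 1)).fine Unit).PG := by
  refine mul_mem (ex_mem_grp fun β => ?_) (ex_mem_grp fun β => ?_)
  · rw [co_T4, co_zero, co_fun0]
    exact T4_mem_hl hI r0 (hy β) (zero_mem _) fun _ => zero_mem _
  · rw [co_T4, co_zero, co_fun0]
    exact T4_mem_hl hI r0 (zero_mem _) (hA β) fun j => pm_fsmul _ (hB j) β

theorem eval_ren (s t : FF) (p : MvPolynomial Unit FF) :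
    eval ![s, t] (ren FF p) = eval (fun _ => t) p := by
  induction p using MvPolynomial.induction_on with
  | C a => simp [ren]
  | add p p' h h' => rw [map_add, map_add, map_add, h, h']
  | mul_X p l h => rw [map_mul, map_mul, map_mul, h]; simp [ren]

theorem ev_XX (hq : q ≠ 0) (h0 : B₀ ∈ mF (MvPolynomial Unit FF) lv 1)
    (hB : ∀ j, B j ∈ mF (MvPolynomial Unit FF) lv 1) (s t : FF) (m : J → FF) :
    ev ![s, t] (XX q θ y B₀ B) = e1 lv (fun j => q * (θ j * s - m j)) *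
      ev (fun _ => t) (ww q y B (s • B₀ + ∑ j, m j • B j)) * e1 lv fun j => q * m j := by
  have sm : ∀ {σ : Type} (c : FF) {Z : Matrix ι ι (MvPolynomial σ FF)},
      Z ∈ mF (MvPolynomial σ FF) lv 1 → c • Z ∈ mF (MvPolynomial σ FF) lv 1 :=
    fun c Z h a b e => by rw [Matrix.smul_apply, h a b e, smul_zero]
  have a1 : (X 0 : MvPolynomial (Fin 2) FF) • B₀.map (ren FF) ∈ mF _ lv 1 := fun a b e => by
    rw [Matrix.smul_apply, map_up _ h0 a b e, smul_zero]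
  have a2 : s • B₀ + ∑ j, m j • B j ∈ mF _ lv 1 :=
    add_mem (sm _ h0) (sum_mem fun j _ => sm _ (hB j))
  rw [XX, ww, map_mul, map_mul, map_mul, ev, ev, map_e1, map_e2 _ (map_up _ (lg_mem y)),
    map_e2 _ (lg_mem y), map_e3 _ a1 fun j => sm _ (map_up _ (hB j)),
    map_e3 _ a2 fun j => sm _ (hB j)]
  have b1 : (s • B₀ + ∑ j, m j • B j).map (eval fun _ => t) =
      ((X 0 : MvPolynomial (Fin 2) FF) • B₀.map (ren FF)).map (eval ![s, t]) +
        ∑ j, (q * m j) • (q⁻¹ • B j).map (eval fun _ => t) := by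
    ext a b
    simp only [Matrix.map_apply, Matrix.add_apply, Matrix.smul_apply, Matrix.sum_apply, map_add,
      map_sum, smul_eval, smul_eq_mul, map_mul, eval_ren, eval_X, Matrix.cons_val_zero]
    congr 1
    refine sum_congr rfl fun j _ => ?_
    field_simp
  rw [b1, ← e_move _ _ (map_up _ (lg_mem y)) (map_up _ a1) fun j => map_up _ (sm _ (hB j))]
  congr 2
  · congr 1
    funext j
    simp only [map_mul, eval_C, eval_X, Matrix.cons_val_zero, Pi.add_apply]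
    ring
  · congr 1
    ext a b
    simp [eval_ren]
  · funext j
    ext a b
    simp [eval_ren, smul_eval]

theorem joint_mem (hI : r.Ide n) (hy : y ∈ (r.fine Unit).PG)
    (hB : ∀ j, B j ∈ pm (n.fine Unit).r) {A} (hA : A ∈ pm (n.fine Unit).r) :
    UT.dg (UT.dg (ww q y B A, ww q y B 0), UT.dg (y * ex lv A, y)) ∈
      ((f4 J hI).fine Unit).PG := by
  have hH : ∀ j, q⁻¹ • B j ∈ mF _ lv 1 := fun j => pm_up (pm_fsmul _ (hB j))
  have e : UT.dg (UT.dg (ww q y B A, ww q y B 0), UT.dg (y * ex lv A, y)) =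
      UT.dg (UT.dg (e2 J lv (lg y), e2 J lv (lg y)), UT.dg (y, y)) *
        UT.dg (UT.dg (e3 lv A fun j => q⁻¹ • B j, e3 lv 0 fun j => q⁻¹ • B j),
          UT.dg (ex lv A, 1)) := by
    rw [UT.dg_mul, UT.dg_mul, UT.dg_mul, mul_one]; rfl
  rw [e]
  refine mul_mem (Fam.mem_PG.2 fun β => ?_) (Fam.mem_PG.2 fun β => ?_)
  · rw [lg_dg, lg_dg, lg_dg, e2, lg_ex (u2 (lg_mem y)), co_dg, co_dg, co_dg, co_T4, co_zero,
      co_fun0]
    exact ⟨_, hy β, 0, zero_mem _, 0, fun _ => zero_mem _, 0, zero_mem _, by simp⟩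
  · rw [lg_dg, lg_dg, lg_dg, e3, e3, lg_ex (u3 (pm_up hA) hH), lg_ex (u3 (zero_mem _) hH),
      lg_ex (pm_up hA), lg_one, co_dg, co_dg, co_dg, co_T4, co_T4, co_zero, co_fun0]
    exact ⟨0, zero_mem _, _, hA β, _, fun j => pm_fsmul q⁻¹ (hB j) β, 0, zero_mem _,
      by simp⟩

theorem f4_zero (hI : r.Ide n) (r0 : r.r 0 = ⊥) : (f4 J hI).r 0 = ⊥ := by
  rw [eq_bot_iff]
  rintro _ ⟨Y, a1, A, a2, H, a3, M, a4, rfl⟩
  have z : ∀ Z ∈ r.r 0, Z = 0 := fun Z hZ => by rwa [r0, Submodule.mem_bot] at hZ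
  rw [z Y a1, z A (hI.le _ a2), z M (hI.le _ (mm_le_n _ a4)),
    show H = 0 from funext fun j => z _ (hI.le _ (a3 j)), T4_zero]
  simp

theorem f4_kill (hI : r.Ide n) {k : ℕ} {ξ : Matrix ι ι FF →ₗ[FF] FF}
    (fw : ∀ a b, a + b = k → ∀ X ∈ n.r a, ∀ Y ∈ n.r b, ξ (X * Y - Y * X) = 0)
    {η : Matrix (K3 J × ι) (K3 J × ι) FF →ₗ[FF] FF} (h : ∀ A ∈ n.r k, η (T4 0 A 0 0) = ξ A) :
    ∀ Z ∈ (f4 J hI).r k, fsum (fsum η (-η)) (fsum (-ξ) ξ) Z = 0 := by
  rintro _ ⟨Y, -, A, a2, H, -, M, a4, rfl⟩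
  have e : T4 Y A H 0 = T4 Y 0 H 0 + T4 0 A 0 0 := by rw [T4_add]; simp
  have hM : ξ M = 0 := mm_le (V := LinearMap.ker ξ) fw a4
  rw [fsum_dg, fsum_dg, fsum_dg, e, map_add, h A a2, LinearMap.neg_apply, LinearMap.neg_apply,
    map_add, map_add, hM]
  ring

theorem corner_mem (hI : r.Ide n) {k : ℕ} {A : Matrix ι ι FF} (hA : A ∈ n.r k) :
    T4 0 A 0 0 ∈ ((uf J hI).hl Finsupp.degree).r (k + 1) := by
  refine (uf J hI).le_hl _ (i := Finsupp.single 0 1 + Finsupp.single 1 k) (by simp [deg2])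
    (by simp [deg2, add_comm]) ?_
  exact ⟨0, A, 0, 0, by rw [sc_zero], On.zero, ⟨by simpa, by simp⟩, fun _ => On.zero, fun _ => rfl⟩

theorem e1_mem (hI : r.Ide n) (c : J → FF) : e1 lv c ∈ ((uf J hI).hl Finsupp.degree).GG := by
  rw [Fam.mem_GG, e1, lg_ex (u1 c)]
  refine (uf J hI).le_hl _ (i := Finsupp.single 0 1) (by simp) (by simp) ?_
  exact ⟨_, _, _, c, rfl, On.zero, On.zero, fun _ => On.zero, by simp⟩

end Pool.Agent.P.MP_a14ce1_nt.GI.S4
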