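import Pool.Agent.P.MP_a14ce1_nt.GI.Low
import Pool.Agent.P.MP_a14ce1_nt.GI.Sec4B
import Pool.Agent.P.MP_a14ce1_nt.Nil.NilCharNs
import Pool.Agent.P.MP_a14ce1_nt.Nil.TinyM

/-! The two variable nilcharacter of a bracket linear family. -/

open Filter Finset MvPolynomial
open scoped BigOperators

set_option linter.unusedSectionVars false

noncomputable section

namespace Pool.Agent.P.MP_a14ce1_nt.GI

open Nil S4

variable {ι : Type} [Fintype ι] [DecidableEq ι] {lv : ι → ℕ} {N : HZ} [Fact (Inf N)] {k D : ℕ}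

theorem sec4 (hk : 1 ≤ k) {ξ : Matrix ι ι HR →ₗ[HR] HR} (hξ : RatF K2 ξ) (Λ : Lin lv k D ξ) :
    ∃ (b : Bi k) (D' : ℕ) (Θ : Fin D' → (Fin 2 → HZ) → HC) (𝒟 : ℕ → Sy N Unit),
      (∀ i, Nsq (k + 1) (Θ i) (sy N b.W b.ξ)) ∧ Unt Θ ∧ (∀ c, Rep k (𝒟 c)) ∧
      ∀ h m, Λ.Near h m → ∀ i φ, Bd φ → (Cr N fun n => φ n * Θ i ![h, n]) →
        ∃ c Φ, Nsq1 k Φ (sy N (Λ.seq h m) ξ - 𝒟 c) ∧ Cr N fun n => φ n * Φ n := by
  set u := uf (Fin Λ.J) Λ.ide with hu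
  set η : Matrix (K3 (Fin Λ.J) × ι) (K3 (Fin Λ.J) × ι) HR →ₗ[HR] HR := ξ ∘ₗ pA (Fin Λ.J) with hη
  have hηr : RatF K2 η := hξ.comp ratM_pA
  have u0 : u.r 0 = ⊥ := uf_bot Λ.ide (fun _ => Λ.r0) (by simp)
  have gf : (u.hl Finsupp.degree).Fil (D + 1) := Fam.hl_fil fun β hβ => by
    rw [deg2] at hβ
    exact uf_bot Λ.ide (fun _ => Λ.rD _ (by omega)) (by omega)
  have nf : (u.hl (Finsupp.applyAddHom 1)).Fil D := Fam.hl_fil fun β hβ => by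
    have hβ' : D < β 1 := hβ
    exact uf_bot Λ.ide (fun _ => Λ.rD _ hβ') (by omega)
  have top : ∀ Z ∈ (u.hl Finsupp.degree).r (k + 1 + 1), η Z = 0 := Fam.su_kill fun β hβ => by
    beta_reduce at hβ
    rw [deg2] at hβ
    exact uf_kill Λ.ide fun _ => Λ.top _ (by omega)
  have cen : Cen (u.hl Finsupp.degree) ((u.hl Finsupp.degree).r (k + 1)) η :=
    ⟨⟨Fam.rat _ _, gf.le (Nat.zero_le _), fun _ hX _ hY => gf.anti _ (gf.br0 hX hY)⟩, hηr,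
      fun _ hX _ hY => top _ (gf.br0 hX hY)⟩
  obtain ⟨q, D', χ, hq, hN, hE, hU⟩ := nilchar_ns _ cen
  have hq0 : (q : HR) ≠ 0 := Nat.cast_ne_zero.2 hq.ne'
  have hX := XX_mem (q := (q : HR)) (θ := Λ.θ) Λ.ide Λ.hy Λ.hB₀ Λ.hB
  have hX' : XX (q : HR) Λ.θ Λ.y Λ.B₀ Λ.B ∈ ((u.hl Finsupp.degree).fine (Fin 2)).PG := by
    refine Fam.PG_mono (fun β => ?_) hX
    by_cases e : β = 0
    · rw [e, ← hu, u0]; exact bot_le
    · exact u.le_hl _ (Nat.one_le_iff_ne_zero.2 fun h => e ((Finsupp.degree_eq_zero_iff _).1 h))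
        le_rfl
  obtain ⟨e, e1r, e2r⟩ := exists_enum (K3 (Fin Λ.J) × ι)
  have hΘ : ∀ i, Nsq (k + 1) (fun t : Fin 2 → HZ =>
      χ i (ev (zv (t + ![-Λ.h₀, 0])) (XX (q : HR) Λ.θ Λ.y Λ.B₀ Λ.B)))
      (sy N (XX (q : HR) Λ.θ Λ.y Λ.B₀ Λ.B) η) := fun i =>
    Nsq.shift (Φ := fun t => χ i (ev (zv t) (XX (q : HR) Λ.θ Λ.y Λ.B₀ Λ.B)))
      ⟨{ ι := _, lv := _, g := _, D := _, fil := gf, q := q, F := χ i, nice := hN i, x := _,
         mem := hX' }, η, rfl, ⟨hηr, top, hE i⟩, Eqd.refl _⟩ _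
  refine ⟨{ ι := _, lv := _, u := u, u0 := u0, W := _, mem := hX, ξ := η, rat := hηr,
            sup := fun β h1 h2 => uf_kill Λ.ide fun h3 => ?_ }, D', _,
    fun c => sy N Λ.y ξ - sy N (ww (q : HR) Λ.y Λ.B 0) (e c), hΘ,
    fun t => hU _ (ev_mem gf hX' _), fun c => (rep_sy _ hξ).sub (rep_sy _ (e1r c)), ?_⟩
  · rw [deg2] at h1
    refine absurd ?_ h2
    ext l
    fin_cases l <;> simp [b1] <;> omega
  intro h m hm i φ hφ hc
  set A := ci (h - Λ.h₀) • Λ.B₀ + ∑ j, ci (m j) • Λ.B j with hAd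
  have hA : A ∈ pm (Λ.n.fine Unit).r :=
    add_mem (pm_fsmul _ Λ.hB₀) (sum_mem fun j _ => pm_fsmul _ (Λ.hB j))
  have hw := ww_mem (q := (q : HR)) Λ.ide Λ.r0 Λ.hy Λ.hB hA
  have le0 : (u.hl (Finsupp.applyAddHom 1)).r 0 ≤ (u.hl Finsupp.degree).r 0 :=
    u.su_mono fun β hβ => by
      have hβ' : max 0 1 ≤ β 1 := hβ
      beta_reduce
      rw [deg2]; omega
  have leG : (u.hl (Finsupp.applyAddHom 1)).GG ≤ (u.hl Finsupp.degree).GG := fun z hz =>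
    Fam.mem_GG.2 (le0 (Fam.mem_GG.1 hz))
  set a := e1 lv fun j => (q : HR) * (Λ.θ j * ci (h - Λ.h₀) - ci (m j)) with ha
  have aG : a ∈ (u.hl Finsupp.degree).GG := e1_mem Λ.ide _
  have aO : Ent (OO 2 : Set HR) a.val := entO_ex (ent_T4 (zero_mem _) (fun _ _ => zero_mem _)
    (fun _ _ => zero_mem _) (fun _ _ _ => zero_mem _) fun j s t =>
      mul_mem (mul_mem (natCast_mem _ _) (hm j)) (ent_one (OO 2) s t))
  have h2 : (u.hl Finsupp.degree).r (k + 1) ≤ (u.hl (Finsupp.applyAddHom 1)).r k :=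
    u.su_mono' fun β hβ => by
      beta_reduce at hβ
      rw [deg2] at hβ
      by_cases e : β 0 ≤ 1
      · left
        change max k 1 ≤ β 1
        omega
      · exact Or.inr (uf_bot Λ.ide (fun e' => absurd e' e) (by omega))
  let d : Dat Unit :=
    { ι := _, lv := _, g := _, D := _, fil := nf, q := q, F := fun z => χ i (a * z),
      nice := ((hN i).left aG aO).mono leG, x := _, mem := hw }
  have hc' : Cr N fun n => φ n * d.val fun _ => n := by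
    refine hc.congr (hφ.mul ((hΘ i).nl.row h)).1
      (hφ.1.mul (d.intF.comp (f := fun (n : HZ) (_ : Unit) => n) (by fun_prop))) fun n _ _ => ?_
    rw [← mul_sub]
    refine TinyC.mul' ?_ (nm_OO (hφ.2 n))
    have e : zv (![h, n] + ![-Λ.h₀, 0]) = ![ci (h - Λ.h₀), ci n] := by
      funext l
      fin_cases l <;> simp [zv, sub_eq_add_neg]
    rw [e, ev_XX hq0 (pm_up Λ.hB₀) (fun j => pm_up (Λ.hB j)) _ _ fun j => ci (m j)]
    refine (hN i).per _ (e1_mem Λ.ide _) ?_ _ (mul_mem aG (leG (ev_mem nf hw _)))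
    unfold Lev
    rw [e1_val, ← T4_one, T4_sub]
    refine ent_T4 ⟨0, zero_mem _, by simp⟩ (fun _ _ => ⟨0, zero_mem _, by simp⟩)
      (fun _ _ => ⟨0, zero_mem _, by simp⟩) (fun _ _ _ => ⟨0, zero_mem _, by simp⟩) fun j s t =>
        ⟨ci (m j) * (1 : Matrix ι ι HR) s t, mul_mem (ci_mem _) (ent_one ZZ s t), by
          simp [sc, mul_assoc]⟩
  have cen' : Cen d.g ((u.hl Finsupp.degree).r (k + 1)) η := by
    have := cen.restrict le0
    rwa [inf_eq_left.2 (h2.trans (nf.le (Nat.zero_le k)))] at this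
  obtain ⟨ζ, z1, z2, Φ, z3, z4⟩ := spl (k := k) d cen'
    (u.su_mono fun β hβ => by
      have hβ' : max (k + 1) 1 ≤ β 1 := hβ
      beta_reduce
      rw [deg2]; omega) h2
    (Fam.su_kill fun β hβ => by
      have hβ' : max (k + 1) 1 ≤ β 1 := hβ
      exact uf_kill Λ.ide fun _ => Λ.top _ (by omega))
    ((Eqv.left cen (hE i) aG).mono leG le_rfl fun _ _ => rfl) hφ hc'
  obtain ⟨c, rfl⟩ := e2r ζ z1
  refine ⟨c, Φ, Nsq.congr z3 fun β hβ => ?_, z4⟩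
  have z := cl_zero_of_mem (sepN N Unit) (β := β) (g := (f4 (Fin Λ.J) Λ.ide).fine Unit)
    (f4_zero Λ.ide Λ.r0) (joint_mem (q := (q : HR)) Λ.ide Λ.hy Λ.hB hA)
    (by rw [Fam.fine_r, hβ]; exact f4_kill Λ.ide Λ.fw fun Z hZ => z2 _ (corner_mem Λ.ide hZ))
  rw [cl_dg, cl_dg, cl_dg, map_neg, map_neg] at z
  change cl _ β (ww (q : HR) Λ.y Λ.B A) (e c) = cl _ β (Λ.y * ex lv A) ξ -
    (cl _ β Λ.y ξ - cl _ β (ww (q : HR) Λ.y Λ.B 0) (e c))
  rw [← sub_eq_zero, ← z]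
  abel

end Pool.Agent.P.MP_a14ce1_nt.GI
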