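import Pool.Agent.P.MP_a14ce1_nt.GI.Step0
import Pool.Agent.P.MP_a14ce1_nt.GI.Quad
import Pool.Agent.P.MP_a14ce1_nt.GI.Lin
import Pool.Agent.P.MP_a14ce1_nt.GI.Sec4
import Pool.Agent.P.MP_a14ce1_nt.GI.Poly
import Pool.Agent.P.MP_a14ce1_nt.GI.End6
import Pool.Agent.P.MP_a14ce1_nt.GI.Fin

/-! The inductive step, given the symmetry statement. -/

open Filter Finset MvPolynomial
open scoped BigOperators

noncomputable section

namespace Pool.Agent.P.MP_a14ce1_nt.GI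

open Nil

/-- The symmetry statement. -/
def S5 : Prop := ∀ (N : HZ) [Fact (Inf N)] (j : ℕ) (b : Bi (j + 1)) (Θ : (Fin 2 → HZ) → HC),
  Nsq (j + 2) Θ (sy N b.W b.ξ) → ∀ f₁ f₂ : HZ → HC, Bd f₁ → Supp N f₁ → Bd f₂ →
    (Dense 2 (HH N) fun h : HZ => BU N j fun n => f₁ (n + h) * f₂ n * Θ ![h, n]) →
      ((j + 1 : ℕ) : HR) • b.cP N - b.cQ N = 0

theorem step (H5 : S5) {N : HZ} [Fact (Inf N)] {j : ℕ} (hG : GIst j) (hG' : GIst (j + 1))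
    {f : HZ → HC} (hf : Bd f) (hs : Supp N f) (h : BU N (j + 2) f) :
    ∃ ω, SNil (j + 2) ω ∧ BU N (j + 1) fun n => f n * ω n := by
  obtain ⟨ι, _, _, lv, g, D, ξ, x, χ, hg, hξ, ht, hx, hχ, hd⟩ := step0 hG' hf hs h
  obtain ⟨H, hH, hp⟩ := Dense.exists_sub hd
  obtain ⟨Λ, H', h1, h2⟩ := linear (Nat.le_add_left 1 j) hg hξ ht hx hH (fun a ha => (hp a ha).1)
    fun H' hH' hs' => quadN (Nat.le_add_left 1 j) hf hs hf.cj hχ hH' fun a ha => (hp a (hs' a ha)).2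
  obtain ⟨b, D', Θ, 𝒟, hΘ, hu, h𝒟, h4⟩ := sec4 (N := N) (Nat.le_add_left 1 j) hξ Λ
  obtain ⟨i, f₃, h3, h5⟩ := star (A := fun a => sy N (x a) ξ) (χ := χ) hf hf.cj
    (fun i => (hΘ i).nl) hu h𝒟 ⟨H', fun a ha => by
      obtain ⟨a1, a2, m, a3, a4⟩ := h1 a ha
      refine ⟨a1, (hp a a2).2.1, (hp a a2).2.2, fun i φ hφ hc => ?_⟩
      obtain ⟨c, Φ, b1, b2⟩ := h4 a m a3 i φ hφ hc
      exact ⟨c, Φ, Nsq.congr b1 (a4.symm.sub (Eqd.refl _)), b2⟩, h2⟩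
  exact end6 hG b (hΘ i) (xi_b1 b (H5 N j b _ (hΘ i) _ _ hf hs h3 h5)) (xi_b0 b) hf hs h3 h5

theorem gi_of (H5 : S5) (k : ℕ) : GIst k := by
  have : ∀ j, GIst j ∧ GIst (j + 1) := fun j => by
    induction j with
    | zero => exact ⟨gi0, gi1⟩
    | succ j ih => exact ⟨ih.2, fin_step ih.2 fun N _ f hf hs h => step H5 ih.1 ih.2 hf hs h⟩
  exact (this k).1

end Pool.Agent.P.MP_a14ce1_nt.GI
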