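import Pool.Agent.P.MP_a14ce1_nt.GI.FamS

/-! Linear relations between the pullbacks of a two variable polynomial sequence. -/

open Finset MvPolynomial

set_option linter.unusedSectionVars false

noncomputable section

namespace Pool.Agent.P.MP_a14ce1_nt.Nil

variable {FF : Type} [Field FF] [CharZero FF] {ι : Type} [Fintype ι] [DecidableEq ι]
  {K : Subfield FF} {lv : ι → ℕ} {J : Type} [Fintype J] [DecidableEq J] {σ : Type} [Fintype σ]
  [DecidableEq σ]

namespace PolyP

/-- Block diagonal matrices with proportional blocks. -/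
def bd (w : J → FF) : Matrix ι ι FF →ₗ[FF] Matrix (ι × J) (ι × J) FF where
  toFun X := Matrix.blockDiagonal fun j => w j • X
  map_add' X Y := by rw [← Matrix.blockDiagonal_add]; congr 1; funext j; simp
  map_smul' c X := by
    rw [RingHom.id_apply, ← Matrix.blockDiagonal_smul]; congr 1; funext j
    simp [smul_comm c]

theorem bd_apply (w : J → FF) (X : Matrix ι ι FF) :
    bd w X = Matrix.blockDiagonal fun j => w j • X := rfl

/-- A diagonal block. -/
def pj (j : J) : Matrix (ι × J) (ι × J) FF →ₗ[FF] Matrix ι ι FF where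
  toFun Z := Matrix.blockDiag Z j
  map_add' _ _ := rfl
  map_smul' _ _ := rfl

theorem pj_bl {R : Type} [Zero R] (f : J → Matrix ι ι R) (j : J) :
    Matrix.blockDiag (Matrix.blockDiagonal f) j = f j := by rw [Matrix.blockDiag_blockDiagonal]

theorem pj_bl' (f : J → Matrix ι ι FF) (j : J) : pj j (Matrix.blockDiagonal f) = f j := pj_bl f j

theorem pj_bd (w : J → FF) (X : Matrix ι ι FF) (j : J) : pj j (bd w X) = w j • X :=
  pj_bl (fun j => w j • X) j

theorem bl_up {R : Type} [CommRing R] [Algebra ℚ R] {f : J → Matrix ι ι R}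
    (h : ∀ j, f j ∈ mF R lv 1) : Matrix.blockDiagonal f ∈ mF R (fun p : ι × J => lv p.1) 1 := by
  rintro ⟨a, i⟩ ⟨b, j⟩ e
  rw [Matrix.blockDiagonal_apply']
  split_ifs
  exacts [h i a b e, rfl]

theorem bl_br {R : Type} [CommRing R] (f g : J → Matrix ι ι R) :
    Matrix.blockDiagonal f * Matrix.blockDiagonal g - Matrix.blockDiagonal g * Matrix.blockDiagonal f
      = Matrix.blockDiagonal fun j => f j * g j - g j * f j := by
  rw [← Matrix.blockDiagonal_mul, ← Matrix.blockDiagonal_mul, ← Matrix.blockDiagonal_sub]; rfl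

/-- The value of a monomial. -/
def mo (a : σ → ℤ) (γ : σ →₀ ℕ) : FF := ∏ v, (a v : FF) ^ γ v

theorem mo_add (a : σ → ℤ) (γ δ : σ →₀ ℕ) : (mo a (γ + δ) : FF) = mo a γ * mo a δ := by
  simp [mo, pow_add, prod_mul_distrib]

theorem mo_mem (a : σ → ℤ) (γ : σ →₀ ℕ) : (mo a γ : FF) ∈ K :=
  prod_mem fun _ _ => pow_mem (intCast_mem _ _) _

theorem mo_single (a : σ → ℤ) (v : σ) : (mo a (Finsupp.single v 1) : FF) = a v := by
  rw [mo, prod_eq_single v (fun w _ h => by simp [h]) (by simp)]; simp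

theorem coeff_pow (a : σ → ℤ) (n : ℕ) (γ : σ →₀ ℕ) :
    coeff γ ((∑ m, C (a m : FF) * X m : MvPolynomial σ FF) ^ n) =
      (if γ.degree = n then (γ.multinomial : FF) else 0) * mo a γ := by
  simp only [C_mul']
  rw [coeff_linearCombination_X_pow_of_fintype, Finsupp.prod_fintype _ _ (by simp), ite_mul,
    zero_mul]
  rfl

/-- The bidegree. -/
def bi (σ : Type) : (σ →₀ ℕ) × (σ →₀ ℕ) →+ (Fin 2 →₀ ℕ) where
  toFun p := Finsupp.single 0 p.1.degree + Finsupp.single 1 p.2.degree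
  map_zero' := by simp
  map_add' p q := by simp only [Prod.fst_add, Prod.snd_add, map_add, Finsupp.single_add]; abel

theorem bi_apply (p : (σ →₀ ℕ) × (σ →₀ ℕ)) :
    bi σ p = Finsupp.single 0 p.1.degree + Finsupp.single 1 p.2.degree := rfl

variable (u : Fam K lv (Fin 2 →₀ ℕ)) (L M : J → σ → ℤ)

def rho : Hom (u.comap (bi σ)) fun p : ι × J => lv p.1 where
  l p := bd fun j => mo (L j) p.1 * mo (M j) p.2
  rat p := RatM.of_ent fun X hX a b => by
    rw [bd_apply, Matrix.blockDiagonal_apply]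
    split_ifs
    exacts [mul_mem (mul_mem (mo_mem _ _) (mo_mem _ _)) (hX _ _), zero_mem _]
  up p X hX := by rw [bd_apply]; exact bl_up fun _ => u.up _ _ (Submodule.smul_mem _ _ hX)
  br p q X _ Y _ := by
    rw [bd_apply, bd_apply, bd_apply, bl_br]
    congr 1
    funext j
    simp only [Prod.fst_add, Prod.snd_add, mo_add, smul_mul_smul_comm, smul_sub]
    congr 2 <;> ring

/-- The family that carries all the pullbacks. -/
def fam : Fam K (fun p : ι × J => lv p.1) (σ →₀ ℕ) :=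
  ((rho u L M).img (u.comap (bi σ))).sm (fun β p => p.1 + p.2 = β) fun _ _ p q a b => by
    rw [← a, ← b, Prod.fst_add, Prod.snd_add]; abel

theorem fam_ind {β : σ →₀ ℕ} {P : Matrix (ι × J) (ι × J) FF → Prop}
    (h1 : ∀ α γ, α + γ = β → ∀ X ∈ u.r (bi σ (α, γ)), P (bd (fun j => mo (L j) α * mo (M j) γ) X))
    (h0 : P 0) (ha : ∀ X Y, P X → P Y → P (X + Y)) {Z} (hZ : Z ∈ (fam u L M).r β) : P Z :=
  Fam.su_ind (fun p hp _ ⟨X, hX, e⟩ => e ▸ h1 p.1 p.2 hp X hX.1) h0 ha hZ

theorem mem_fam {α γ β : σ →₀ ℕ} (e : α + γ = β) {X} (hX : X ∈ u.r (bi σ (α, γ))) :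
    bd (fun j => mo (L j) α * mo (M j) γ) X ∈ (fam u L M).r β :=
  Fam.le_su ((rho u L M).img (u.comap (bi σ))) (p := fun q => q.1 + q.2 = β) (i := (α, γ)) e
    (Hom.mem_img.2 ⟨X, hX, hX, rfl⟩)

theorem fam_zero (u0 : u.r 0 = ⊥) : (fam u L M).r 0 = ⊥ :=
  eq_bot_iff.2 fun _ hZ => fam_ind u L M (P := fun Z => Z = 0) (fun α γ e X hX => by
    obtain ⟨rfl, rfl⟩ := add_eq_zero.1 e
    rw [Prod.mk_zero_zero, map_zero, u0, Submodule.mem_bot] at hX
    rw [hX, map_zero]) rfl (fun X Y a b => by rw [a, b, add_zero]) hZ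

def prj (j : J) : Hom (fam u L M) lv where
  l _ := pj j
  rat _ _ _ := rfl
  up β X hX a b e := (fam u L M).up β X hX (a, j) (b, j) e
  br β γ X hX Y hY := by
    have k : ∀ {β Z}, Z ∈ (fam u L M).r β → ∃ f, Z = Matrix.blockDiagonal f := fun hZ =>
      fam_ind u L M (P := fun Z => ∃ f, Z = Matrix.blockDiagonal f) (fun _ _ _ _ _ => ⟨_, bd_apply _ _⟩)
        ⟨0, Matrix.blockDiagonal_zero.symm⟩
        (fun _ _ ⟨f, a⟩ ⟨g, b⟩ => ⟨f + g, by rw [a, b, Matrix.blockDiagonal_add]⟩) hZ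
    obtain ⟨f, rfl⟩ := k hX
    obtain ⟨g, rfl⟩ := k hY
    rw [bl_br, pj_bl', pj_bl', pj_bl']

/-- The substitution `(h, n) := (l t, m t)`. -/
def sub (FF : Type) [Field FF] (l m : σ → ℤ) : Fin 2 → MvPolynomial σ FF :=
  fun i => ∑ v, C ((![l, m] : Fin 2 → σ → ℤ) i v : FF) * X v

theorem exists_joint {W : PS lv (Fin 2) FF} (hW : W ∈ u.PG) :
    ∃ z : (fam u L M).PG, ∀ j, (prj u L M j).G z = sb (sub FF (L j) (M j)) W := by
  have up := bl_up (lv := lv) fun j => lg_mem (sb (sub FF (L j) (M j)) W)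
  have hc : ∀ β, co β (lg (ex _ (Matrix.blockDiagonal fun j => lg (sb (sub FF (L j) (M j)) W)) :
      PS (fun p : ι × J => lv p.1) σ FF)) =
      Matrix.blockDiagonal fun j => co β (lg (sb (sub FF (L j) (M j)) W)) := fun β => by
    rw [lg_ex up]; exact Matrix.blockDiagonal_map _ _ (coeff_zero β)
  refine ⟨⟨ex _ (Matrix.blockDiagonal fun j => lg (sb (sub FF (L j) (M j)) W)), fun β => ?_⟩,
    fun j => (Hom.G_eq_iff _ _ _).2 fun β => by
      rw [hc]; exact pj_bl (fun j => co β (lg (sb (sub FF (L j) (M j)) W))) j⟩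
  have e : (Matrix.blockDiagonal fun j => co β (lg (sb (sub FF (L j) (M j)) W))) =
      ∑ δ ∈ supp (lg W), ∑ p ∈ antidiagonal β,
        ((if p.1.degree = δ 0 then (p.1.multinomial : FF) else 0) *
          if p.2.degree = δ 1 then (p.2.multinomial : FF) else 0) •
        bd (fun j => mo (L j) p.1 * mo (M j) p.2) (co δ (lg W)) := by
    ext ⟨a, i⟩ ⟨b, j⟩
    simp only [Matrix.sum_apply, Matrix.smul_apply, bd_apply, Matrix.blockDiagonal_apply']
    by_cases h : i = j
    · simp only [if_pos h]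
      rw [lg_sb, co_map, Matrix.sum_apply]
      refine sum_congr rfl fun δ _ => ?_
      rw [AlgHom.toLinearMap_apply, aeval_monomial, map_one, one_mul,
        Finsupp.prod_fintype _ _ (by simp), Fin.prod_univ_two, coeff_mul, Matrix.smul_apply,
        sum_smul]
      refine sum_congr rfl fun p _ => ?_
      simp only [sub, Matrix.cons_val_zero, Matrix.cons_val_one, coeff_pow, smul_eq_mul]
      ring
    · simp [h]
  rw [hc, e]
  refine Submodule.sum_mem _ fun δ _ => Submodule.sum_mem _ fun p hp => ?_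
  split_ifs with h1 h2
  · have : co δ (lg W) ∈ u.r (bi σ p) := by
      convert hW δ using 2
      ext i
      fin_cases i <;> simp [bi_apply, h1, h2]
    exact Submodule.smul_mem _ _ (mem_fam u L M (mem_antidiagonal.1 hp) this)
  all_goals simp

theorem kill {k : ℕ} {ξ : Matrix ι ι FF →ₗ[FF] FF}
    (sup : ∀ δ : Fin 2 →₀ ℕ, δ.degree = k + 1 → δ ≠ Finsupp.single 0 1 + Finsupp.single 1 k →
      ∀ Y ∈ u.r δ, ξ Y = 0) (c : J → FF) {β : σ →₀ ℕ} (hβ : β.degree = k + 1)
    (h : ∀ v γ, Finsupp.single v 1 + γ = β → ∑ j, c j * ((L j v : FF) * mo (M j) γ) = 0) :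
    ∀ Z ∈ (fam u L M).r β, (∑ j, c j • ξ ∘ₗ (prj u L M j).l β) Z = 0 := fun Z hZ => by
  refine fam_ind u L M (P := fun Z => (∑ j, c j • ξ ∘ₗ (prj u L M j).l β) Z = 0)
    (fun α γ e X hX => ?_) (map_zero _) (fun X Y a b => by rw [map_add, a, b, add_zero]) hZ
  have : (∑ j, c j • ξ ∘ₗ (prj u L M j).l β) (bd (fun j => mo (L j) α * mo (M j) γ) X) =
      (∑ j, c j * (mo (L j) α * mo (M j) γ)) * ξ X := by
    rw [LinearMap.sum_apply, sum_mul]
    refine sum_congr rfl fun j _ => ?_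
    change c j * ξ (pj j _) = _
    rw [pj_bd, map_smul, smul_eq_mul, ← mul_assoc]
  rw [this]
  by_cases h1 : α.degree = 1
  · obtain ⟨v, rfl⟩ := (Finsupp.sum_eq_one_iff α).1 h1
    simp only [mo_single]
    rw [h v γ e, zero_mul]
  · rw [sup _ (by rw [← hβ, ← e]; simp [bi_apply]) (fun e' => h1 (by
      simpa [bi_apply] using DFunLike.congr_fun e' 0)) X hX, mul_zero]

end PolyP

end Pool.Agent.P.MP_a14ce1_nt.Nil
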