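import Pool.Agent.P.MP_a14ce1_nt.GI.BU0
import Pool.Agent.P.MP_a14ce1_nt.Nil.BoxA
import Pool.Agent.P.MP_a14ce1_nt.Nil.Gowers3

/-! Additive quadruples: the analytic part. -/

open Filter Finset ComplexConjugate
open scoped BigOperators

set_option linter.unusedSectionVars false

noncomputable section

namespace Pool.Agent.P.MP_a14ce1_nt.GI

open Nil

variable {N : HZ} [hN : Fact (Inf N)]

/-- The quadruple product restricted to the common window. -/
def qd (N : ℤ) (χ : ℤ → ℤ → ℂ) (a b c d m : ℤ) : ℂ :=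
  if 0 ≤ m + a - d ∧ m + a - d < N then
    χ a m * χ b (m + a - d) * conj (χ c m) * conj (χ d (m + a - d)) else 0

def qg (N : ℤ) (χ : ℤ → ℤ → ℂ) (u : Finset ℤ) (p : ℤ × ℤ × ℤ) : ℝ :=
  if p.1 ∈ u ∧ p.2.1 ∈ u ∧ p.2.2 ∈ u ∧ p.1 + p.2.1 - p.2.2 ∈ u then
    ‖(∑ m ∈ Ico 0 N, qd N χ p.1 p.2.1 p.2.2 (p.1 + p.2.1 - p.2.2) m) / N‖ else 0

theorem qg_nonneg (N : ℤ) (χ u p) : 0 ≤ qg N χ u p := by
  unfold qg; split_ifs <;> positivity

theorem quad_fin {N : ℤ} (hN : 0 < N) {f1 f2 : ℤ → ℂ} (hs : ∀ n, f1 n ≠ 0 → 0 ≤ n ∧ n < N)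
    (h1 : ∀ n, ‖f1 n‖ ≤ 1) (h2 : ∀ n, ‖f2 n‖ ≤ 1) (χ : ℤ → ℤ → ℂ) {u : Finset ℤ}
    (hu : u ⊆ Ioo (-N) N) :
    ((u.card : ℝ) / (Ioo (-N) N).card *
      𝔼 h ∈ u, ‖(∑ m ∈ Ico 0 N, f1 (m + h) * f2 m * χ h m) / N‖) ^ 4 ≤
      𝔼 p ∈ Ioo (-N) N ×ˢ Ioo (-N) N ×ˢ Ioo (-N) N, qg N χ u p := by
  have n1 : (1 : ℝ) ≤ N := by exact_mod_cast hN
  have n0 : (0 : ℝ) < N := by linarith
  have c0 : (0 : ℝ) < 2 * N - 1 := by linarith
  have nn : ∀ z : ℂ, ‖z / N‖ = ‖z‖ / N := fun z => by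
    rw [norm_div, Complex.norm_intCast, abs_of_pos n0]
  have k := quad (S1 := Ico 0 N) (S2 := Ico 0 N) (Ico 0 N) u χ (fun x hx => mem_Ico.2 (hs x hx))
    (fun x hx => mem_Ico.2 (cut_supp x hx)) h1 (cut_bd h2)
  have e1 : ∀ h, ∑ m ∈ Ico 0 N, f1 (m + h) * cut N f2 m * χ h m =
      ∑ m ∈ Ico 0 N, f1 (m + h) * f2 m * χ h m := fun h =>
    sum_congr rfl fun m hm => by rw [cut, if_pos (mem_Ico.1 hm)]
  simp only [e1] at k
  rw [Int.card_Ico, sub_zero, ← Int.cast_natCast, Int.toNat_of_nonneg hN.le] at k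
  have e2 : (∑ h1 ∈ u, ∑ h3 ∈ u, ∑ h4 ∈ u.filter (fun h4 => h3 + h4 - h1 ∈ u),
      ‖∑ n ∈ (Ico 0 N).filter (fun n => n + h1 - h4 ∈ Ico 0 N), χ h1 n *
        χ (h3 + h4 - h1) (n + h1 - h4) * conj (χ h3 n) * conj (χ h4 (n + h1 - h4))‖) ≤
      N * ∑ p ∈ Ioo (-N) N ×ˢ Ioo (-N) N ×ˢ Ioo (-N) N, qg N χ u p := by
    refine le_trans (le_of_eq ?_) (mul_le_mul_of_nonneg_left (sum_le_sum_of_subset_of_nonneg
      (s := ((u ×ˢ u ×ˢ u).filter fun q : ℤ × ℤ × ℤ => q.2.1 + q.2.2 - q.1 ∈ u).image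
        fun q => (q.1, q.2.1 + q.2.2 - q.1, q.2.1)) (fun p hp => ?_)
      fun p _ _ => qg_nonneg N χ u p) n0.le)
    · rw [sum_image fun q _ q' _ e => by
        simp only [Prod.ext_iff] at e ⊢
        omega, sum_filter, sum_product, mul_sum]
      refine sum_congr rfl fun a ha => ?_
      rw [sum_product, mul_sum]
      refine sum_congr rfl fun c hc => ?_
      rw [sum_filter, mul_sum]
      refine sum_congr rfl fun d hd => ?_
      have e : a + (c + d - a) - c = d := by ring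
      split_ifs with hb
      · simp only [qg, e, ha, hb, hc, hd, and_self, if_true, nn, qd, sum_filter, mem_Ico]
        rw [mul_div_cancel₀ _ n0.ne']
      · rw [mul_zero]
    · obtain ⟨q, hq, rfl⟩ := mem_image.1 hp
      simp only [mem_filter, mem_product] at hq ⊢
      exact ⟨hu hq.1.1, hu hq.2, hu hq.1.2.1⟩
  rw [div_mul_eq_mul_div, card_mul_expect, expect_eq_sum_div_card, card_product, card_product,
    Nat.cast_mul, Nat.cast_mul, card_ioo hN, div_pow, div_le_div_iff₀ (by positivity)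
    (by positivity)]
  simp only [nn]
  rw [← sum_div, div_pow, div_mul_eq_mul_div, div_le_iff₀ (by positivity)]
  have s0 : 0 ≤ ∑ p ∈ Ioo (-N) N ×ˢ Ioo (-N) N ×ˢ Ioo (-N) N, qg N χ u p :=
    sum_nonneg fun p _ => qg_nonneg N χ u p
  calc _ ≤ (N : ℝ) ^ 2 * (N : ℝ) ^ 2 * ((2 * N - 1) * ∑ p ∈ Ioo (-N) N ×ˢ Ioo (-N) N ×ˢ Ioo (-N) N,
        qg N χ u p) * ((2 * N - 1) * ((2 * N - 1) * (2 * N - 1))) := by
        refine mul_le_mul_of_nonneg_right (k.trans (mul_le_mul_of_nonneg_left (e2.trans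
          (mul_le_mul_of_nonneg_right (by linarith) s0)) (by positivity))) (by positivity)
    _ = _ := by ring

theorem qg_le {N : ℤ} (hN : 0 < N) {χ : ℤ → ℤ → ℂ} {u : Finset ℤ} (h : ∀ a ∈ u, ∀ n, ‖χ a n‖ ≤ 1)
    (p : ℤ × ℤ × ℤ) : qg N χ u p ≤ 1 := by
  have n0 : (0 : ℝ) < N := by exact_mod_cast hN
  unfold qg
  split_ifs with c
  · rw [norm_div, Complex.norm_intCast, abs_of_pos n0, div_le_one n0]
    refine (norm_sum_le _ _).trans ((sum_le_card_nsmul _ _ 1 fun m _ => ?_).trans (le_of_eq ?_))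
    · unfold qd
      split_ifs
      · simp only [norm_mul, Complex.norm_conj]
        exact mul_le_one₀ (mul_le_one₀ (mul_le_one₀ (h _ c.1 _) (norm_nonneg _) (h _ c.2.1 _))
          (norm_nonneg _) (h _ c.2.2.1 _)) (norm_nonneg _) (h _ c.2.2.2 _)
      · simp
    · rw [Int.card_Ico, sub_zero, nsmul_eq_mul, mul_one, ← Int.cast_natCast,
        Int.toNat_of_nonneg hN.le]
  · exact zero_le_one

/-- A mean over `[0, N)` of a function cut to a window is a mean over a long interval. -/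
theorem Cr.window {φ : HZ → HC} (hφ : Bd φ) {e : HZ} [∀ n, Decidable (0 ≤ n + e ∧ n + e < N)]
    (h : Cr N fun n => if 0 ≤ n + e ∧ n + e < N then φ n else 0) :
    ∃ n0 M : HZ, (0 < M ∧ Big 2 (ci M / ci N) ∧ ci M / ci N ∈ OO 2) ∧
      BigC 2 (Ex (box fun _ : Unit => M) fun t : Unit → HZ => φ (n0 + t ())) := by
  classical
  have h0 := hN.out.1
  have hi := hφ.1
  obtain ⟨K, hK⟩ := IntP.filter (p := fun t : Unit → HZ => 0 ≤ t () + e ∧ t () + e < N)
    ((IntP.le (by fun_prop) (by fun_prop)).and (IntP.lt (by fun_prop) (by fun_prop)))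
    (box fun _ : Unit => N)
  have hf : IntF fun t : Unit → HZ => φ (t ()) := by fun_prop
  have hs := fun (t : Unit → HZ) ht => ((hK t).1 ht).1
  rw [Cr, Ex_congr (g := fun t : Unit → HZ => if Mem t K then φ (t ()) else 0)
    (IntF.ite ((IntP.le (by fun_prop) (by fun_prop)).and (IntP.lt (by fun_prop) (by fun_prop))) hf
      (IntF.const 0)) (hf.ite_mem (IntF.const 0) K) (fun t ht => by simp only [hK, ht, true_and]),
    Ex_ite hs hf] at h
  have h1 := bigC_cr.1 (h.of_mul (nm_OO (nm_Ex_le hf zero_le_one fun t _ => hφ.2 _)))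
  have h2 := h.of_mul' (by rw [nm_cr]; exact abs_mem_OO.2 (cd_div_OO hs))
  have hm : ∀ t : Unit → HZ, Mem t K ↔ max 0 (-e) ≤ t () ∧ t () < min N (N - e) := fun t => by
    rw [hK, mem_box, Unique.forall_iff, max_le_iff, lt_min_iff, neg_le_iff_add_nonneg,
      lt_sub_iff_add_lt]
    tauto
  obtain ⟨t0, ht0⟩ := exists_mem (A := Unit → HZ) (div_ne_zero_iff.1 h1.ne_zero).1
  have hM : 0 < min N (N - e) - max 0 (-e) := sub_pos.2 (((hm t0).1 ht0).1.trans_lt ((hm t0).1 ht0).2)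
  have a1 : ∀ t : Unit → HZ, Mem t (box fun _ : Unit => min N (N - e) - max 0 (-e)) ↔
      Mem (fun _ : Unit => max 0 (-e) + t ()) K := fun t => by
    rw [hm, mem_box, Unique.forall_iff, le_add_iff_nonneg_right, lt_sub_iff_add_lt']
  have a2 : ∀ t : Unit → HZ, Mem t K →
      Mem (fun _ : Unit => t () - max 0 (-e)) (box fun _ : Unit => min N (N - e) - max 0 (-e)) :=
    fun t ht => (a1 _).2 (by simpa only [add_sub_cancel] using ht)
  have c0 := (ci_pos.2 h0).le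
  refine ⟨max 0 (-e), _, ⟨hM, h1.mono (cd_div_nonneg _ _) ?_, OO_of_le_one ?_⟩, ?_⟩
  · rw [cd_box fun _ => h0.le, Fintype.prod_unique]
    refine div_le_div_of_nonneg_right ((cd_le_of_inj (by fun_prop) a2 fun t t' _ _ c =>
      funext fun _ => sub_left_injective (congrFun c ())).trans_eq ?_) c0
    rw [cd_box fun _ => hM.le, Fintype.prod_unique]
  · rw [abs_of_nonneg (div_nonneg (ci_pos.2 hM).le c0)]
    exact div_le_one_of_le₀ (ci_le.2 ((sub_le_self _ (le_max_left _ _)).trans (min_le_left _ _))) c0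
  · rwa [← Ex_bij' (e := fun (t : Unit → HZ) (_ : Unit) => max 0 (-e) + t ()) (by fun_prop) _
      (fun t => (a1 t).1) a2 (fun t _ => funext fun _ => add_sub_cancel_left _ _)
      (fun t _ => funext fun _ => add_sub_cancel _ _) hf] at h2

theorem cr_of_rep {φ : HZ → HC} {p : ℕ → ℤ → ℂ}
    (h : ∀ n : ℕ → ℤ, φ (st n) = st fun i => p i (n i)) (hb : Big 2 (st fun i =>
      ‖(∑ m ∈ Ico (0 : ℤ) (rep N i), p i m) / ((rep N i : ℤ) : ℂ)‖)) : Cr N φ := by
  rw [Cr, Ex_win h]; exact hb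

theorem quadA {f₁ f₂ : HZ → HC} (h1 : Bd f₁) (hs : Supp N f₁) (h2 : Bd f₂)
    {χ : HZ → HZ → HC} (hχ : IntF fun z : HZ × HZ => χ z.1 z.2) {H}
    (hH : Sub N H) (hb : ∀ h : HZ, Mem h H → ∀ n, nm (χ h n) ≤ 1)
    (h : ∀ h : HZ, Mem h H → Cr N fun n => f₁ (n + h) * f₂ n * χ h n) :
    Quad N H fun a b c d => ∃ n0 M : HZ, (0 < M ∧ Big 2 (ci M / ci N) ∧ ci M / ci N ∈ OO 2) ∧
      BigC 2 (Ex (box fun _ : Unit => M) fun t : Unit → HZ => χ a (n0 + t ()) *
        χ b (n0 + t () + (a - d)) * cj (χ c (n0 + t ())) * cj (χ d (n0 + t () + (a - d)))) := by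
  classical
  have i1 := h1.1
  have i2 := h2.1
  have k1 := hH.2.mul (Dense.big_Ex (f := fun h : HZ => nm (Ex (box fun _ : Unit => N)
    fun t : Unit → HZ => f₁ (t () + h) * f₂ (t ()) * χ h (t ())))
    (IntF.nm (IntF.ex (IntF.const _) (IntF.mul (by fun_prop)
      (hχ.comp (f := fun z : HZ × (Unit → HZ) => (z.1, z.2 ())) (by fun_prop)))))
    (fun _ _ => nm_nonneg _) (dense_all (div_ne_zero_iff.1 hH.2.ne_zero).1 h))
  obtain ⟨p₁, hp₁⟩ := h1.1
  obtain ⟨p₂, hp₂⟩ := h2.1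
  obtain ⟨c, hc⟩ := id hχ
  obtain ⟨u, rfl⟩ := NS.surj H
  have hc' : ∀ x n : ℕ → ℤ, χ (st x) (st n) = st fun i => c i (x i, n i) := fun x n =>
    hc fun i => (x i, n i)
  have hcb : ∀ᶠ i in UU, ∀ z : ℤ × ℤ, z.1 ∈ u i → ‖c i z‖ ≤ 1 := ev_forall.2 fun z => by
    by_cases hz : ∀ᶠ i in UU, (z i).1 ∈ u i
    · have := hb _ (mem_st.2 hz) (st fun i => (z i).2)
      rw [hc'] at this
      exact (st_le.1 this).mono fun i hi _ => hi
    · exact (ev_not.2 hz).mono fun i hi h' => absurd h' hi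
  rw [Ex_st u (φ := fun i h => ‖(∑ m ∈ Ico 0 (rep N i), p₁ i (m + h) * p₂ i m * c i (h, m)) /
    ((rep N i : ℤ) : ℂ)‖) fun x => by
      rw [Ex_win (φ := fun n => f₁ (n + st x) * f₂ n * χ (st x) n)
        (p := fun i m => p₁ i (m + x i) * p₂ i m * c i (x i, m)) fun n => by
          rw [show (st n + st x : HZ) = st fun i => n i + x i from rfl, hp₁, hp₂, hc']; rfl]
      rfl] at k1
  have hG : ∀ x : ℕ → ℤ × ℤ × ℤ, (app (fun i => qg (rep N i) (fun a n => c i (a, n)) (u i))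
      (st x : HZ × HZ × HZ) : HR) = _ := app_st _
  refine (markovR (f := app fun i => qg (rep N i) (fun a n => c i (a, n)) (u i)) (intF_app _)
    (fun z _ => OO_of_le_one ?_) ((k1.pow 4).of_le' ?_)).mono (st_ind fun x hx hq => ?_)
  · induction z using st_ind with | _ x
    rw [hG, st_abs]
    exact st_le.2 ((rep_pos.and hcb).mono fun i hi => (abs_of_nonneg (qg_nonneg _ _ _ _)).trans_le
      (qg_le hi.1 (fun a ha n => hi.2 (a, n) ha) _))
  · rw [abs_of_nonneg (Even.pow_nonneg (by norm_num) _), HH, fprod_st, fprod_st, Ex_st _ hG]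
    refine st_le.2 (((rep_pos (N := N)).and ((rep_supp hp₁ hs).and ((rep_bd hp₁ h1.2).and
      ((rep_bd hp₂ h2.2).and (subset_st hH.1))))).mono fun i hi => ?_)
    exact quad_fin hi.1 hi.2.1 hi.2.2.1 hi.2.2.2.1 (fun a n => c i (a, n)) hi.2.2.2.2
  · rw [hG] at hq
    have hu : ∀ᶠ i in UU, (x i).1 ∈ u i ∧ (x i).2.1 ∈ u i ∧ (x i).2.2 ∈ u i ∧
        (x i).1 + (x i).2.1 - (x i).2.2 ∈ u i :=
      (ev_not.2 (mt (NS.eq_iff (A := HR) _ fun _ => 0).2 hq.ne_zero)).mono fun i hi =>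
        by_contra fun c => hi (if_neg c)
    have hu' := hu
    simp only [eventually_and] at hu'
    have hm : Mem (st fun i => (x i).1 : HZ) (st u) ∧ Mem (st fun i => (x i).2.1 : HZ) (st u) ∧
        Mem (st fun i => (x i).2.2 : HZ) (st u) ∧
        Mem (st fun i => (x i).1 + (x i).2.1 - (x i).2.2 : HZ) (st u) :=
      ⟨mem_st.2 hu'.1, mem_st.2 hu'.2.1, mem_st.2 hu'.2.2.1, mem_st.2 hu'.2.2.2⟩
    refine ⟨hm, Cr.window (φ := fun n => χ (st fun i => (x i).1) n * χ (st fun i => (x i).2.1)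
      (n + _) * cj (χ (st fun i => (x i).2.2) n) * cj (χ _ (n + _)))
      (e := (st x : HZ × HZ × HZ).1 - ((st x : HZ × HZ × HZ).1 + (st x : HZ × HZ × HZ).2.1 -
        (st x : HZ × HZ × HZ).2.2)) ⟨?_, fun n => ?_⟩ ?_⟩
    · exact (((hχ.curry _).mul ((hχ.curry _).comp (by fun_prop))).mul (hχ.curry _).cj).mul
        ((hχ.curry _).comp (by fun_prop)).cj
    · exact nm_mul_le_one (nm_mul_le_one (nm_mul_le_one (hb _ hm.1 _) (hb _ hm.2.1 _))
        (by rw [nm_cj]; exact hb _ hm.2.2.1 _)) (by rw [nm_cj]; exact hb _ hm.2.2.2 _)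
    · refine cr_of_rep (p := fun i m => qd (rep N i) (fun a n => c i (a, n)) (x i).1 (x i).2.1
        (x i).2.2 ((x i).1 + (x i).2.1 - (x i).2.2) m) (fun n => ?_)
        (hq.of_le (congrArg abs (st_congr (A := HR) (hu.mono fun i hi => if_pos hi))).le)
      have e : (st n + ((st x : HZ × HZ × HZ).1 - ((st x : HZ × HZ × HZ).1 +
          (st x : HZ × HZ × HZ).2.1 - (st x : HZ × HZ × HZ).2.2)) : HZ) = st fun i =>
          n i + (x i).1 - ((x i).1 + (x i).2.1 - (x i).2.2) :=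
        (add_sub_assoc _ _ _).symm
      rw [e]
      split_ifs with w
      · rw [hc', hc', hc', show ((st x : HZ × HZ × HZ).1 + (st x : HZ × HZ × HZ).2.1 -
          (st x : HZ × HZ × HZ).2.2 : HZ) = st fun i => (x i).1 + (x i).2.1 - (x i).2.2 from rfl, hc']
        exact st_congr ((win_st.1 w).mono fun i hi => (if_pos hi).symm)
      · exact st_congr ((ev_not.2 (mt win_st.2 w)).mono fun i hi => (if_neg hi).symm)

end Pool.Agent.P.MP_a14ce1_nt.GI
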