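import Pool.Agent.P.MP_a14ce1_nt.GI.FamS
import Pool.Agent.P.MP_a14ce1_nt.Nil.Prod

/-! The Rees construction: every polynomial sequence is related to one in a filtered system. -/

open Finset

set_option linter.unusedSectionVars false

noncomputable section

namespace Pool.Agent.P.MP_a14ce1_nt.Nil

variable {FF : Type} [Field FF] [CharZero FF] {ι : Type} [Fintype ι] [DecidableEq ι]
  {K : Subfield FF} {lv : ι → ℕ} {σ : Type}

/-- The product of `X` with the `i`-th power of the shift on `Fin (s + 1)`. -/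
def rho (s i : ℕ) (X : Matrix ι ι FF) : Matrix (ι × Fin (s + 1)) (ι × Fin (s + 1)) FF :=
  Matrix.of fun p q => if (q.2 : ℕ) = p.2 + i then X p.1 q.1 else 0

theorem rho_mul (s i j : ℕ) (X Y : Matrix ι ι FF) :
    rho s i X * rho s j Y = rho s (i + j) (X * Y) := by
  ext ⟨a, u⟩ ⟨b, v⟩
  simp only [rho, Matrix.mul_apply, Matrix.of_apply, Fintype.sum_prod_type, ite_mul, zero_mul,
    mul_ite, mul_zero]
  split_ifs with h
  · refine sum_congr rfl fun c _ => ?_
    rw [sum_eq_single ⟨u + i, by omega⟩ (fun w _ hw => ?_) (by simp), if_pos (by simp; omega),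
      if_pos rfl]
    split_ifs with h1 h2
    exacts [absurd (Fin.ext h2) hw, rfl, rfl]
  · refine sum_eq_zero fun c _ => sum_eq_zero fun w _ => ?_
    split_ifs with h1 h2
    exacts [absurd (by omega) h, rfl, rfl]

theorem rho_add (s i : ℕ) (X Y : Matrix ι ι FF) : rho s i (X + Y) = rho s i X + rho s i Y := by
  ext p q; simp only [rho, Matrix.add_apply, Matrix.of_apply]; split_ifs <;> simp
theorem rho_sub (s i : ℕ) (X Y : Matrix ι ι FF) : rho s i (X - Y) = rho s i X - rho s i Y := by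
  ext p q; simp only [rho, Matrix.sub_apply, Matrix.of_apply]; split_ifs <;> simp
theorem rho_smul (s i : ℕ) (c : FF) (X : Matrix ι ι FF) : rho s i (c • X) = c • rho s i X := by
  ext p q; simp only [rho, Matrix.smul_apply, Matrix.of_apply]; split_ifs <;> simp
theorem rho_zero (s i : ℕ) : rho s i (0 : Matrix ι ι FF) = 0 := by ext p q; simp [rho]
theorem rho_map (s i : ℕ) (φ : FF →ₗ[K] FF) (X : Matrix ι ι FF) :
    (rho s i X).map φ = rho s i (X.map φ) := by
  ext p q; simp only [rho, Matrix.map_apply, Matrix.of_apply]; split_ifs <;> simp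
theorem rho_eq_zero {s i : ℕ} (h : s < i) (X : Matrix ι ι FF) : rho s i X = 0 := by
  ext p q; exact if_neg (by omega)
theorem rho_mem (s i : ℕ) {X : Matrix ι ι FF} (h : X ∈ mF FF lv 1) :
    rho s i X ∈ mF FF (fun p : ι × Fin (s + 1) => lv p.1) 1 := fun p q hpq => by
  simp [rho, h p.1 q.1 hpq]

/-- The graph of `rho`. -/
def rhoF (K : Subfield FF) (lv : ι → ℕ) (s : ℕ) :
    Fam K (Sum.elim lv fun p : ι × Fin (s + 1) => lv p.1) ℕ where
  r i :=
    { carrier := {Z | ∃ X ∈ mF FF lv 1, Z = dg X (rho s i X)}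
      add_mem' := by
        rintro _ _ ⟨X, hX, rfl⟩ ⟨Y, hY, rfl⟩
        exact ⟨_, add_mem hX hY, by rw [dg_add, rho_add]⟩
      zero_mem' := ⟨0, zero_mem _, by rw [rho_zero, dg_zero]⟩
      smul_mem' := by
        rintro c _ ⟨X, hX, rfl⟩
        exact ⟨c • X, fun a b h => by simp [hX a b h], by rw [dg_smul, rho_smul]⟩ }
  up i := by
    rintro _ ⟨X, hX, rfl⟩
    exact dg_mem_mF.2 ⟨hX, rho_mem s i hX⟩
  rat i φ := by
    rintro _ ⟨X, hX, rfl⟩
    exact ⟨X.map φ, fun a b h => by simp [hX a b h], by rw [dg_map _ (map_zero φ), rho_map]⟩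
  br i j := by
    rintro _ ⟨X, hX, rfl⟩ _ ⟨Y, hY, rfl⟩
    refine ⟨X * Y - Y * X, sub_mem ((filt_mF FF lv).anti 1 ((filt_mF FF lv).mul 1 1 _ hX _ hY))
      ((filt_mF FF lv).anti 1 ((filt_mF FF lv).mul 1 1 _ hY _ hX)), ?_⟩
    rw [dg_br, rho_mul, rho_mul, add_comm j, rho_sub]

theorem rees_alg (s : ℕ) {x : PS lv σ FF} (hx : ev 0 x = 1) {ξ : Matrix ι ι FF →ₗ[FF] FF}
    (hξ : RatF K ξ) : ∃ (g : Fam K (fun p : ι × Fin (s + 1) => lv p.1) ℕ)
      (y : PS (fun p : ι × Fin (s + 1) => lv p.1) σ FF)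
      (η : Matrix (ι × Fin (s + 1)) (ι × Fin (s + 1)) FF →ₗ[FF] FF)
      (h : Fam K (Sum.elim lv fun p : ι × Fin (s + 1) => lv p.1) (σ →₀ ℕ)),
      g.Fil s ∧ y ∈ (g.fine σ).plus.PG ∧ RatF K η ∧ h.r 0 = ⊥ ∧ UT.dg (x, y) ∈ h.PG ∧
      ∀ β : σ →₀ ℕ, β.degree = s → ∀ X Y, dg X Y ∈ h.r β → ξ X = η Y := by
  obtain ⟨Y, hY⟩ := exists_co (fun β : σ →₀ ℕ => rho s β.degree (co β (lg x)))
    ((supp (lg x)).finite_toSet.subset fun β hβ => by_contra fun c =>
      hβ (by rw [co_eq_zero c, rho_zero]))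
  have m := up_iff_co.1 (lg_mem x)
  have mY := up_iff_co.2 fun β => hY β ▸ rho_mem s β.degree (m β)
  have x0 : co 0 (lg x) = 0 := by rw [co_zero_lg, hx, lg_one]
  refine ⟨(rhoF K lv s).snd.hl (AddMonoidHom.id ℕ), ex _ Y,
    ξ ∘ₗ ⟨⟨fun Z => Z.submatrix (fun a => (a, 0)) fun b => (b, Fin.last s), fun _ _ => rfl⟩,
      fun _ _ => rfl⟩, ((rhoF K lv s).fine σ).plus, Fam.hl_fil fun i hi => ?_, fun β => ?_,
    fun Z hZ => hξ _ fun a b => hZ _ _, Fam.plus_zero _, fun β => ?_, fun β hβ X Y h => ?_⟩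
  · rw [eq_bot_iff]
    rintro _ ⟨_, X, -, e⟩
    rw [(dg_inj.1 e).2, rho_eq_zero (show s < i from hi)]
    exact zero_mem _
  · rw [lg_ex mY, hY]
    by_cases c : β = 0
    · rw [c, x0, rho_zero]; exact zero_mem _
    · rw [Fam.plus_ne _ c]
      have k : rho s β.degree (co β (lg x)) ∈ (rhoF K lv s).snd.r β.degree := ⟨_, _, m β, rfl⟩
      exact Fam.le_hl _ (AddMonoidHom.id ℕ) (i := β.degree) (d := β.degree)
        (Nat.pos_of_ne_zero (mt (Finsupp.degree_eq_zero_iff β).1 c)) le_rfl k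
  · rw [lg_dg, lg_ex mY, co_dg, hY]
    by_cases c : β = 0
    · rw [c, x0, rho_zero, dg_zero]; exact zero_mem _
    · rw [Fam.plus_ne _ c]
      exact ⟨_, m β, rfl⟩
  · obtain ⟨X', -, e⟩ := Fam.plus_le _ β h
    obtain ⟨rfl, rfl⟩ := dg_inj.1 e
    refine congrArg ξ (Matrix.ext fun a b => ?_)
    exact (if_pos (by simpa using hβ.symm)).symm

end Pool.Agent.P.MP_a14ce1_nt.Nil
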