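import Pool.Agent.P.MP_a14ce1_nt.GI.FamS
import Pool.Agent.P.MP_a14ce1_nt.Nil.Hom
import Pool.Agent.P.MP_a14ce1_nt.Nil.Peel
import Pool.Agent.P.MP_a14ce1_nt.Nil.Prod

/-! The matrix model of the two variable nilcharacter. -/

open Finset MvPolynomial

set_option linter.unusedSectionVars false

noncomputable section

namespace Pool.Agent.P.MP_a14ce1_nt.GI.S4

open Nil

variable {ι J : Type} [Fintype ι] [DecidableEq ι] [Fintype J] [DecidableEq J] {lv : ι → ℕ}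

/-- The three layers. -/
abbrev K3 (J : Type) : Type := Option (Option J)

/-- Levels of the layers. -/
def l3 {J : Type} : K3 J → ℕ
  | none => 0
  | some none => 2
  | some (some _) => 1

/-- Levels of the enlarged index set. -/
def lv3 (J : Type) (lv : ι → ℕ) : K3 J × ι → ℕ := fun p => lv p.2 + l3 p.1

section ring

variable {R R' : Type} [CommRing R] [CommRing R']

/-- The block matrix with rows Y C A, then 0 Y H, then 0 0 Y. -/
def T4 (Y A : Matrix ι ι R) (H C : J → Matrix ι ι R) : Matrix (K3 J × ι) (K3 J × ι) R :=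
  Matrix.of fun p q => match p.1, q.1 with
  | none, none => Y p.2 q.2
  | none, some none => A p.2 q.2
  | none, some (some j) => C j p.2 q.2
  | some (some j), some none => H j p.2 q.2
  | some (some j), some (some l) => if j = l then Y p.2 q.2 else 0
  | some none, some none => Y p.2 q.2
  | some _, none => 0
  | some none, some (some _) => 0

variable {Y A Z B : Matrix ι ι R} {H C G D : J → Matrix ι ι R}

theorem T4_add : T4 Y A H C + T4 Z B G D = T4 (Y + Z) (A + B) (H + G) (C + D) := by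
  ext ⟨_ | _ | j, a⟩ ⟨_ | _ | l, b⟩ <;> simp [T4]
  split_ifs <;> simp

theorem T4_sub : T4 Y A H C - T4 Z B G D = T4 (Y - Z) (A - B) (H - G) (C - D) := by
  ext ⟨_ | _ | j, a⟩ ⟨_ | _ | l, b⟩ <;> simp [T4]
  split_ifs <;> simp

theorem T4_smul {S : Type*} [SMulZeroClass S R] (c : S) :
    c • T4 Y A H C = T4 (c • Y) (c • A) (c • H) (c • C) := by
  ext ⟨_ | _ | j, a⟩ ⟨_ | _ | l, b⟩ <;> simp [T4]

theorem T4_zero : T4 (0 : Matrix ι ι R) 0 (0 : J → Matrix ι ι R) 0 = 0 := by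
  ext ⟨_ | _ | j, a⟩ ⟨_ | _ | l, b⟩ <;> simp [T4]

theorem T4_one : T4 (1 : Matrix ι ι R) 0 (0 : J → Matrix ι ι R) 0 = 1 := by
  ext ⟨_ | _ | j, a⟩ ⟨_ | _ | l, b⟩ <;> simp [T4, Matrix.one_apply]
  by_cases h : j = l <;> simp [h]

theorem T4_mul : T4 Y A H C * T4 Z B G D = T4 (Y * Z) (Y * B + A * Z + ∑ j, C j * G j)
    (fun j => Y * G j + H j * Z) fun j => Y * D j + C j * Z := by
  ext ⟨_ | _ | j, a⟩ ⟨_ | _ | l, b⟩ <;>
    simp [T4, Matrix.mul_apply, Fintype.sum_prod_type, Fintype.sum_option, Matrix.sum_apply,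
      add_assoc, add_comm]

theorem T4_map (f : R → R') (h : f 0 = 0) : (T4 Y A H C).map f =
    T4 (Y.map f) (A.map f) (fun j => (H j).map f) fun j => (C j).map f := by
  ext ⟨_ | _ | j, a⟩ ⟨_ | _ | l, b⟩ <;> simp [T4, h]
  split_ifs <;> simp [h]

theorem ent_T4 {S : Set R} (h0 : 0 ∈ S) (hY : Ent S Y) (hA : Ent S A) (hH : ∀ j, Ent S (H j))
    (hC : ∀ j, Ent S (C j)) : Ent S (T4 Y A H C) := by
  rintro ⟨_ | _ | j, a⟩ ⟨_ | _ | l, b⟩ <;> simp only [T4, Matrix.of_apply]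
  exacts [hY a b, hA a b, hC l a b, h0, hY a b, h0, h0, hH j a b, by
    split_ifs
    exacts [hY a b, h0]]

variable [Algebra ℚ R] [Algebra ℚ R']

theorem T4_up (hY : Y ∈ mF R lv 1) (hA : A ∈ mF R lv 0) (hH : ∀ j, H j ∈ mF R lv 0)
    (hC : ∀ j, C j ∈ mF R lv 0) : T4 Y A H C ∈ mF R (lv3 J lv) 1 := by
  rintro ⟨_ | _ | j, a⟩ ⟨_ | _ | l, b⟩ h <;> simp only [T4, Matrix.of_apply] <;>
    simp only [lv3, l3] at h
  · exact hY a b (by omega)
  · exact hA a b (by omega)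
  · exact hC l a b (by omega)
  · exact hY a b (by omega)
  · exact hH j a b (by omega)
  · split_ifs
    exacts [hY a b (by omega), rfl]

theorem up0 (h : A ∈ mF R lv 1) : A ∈ mF R lv 0 := (filt_mF R lv).anti 0 h

theorem sc_up (c : R) : c • (1 : Matrix ι ι R) ∈ mF R lv 0 := fun a b h => by
  rw [Matrix.smul_apply, Matrix.one_apply_ne, smul_zero]
  rintro rfl
  omega

theorem map_up (φ : R →+* R') {i : ℕ} (h : A ∈ mF R lv i) : A.map φ ∈ mF R' lv i :=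
  fun a b e => by rw [Matrix.map_apply, h a b e, map_zero]

theorem map_ex (φ : R →+* R') (h : A ∈ mF R lv 1) : UT.map φ (ex lv A) = ex lv (A.map φ) :=
  lg_inj (by rw [lg_map, lg_ex h, lg_ex (map_up φ h)])

/-- The scalar blocks. -/
def sc (ι : Type) [DecidableEq ι] (c : J → R) : J → Matrix ι ι R := fun j => c j • 1

theorem sc_zero : sc ι (0 : J → R) = 0 := by
  funext j; simp [sc]

theorem u1 (c : J → R) : T4 (0 : Matrix ι ι R) 0 0 (sc ι c) ∈ mF R (lv3 J lv) 1 :=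
  T4_up (zero_mem _) (zero_mem _) (fun _ => zero_mem _) fun _ => sc_up _

theorem u2 (hY : Y ∈ mF R lv 1) : T4 Y 0 (0 : J → Matrix ι ι R) 0 ∈ mF R (lv3 J lv) 1 :=
  T4_up hY (zero_mem _) (fun _ => zero_mem _) fun _ => zero_mem _

theorem u3 (hA : A ∈ mF R lv 1) (hH : ∀ j, H j ∈ mF R lv 1) :
    T4 0 A H 0 ∈ mF R (lv3 J lv) 1 :=
  T4_up (zero_mem _) (up0 hA) (fun j => up0 (hH j)) fun _ => zero_mem _

/-- The three kinds of group elements. -/
def e1 (lv : ι → ℕ) (c : J → R) : UT (lv3 J lv) R := ex _ (T4 0 0 0 (sc ι c))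
def e2 (J : Type) [Fintype J] [DecidableEq J] (lv : ι → ℕ) (Y : Matrix ι ι R) :
    UT (lv3 J lv) R := ex _ (T4 Y 0 0 0)
def e3 (lv : ι → ℕ) (A : Matrix ι ι R) (H : J → Matrix ι ι R) : UT (lv3 J lv) R :=
  ex _ (T4 0 A H 0)

theorem e1_val (c : J → R) : (e1 lv c).val = T4 1 0 0 (sc ι c) := by
  have h2 : (T4 (0 : Matrix ι ι R) 0 0 (sc ι c)) ^ 2 = 0 := by
    rw [sq, T4_mul, ← T4_zero]
    congr 1 <;> simp [funext_iff]
  rw [e1, ex_val (u1 c), IsNilpotent.exp_eq_sum h2, sum_range_succ, sum_range_one, pow_zero,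
    pow_one, ← T4_one]
  simp [T4_add]

theorem e1_add (c d : J → R) : e1 lv (c + d) = e1 lv c * e1 lv d := by
  refine UT.ext ?_
  rw [UT.mul_val, e1_val, e1_val, e1_val, T4_mul]
  congr 1 <;> simp [funext_iff, sc, add_smul, add_comm]

theorem e1_zero : e1 lv (0 : J → R) = 1 := by rw [e1, sc_zero, T4_zero, ex_zero]

theorem e1_inv (c : J → R) : (e1 lv c)⁻¹ = e1 lv (-c) := by
  rw [inv_eq_iff_mul_eq_one, ← e1_add, add_neg_cancel, e1_zero]

theorem e1_conj (c : J → R) (h : T4 Y A H 0 ∈ mF R (lv3 J lv) 1) :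
    lg (e1 lv c * ex _ (T4 Y A H 0) * (e1 lv c)⁻¹) = T4 Y (A + ∑ j, c j • H j) H 0 := by
  rw [lg_conj, lg_ex h, e1_inv, e1_val, e1_val, T4_mul, T4_mul]
  congr 1 <;> simp [funext_iff, sc]

theorem e_move (c d : J → R) (hY : Y ∈ mF R lv 1) (hA : A ∈ mF R lv 1)
    (hH : ∀ j, H j ∈ mF R lv 1) : e1 lv (c + d) * e2 J lv Y * e3 lv A H =
      e1 lv c * (e2 J lv Y * e3 lv (A + ∑ j, d j • H j) H) * e1 lv d := by
  have a2 : e1 lv d * e2 J lv Y * (e1 lv d)⁻¹ = e2 J lv Y := by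
    rw [← ex_lg (e1 lv d * _ * _), e2, e1_conj d (u2 hY)]
    simp
  have a3 : e1 lv d * e3 lv A H * (e1 lv d)⁻¹ = e3 lv (A + ∑ j, d j • H j) H := by
    rw [← ex_lg (e1 lv d * _ * _), e3, e1_conj d (u3 hA hH), e3]
  rw [e1_add, ← a3]
  nth_rewrite 2 [← a2]
  group

theorem map_e1 (φ : R →+* R') (c : J → R) : UT.map φ (e1 lv c) = e1 lv fun j => φ (c j) := by
  rw [e1, map_ex φ (u1 c), T4_map _ (map_zero φ), e1]
  congr 2
  · simp
  · simp
  · simp [funext_iff]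
  · funext j
    ext a b
    by_cases h : a = b <;> simp [sc, h]

theorem map_e2 (φ : R →+* R') (hY : Y ∈ mF R lv 1) :
    UT.map φ (e2 J lv Y) = e2 J lv (Y.map φ) := by
  rw [e2, map_ex φ (u2 hY), T4_map _ (map_zero φ), e2]
  congr 2 <;> simp [funext_iff]

theorem map_e3 (φ : R →+* R') (hA : A ∈ mF R lv 1) (hH : ∀ j, H j ∈ mF R lv 1) :
    UT.map φ (e3 lv A H) = e3 lv (A.map φ) fun j => (H j).map φ := by
  rw [e3, map_ex φ (u3 hA hH), T4_map _ (map_zero φ), e3]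
  congr 2 <;> simp [funext_iff]

end ring

variable {FF : Type} [Field FF] [CharZero FF] {K : Subfield FF} {σ : Type}

theorem co_T4 (β : σ →₀ ℕ) (Y A : Matrix ι ι (MvPolynomial σ FF))
    (H C : J → Matrix ι ι (MvPolynomial σ FF)) :
    co β (T4 Y A H C) = T4 (co β Y) (co β A) (fun j => co β (H j)) fun j => co β (C j) :=
  T4_map _ (coeff_zero β)

/-- The corner block. -/
def pA (J : Type) : Matrix (K3 J × ι) (K3 J × ι) FF →ₗ[FF] Matrix ι ι FF where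
  toFun M := Matrix.of fun a b => M (none, a) (some none, b)
  map_add' _ _ := rfl
  map_smul' _ _ := rfl

theorem pA_T4 (Y A : Matrix ι ι FF) (H C : J → Matrix ι ι FF) : pA J (T4 Y A H C) = A := rfl

theorem ratM_pA : RatM K (pA (ι := ι) (FF := FF) J) := fun _ _ => rfl

/-- Membership in `V`, and zero unless `p` holds. -/
def On (V : Submodule FF (Matrix ι ι FF)) (p : Prop) (X : Matrix ι ι FF) : Prop :=
  X ∈ V ∧ (¬p → X = 0)

section on

variable {V : Submodule FF (Matrix ι ι FF)} {p : Prop} {X Y : Matrix ι ι FF}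

theorem On.zero : On V p 0 := ⟨zero_mem _, fun _ => rfl⟩
theorem On.add (h : On V p X) (h' : On V p Y) : On V p (X + Y) :=
  ⟨add_mem h.1 h'.1, fun e => by rw [h.2 e, h'.2 e, add_zero]⟩
theorem On.sub (h : On V p X) (h' : On V p Y) : On V p (X - Y) :=
  ⟨sub_mem h.1 h'.1, fun e => by rw [h.2 e, h'.2 e, sub_zero]⟩
theorem On.smul (h : On V p X) (c : FF) : On V p (c • X) :=
  ⟨V.smul_mem c h.1, fun e => by rw [h.2 e, smul_zero]⟩
theorem On.map (h : On V p X) (hV : IsRat K V) (φ : FF →ₗ[K] FF) : On V p (X.map φ) :=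
  ⟨hV φ X h.1, fun e => by rw [h.2 e, mmap_zero]⟩
theorem On.sum {f : J → Matrix ι ι FF} (h : ∀ j, On V p (f j)) : On V p (∑ j, f j) :=
  ⟨sum_mem fun j _ => (h j).1, fun e => sum_eq_zero fun j _ => (h j).2 e⟩
theorem On.br {W U : Submodule FF (Matrix ι ι FF)} {q s : Prop} (h : On V p X) (h' : On W q Y)
    (hb : X * Y - Y * X ∈ U) (e : p → q → s) : On U s (X * Y - Y * X) :=
  ⟨hb, fun hs => by
    by_cases hp : p
    · rw [h'.2 fun hq => hs (e hp hq)]; simp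
    · rw [h.2 hp]; simp⟩

end on

variable {r n : Fam K lv ℕ}

/-- The bigraded family; variable `0` is the shift. -/
def uf (J : Type) [Fintype J] [DecidableEq J] (hI : r.Ide n) :
    Fam K (lv3 J lv) (Fin 2 →₀ ℕ) where
  r β :=
    { carrier := {Z | ∃ Y A H c, Z = T4 Y A H (sc ι c) ∧ On (r.r (β 1)) (β 0 = 0) Y ∧
        On (n.r (β 1)) (β 0 = 1) A ∧ (∀ j, On (n.r (β 1)) (β 0 = 0) (H j)) ∧
        (¬(β 0 = 1 ∧ β 1 = 0) → c = 0)}
      add_mem' := by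
        rintro _ _ ⟨Y, A, H, c, rfl, a1, a2, a3, a4⟩ ⟨Y', A', H', c', rfl, b1, b2, b3, b4⟩
        refine ⟨_, _, H + H', c + c', ?_, a1.add b1, a2.add b2, fun j => (a3 j).add (b3 j),
          fun e => by rw [a4 e, b4 e, add_zero]⟩
        rw [T4_add]; congr 1; funext j; simp [sc, add_smul]
      zero_mem' := ⟨0, 0, 0, 0, by rw [sc_zero, T4_zero], On.zero, On.zero, fun _ => On.zero,
        fun _ => rfl⟩
      smul_mem' := by
        rintro t _ ⟨Y, A, H, c, rfl, a1, a2, a3, a4⟩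
        refine ⟨_, _, t • H, t • c, ?_, a1.smul t, a2.smul t, fun j => (a3 j).smul t,
          fun e => by rw [a4 e, smul_zero]⟩
        rw [T4_smul]; congr 1; funext j; simp [sc, smul_smul] }
  up β := by
    rintro _ ⟨Y, A, H, c, rfl, a1, a2, a3, -⟩
    exact T4_up (r.up _ _ a1.1) (up0 (n.up _ _ a2.1)) (fun j => up0 (n.up _ _ (a3 j).1))
      fun _ => sc_up _
  rat β φ := by
    rintro _ ⟨Y, A, H, c, rfl, a1, a2, a3, a4⟩
    refine ⟨_, _, fun j => (H j).map φ, fun j => φ (c j), ?_, a1.map (r.rat _) φ,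
      a2.map (n.rat _) φ, fun j => (a3 j).map (n.rat _) φ, fun e => by
        rw [a4 e]; funext j; simp⟩
    rw [T4_map _ (map_zero φ)]
    congr 1
    funext j
    exact mmap_smul φ _ (ent_one K.toSubring)
  br β γ := by
    rintro _ ⟨Y, A, H, c, rfl, a1, a2, a3, a4⟩ _ ⟨Z, B, G, d, rfl, b1, b2, b3, b4⟩
    have s1 : (β + γ) 1 = β 1 + γ 1 := rfl
    have s1' : (β + γ) 1 = γ 1 + β 1 := by rw [s1, add_comm]
    have s0 : (β + γ) 0 = β 0 + γ 0 := rfl
    refine ⟨Y * Z - Z * Y, (Y * B - B * Y) - (Z * A - A * Z) + ∑ j, c j • G j - ∑ j, d j • H j,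
      fun j => (Y * G j - G j * Y) - (Z * H j - H j * Z), 0, ?_,
      a1.br b1 (r.br _ _ _ a1.1 _ b1.1) (by omega), On.sub (On.add (On.sub
        (a1.br b2 (hI.br _ _ _ a1.1 _ b2.1) (by omega))
        (b1.br a2 (s1' ▸ hI.br _ _ _ b1.1 _ a2.1) (by omega))) (On.sum fun j => ?_))
        (On.sum fun j => ?_),
      fun j => On.sub (a1.br (b3 j) (hI.br _ _ _ a1.1 _ (b3 j).1) (by omega))
        (b1.br (a3 j) (s1' ▸ hI.br _ _ _ b1.1 _ (a3 j).1) (by omega)), fun _ => rfl⟩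
    · rw [T4_mul, T4_mul, T4_sub]
      congr 1
      · simp only [sc, smul_mul_assoc, one_mul]; abel
      · funext j; simp only [Pi.sub_apply]; abel
      · funext j; simp [sc, add_comm]
    · by_cases e : β 0 = 1 ∧ β 1 = 0
      · refine On.smul ⟨by rw [s1, e.2, zero_add]; exact (b3 j).1, fun h => (b3 j).2 ?_⟩ _
        omega
      · rw [a4 e, Pi.zero_apply, zero_smul]; exact On.zero
    · by_cases e : γ 0 = 1 ∧ γ 1 = 0
      · refine On.smul ⟨by rw [s1, e.2, add_zero]; exact (a3 j).1, fun h => (a3 j).2 ?_⟩ _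
        omega
      · rw [b4 e, Pi.zero_apply, zero_smul]; exact On.zero

theorem mem_uf {hI : r.Ide n} {β : Fin 2 →₀ ℕ} {Z} : Z ∈ (uf J hI).r β ↔
    ∃ Y A H c, Z = T4 Y A H (sc ι c) ∧ On (r.r (β 1)) (β 0 = 0) Y ∧
      On (n.r (β 1)) (β 0 = 1) A ∧ (∀ j, On (n.r (β 1)) (β 0 = 0) (H j)) ∧
      (¬(β 0 = 1 ∧ β 1 = 0) → c = 0) := Iff.rfl

theorem On.eq_zero {V : Submodule FF (Matrix ι ι FF)} {p : Prop} {X : Matrix ι ι FF}
    (h : On V p X) (e : p → V = ⊥) : X = 0 := by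
  by_cases hp : p
  · have := h.1
    rwa [e hp, Submodule.mem_bot] at this
  · exact h.2 hp

theorem uf_bot (hI : r.Ide n) {β : Fin 2 →₀ ℕ} (h : β 0 ≤ 1 → r.r (β 1) = ⊥)
    (h' : ¬(β 0 = 1 ∧ β 1 = 0)) : (uf J hI).r β = ⊥ := by
  rw [eq_bot_iff]
  rintro _ ⟨Y, A, H, c, rfl, a1, a2, a3, a4⟩
  have hn : β 0 ≤ 1 → n.r (β 1) = ⊥ := fun e => eq_bot_iff.2 (h e ▸ hI.le _)
  rw [Submodule.mem_bot, a1.eq_zero fun e => h (by omega), a2.eq_zero fun e => hn (by omega),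
    a4 h', sc_zero, show H = 0 from funext fun j => (a3 j).eq_zero fun e => hn (by omega), T4_zero]

theorem uf_kill (hI : r.Ide n) {ξ : Matrix ι ι FF →ₗ[FF] FF} {β : Fin 2 →₀ ℕ}
    (h : β 0 = 1 → ∀ X ∈ r.r (β 1), ξ X = 0) : ∀ Z ∈ (uf J hI).r β, (ξ ∘ₗ pA J) Z = 0 := by
  rintro _ ⟨Y, A, H, c, rfl, -, a2, -, -⟩
  rw [LinearMap.comp_apply, pA_T4]
  by_cases e : β 0 = 1
  · exact h e _ (hI.le _ a2.1)
  · rw [a2.2 e, map_zero]

/-- The commutator family. -/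
def mm (n : Fam K lv ℕ) (i : ℕ) : Submodule FF (Matrix ι ι FF) :=
  ⨆ p : {p : ℕ × ℕ // p.1 + p.2 = i}, brS (n.r p.1.1) (n.r p.1.2)

theorem br_mem_mm {a b i : ℕ} (h : a + b = i) {X Y} (hX : X ∈ n.r a) (hY : Y ∈ n.r b) :
    X * Y - Y * X ∈ mm n i :=
  Submodule.mem_iSup_of_mem (⟨(a, b), h⟩ : {p : ℕ × ℕ // p.1 + p.2 = i}) (br_mem_brS hX hY)

theorem mm_le {i : ℕ} {V : Submodule FF (Matrix ι ι FF)}
    (h : ∀ a b, a + b = i → ∀ X ∈ n.r a, ∀ Y ∈ n.r b, X * Y - Y * X ∈ V) : mm n i ≤ V :=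
  iSup_le fun p => brS_le.2 (h _ _ p.2)

theorem mm_rat (i : ℕ) : IsRat K (mm n i) := IsRat.iSup fun _ => (n.rat _).brS (n.rat _)

theorem mm_le_n (i : ℕ) : mm n i ≤ n.r i := mm_le fun a b h X hX Y hY => h ▸ n.br a b X hX Y hY

theorem mm_br (hI : r.Ide n) {i j : ℕ} {Y M} (hY : Y ∈ r.r i) (hM : M ∈ mm n j) :
    Y * M - M * Y ∈ mm n (i + j) := by
  refine (mm_le (V := (mm n (i + j)).comap (LinearMap.mulLeft FF Y - LinearMap.mulRight FF Y))
    fun a b h A hA B hB => ?_) hM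
  change Y * (A * B - B * A) - (A * B - B * A) * Y ∈ mm n (i + j)
  have e : Y * (A * B - B * A) - (A * B - B * A) * Y =
      ((Y * A - A * Y) * B - B * (Y * A - A * Y)) + (A * (Y * B - B * Y) - (Y * B - B * Y) * A) := by
    noncomm_ring
  rw [e]
  exact add_mem (br_mem_mm (by omega) (hI.br _ _ _ hY _ hA) hB)
    (br_mem_mm (by omega) hA (hI.br _ _ _ hY _ hB))

/-- The family that relates four symbols. -/
def f4 (J : Type) [Fintype J] [DecidableEq J] (hI : r.Ide n) :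
    Fam K (Sum.elim (Sum.elim (lv3 J lv) (lv3 J lv)) (Sum.elim lv lv)) ℕ where
  r i :=
    { carrier := {Z | ∃ Y ∈ r.r i, ∃ A ∈ n.r i, ∃ H : J → Matrix ι ι FF, (∀ j, H j ∈ n.r i) ∧
        ∃ M ∈ mm n i, Z = dg (dg (T4 Y A H 0) (T4 Y 0 H 0)) (dg (Y + A + M) Y)}
      add_mem' := by
        rintro _ _ ⟨Y, a1, A, a2, H, a3, M, a4, rfl⟩ ⟨Y', b1, A', b2, H', b3, M', b4, rfl⟩
        refine ⟨_, add_mem a1 b1, _, add_mem a2 b2, H + H', fun j => add_mem (a3 j) (b3 j), _,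
          add_mem a4 b4, ?_⟩
        rw [dg_add, dg_add, dg_add, T4_add, T4_add, add_zero, add_zero]
        congr 2
        abel
      zero_mem' := ⟨0, zero_mem _, 0, zero_mem _, 0, fun _ => zero_mem _, 0, zero_mem _, by
        simp [T4_zero]⟩
      smul_mem' := by
        rintro t _ ⟨Y, a1, A, a2, H, a3, M, a4, rfl⟩
        refine ⟨_, Submodule.smul_mem _ t a1, _, Submodule.smul_mem _ t a2, t • H,
          fun j => Submodule.smul_mem _ t (a3 j), _, Submodule.smul_mem _ t a4, ?_⟩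
        rw [dg_smul, dg_smul, dg_smul, T4_smul, T4_smul, smul_zero, smul_zero, smul_add,
          smul_add] }
  up i := by
    rintro _ ⟨Y, a1, A, a2, H, a3, M, a4, rfl⟩
    have hY := r.up _ _ a1
    have hH := fun j => up0 (n.up _ _ (a3 j))
    exact dg_mem_mF.2 ⟨dg_mem_mF.2 ⟨T4_up hY (up0 (n.up _ _ a2)) hH fun _ => zero_mem _,
      T4_up hY (zero_mem _) hH fun _ => zero_mem _⟩,
      dg_mem_mF.2 ⟨add_mem (add_mem hY (n.up _ _ a2)) (n.up _ _ (mm_le_n _ a4)), hY⟩⟩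
  rat i φ := by
    rintro _ ⟨Y, a1, A, a2, H, a3, M, a4, rfl⟩
    refine ⟨_, r.rat _ φ _ a1, _, n.rat _ φ _ a2, fun j => (H j).map φ,
      fun j => n.rat _ φ _ (a3 j), _, mm_rat _ φ _ a4, ?_⟩
    rw [dg_map _ (map_zero φ), dg_map _ (map_zero φ), dg_map _ (map_zero φ),
      T4_map _ (map_zero φ), T4_map _ (map_zero φ), mmap_add, mmap_add, mmap_zero]
    simp only [Pi.zero_apply, mmap_zero]
    rfl
  br i j := by
    rintro _ ⟨Y, a1, A, a2, H, a3, M, a4, rfl⟩ _ ⟨Z, b1, B, b2, G, b3, M', b4, rfl⟩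
    refine ⟨_, r.br _ _ _ a1 _ b1, (Y * B - B * Y) - (Z * A - A * Z),
      sub_mem (hI.br _ _ _ a1 _ b2) (add_comm j i ▸ hI.br _ _ _ b1 _ a2),
      fun l => (Y * G l - G l * Y) - (Z * H l - H l * Z),
      fun l => sub_mem (hI.br _ _ _ a1 _ (b3 l)) (add_comm j i ▸ hI.br _ _ _ b1 _ (a3 l)),
      (A * B - B * A) + ((Y + A + M) * M' - M' * (Y + A + M)) - ((Z + B) * M - M * (Z + B)),
      sub_mem (add_mem (br_mem_mm rfl a2 b2)
        (mm_br hI (add_mem (add_mem a1 (hI.le _ a2)) (hI.le _ (mm_le_n _ a4))) b4))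
        (add_comm j i ▸ mm_br hI (add_mem b1 (hI.le _ b2)) a4), ?_⟩
    rw [dg_br, dg_br, dg_br, T4_mul, T4_mul, T4_mul, T4_mul, T4_sub, T4_sub]
    congr 2
    · congr 1
      · simp only [Pi.zero_apply, zero_mul, sum_const_zero]; abel
      · funext l; simp only [Pi.sub_apply]; abel
      · funext l; simp
    · congr 1
      · simp
      · funext l; simp only [Pi.sub_apply]; abel
      · funext l; simp
    · noncomm_ring

theorem mem_f4 {hI : r.Ide n} {i : ℕ} {Z} : Z ∈ (f4 J hI).r i ↔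
    ∃ Y ∈ r.r i, ∃ A ∈ n.r i, ∃ H : J → Matrix ι ι FF, (∀ j, H j ∈ n.r i) ∧
      ∃ M ∈ mm n i, Z = dg (dg (T4 Y A H 0) (T4 Y 0 H 0)) (dg (Y + A + M) Y) := Iff.rfl

end Pool.Agent.P.MP_a14ce1_nt.GI.S4
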