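import Pool.Agent.P.MP_a14ce1_nt.GI.Unt
import Pool.Agent.P.MP_a14ce1_nt.GI.Low
import Pool.Agent.P.MP_a14ce1_nt.GI.BU

/-! The correlation with one two variable nilcharacter for many shifts. -/

open Filter Finset MvPolynomial
open scoped BigOperators

set_option linter.unusedSectionVars false

noncomputable section

namespace Pool.Agent.P.MP_a14ce1_nt.GI

open Nil

variable {N : HZ} [Fact (Inf N)] {j D : ℕ}

theorem Cor.of_eq {φ ψ : HZ → HC} (h : Cor N j φ) (e : ∀ n, φ n = ψ n) : Cor N j ψ :=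
  (funext e : φ = ψ) ▸ h

theorem star {f₁ f₂ : HZ → HC} (h1 : Bd f₁) (h2 : Bd f₂) {χ : HZ → HZ → HC}
    {A : HZ → Sy N Unit} {Θ : Fin D → (Fin 2 → HZ) → HC} (hΘ : ∀ i, Nl (j + 2) (Θ i)) (hu : Unt Θ)
    {𝒟 : ℕ → Sy N Unit} (h𝒟 : ∀ c, Rep (j + 1) (𝒟 c))
    (hd : Dense 2 (HH N) fun h : HZ => Nsq1 (j + 1) (χ h) (A h) ∧
      (Cr N fun n => f₁ (n + h) * f₂ n * χ h n) ∧
      ∀ i φ, Bd φ → (Cr N fun n => φ n * Θ i ![h, n]) →
        ∃ c Φ, Nsq1 (j + 1) Φ (A h - 𝒟 c) ∧ Cr N fun n => φ n * Φ n) :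
    ∃ i f₃, Bd f₃ ∧ Dense 2 (HH N) fun h : HZ =>
      BU N j fun n => f₁ (n + h) * f₃ n * Θ i ![h, n] := by
  choose E a ha hua using fun c => (h𝒟 c).unit1 (Nat.le_add_left 1 j)
  have hb : ∀ z : Fin D × CI × Σ c, Fin (E c), Bd fun n => f₂ n * a z.2.2.1 z.2.2.2 n *
      cel N z.2.1 n := fun z => (h2.mul (ha _ _).1.bd).mul (cel_bd _)
  obtain ⟨z, hz⟩ := Dense.any (p := fun _ => True)
    (q := fun (z : Fin D × CI × Σ c, Fin (E c)) (h : HZ) => BU N j fun n =>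
      f₁ (n + h) * (f₂ n * a z.2.2.1 z.2.2.2 n * cel N z.2.1 n) * Θ z.1 ![h, n])
    (fun z => bu_sig (((h1.1.comp (by fun_prop)).mul ((hb z).1.comp (by fun_prop))).mul
      (hΘ z.1).intF2)) (hd.mono fun h _ ⟨k1, k2, k3⟩ => ⟨trivial, by
    have b0 := (h1.shift h).mul h2
    have b1 := b0.mul k1.bd
    obtain ⟨i, c1⟩ := k2.unt b1.1 (a := fun l n => Θ l ![h, n]) (fun l => ((hΘ l).row h).1)
      fun n => hu _
    have b2 := b1.mul ((hΘ i).row h)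
    obtain ⟨c, Φ, n1, c2⟩ := k3 i _ b2.cj ((c1.cj (b2.mul ((hΘ i).row h).cj).1).of_eq fun n => by
      simp only [map_mul, cj_cj])
    have b3 := b0.mul ((hΘ i).row h)
    obtain ⟨l, P, c3⟩ := swap (Φ := fun n => χ h n * cj (Φ n))
      (Nsq.congr (k1.mul n1.cj) (Eqd.of_eq (by abel))) (fun l => (ha c l).1) (hua c) b3
      ((c2.cj (b2.cj.mul n1.bd).1).of_eq fun n => by simp only [map_mul, cj_cj]; ring).cor
    exact ⟨(i, P, ⟨c, l⟩), Cor.bu (((h1.shift h).mul (hb (i, P, ⟨c, l⟩))).mul ((hΘ i).row h))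
      (c3.of_eq fun n => by ring)⟩⟩)
  exact ⟨z.1, _, hb z, hz.mono fun _ _ h => h.2⟩

end Pool.Agent.P.MP_a14ce1_nt.GI
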