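import Pool.Agent.P.MP_a14ce1_nt.GI.BU0
import Pool.Agent.P.MP_a14ce1_nt.Nil.Four

/-! The family of nilsequences correlating with the derivatives. -/

open Filter Finset MvPolynomial
open scoped BigOperators

set_option linter.unusedSectionVars false

noncomputable section

namespace Pool.Agent.P.MP_a14ce1_nt.GI

open Nil

variable {N : HZ} [hN : Fact (Inf N)] {k : ℕ}

/-- One type for a dense set of shifts. -/
theorem step0_ty (hG : GIst k) {f : HZ → HC} (hf : Bd f) (hs : Supp N f) (h : BU N (k + 1) f) :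
    ∃ (T : Ty) (y : HZ → PS T.lv Unit HR) (Φ : HZ → UT T.lv HR → HC) (q : HR), IntS y ∧
      (IntF fun z : HZ × UT T.lv HR => Φ z.1 z.2) ∧ (∀ h, y h ∈ ((T.g.star 2).fine Unit).PG ∧
        Nice 2 q (T.g.star 2).GG (Φ h) ∧ Eqv 2 (T.g.star 2).GG ((T.g.star 2).r (k + 1)) 0 (Φ h)) ∧
      Dense 2 (HH N) fun h : HZ =>
        Cr N fun n => f (n + h) * cj (f n) * Φ h (ev (zv fun _ => n) (y h)) := by
  classical
  obtain ⟨p, hp⟩ := hf.1
  have e : ∀ x n : ℕ → ℤ, f (st n + st x) * cj (f (st n)) = st fun i => dl (x i) (p i) (n i) :=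
    fun x n => by
      rw [show (st n + st x : HZ) = st fun i => n i + x i from rfl, hp, hp]
      rfl
  let P : ℝ → ℕ → ℤ → Prop := fun δ i a =>
    δ * ((rep N i : ℤ) : ℝ) ^ (k + 2) ≤ U k (cut (rep N i) (dl a (p i)))
  have hP : ∀ (δ) (x : ℕ → ℤ), (∀ᶠ i in UU, P δ i (rep (st x : HZ) i)) ↔ ∀ᶠ i in UU, P δ i (x i) :=
    fun δ x => eventually_congr ((rep_st (A := HZ) x).mono fun i hi => by rw [hi])
  obtain ⟨j, hj⟩ := Dense.any (p := fun _ => True)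
    (q := fun (j : ℕ) (a : HZ) => ∀ᶠ i in UU, P (1 / ((j : ℝ) + 1)) i (rep a i))
    (fun j => IntP.sig ⟨_, hP _⟩) ((BU.dense hf hs h).mono (st_ind fun x _ hx => by
      obtain ⟨δ, hδ, hx⟩ := (bu_iff (e x)).1 hx
      obtain ⟨j, hj⟩ := exists_nat_one_div_lt hδ
      refine ⟨trivial, j, (hP _ x).2 ((hx.and (rep_pos (N := N))).mono fun i ⟨h1, h2⟩ =>
        le_trans ?_ h1)⟩
      have : (0 : ℝ) < (rep N i : ℤ) := by exact_mod_cast h2
      gcongr))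
  obtain ⟨T, c, N₀, hc, hT⟩ := hG (1 / ((j : ℝ) + 1)) (by positivity)
  have key : ∀ i a, ∃ (F : UT T.lv ℝ → ℂ) (x : PS T.lv Unit ℝ), (NiceR T.q T.L T.g.GG F ∧
      EqvR T.g.GG (T.g.r (k + 1)) 0 F ∧ x ∈ (T.g.fine Unit).PG) ∧
      ((P (1 / ((j : ℝ) + 1)) i a ∧ (∀ n, ‖p i n‖ ≤ 1) ∧ (N₀ : ℤ) ≤ rep N i) →
        c * ((rep N i : ℤ) : ℝ) ≤ ‖∑ n ∈ Ico (0 : ℤ) (rep N i),
          dl a (p i) n * F (ev (fun _ => (n : ℝ)) x)‖) := fun i a => by
    by_cases hg : P (1 / ((j : ℝ) + 1)) i a ∧ (∀ n, ‖p i n‖ ≤ 1) ∧ (N₀ : ℤ) ≤ rep N i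
    · obtain ⟨h1, h2, h3⟩ := hg
      simp only [P] at h1
      generalize rep N i = H at *
      lift H to ℕ using (Nat.cast_nonneg _).trans h3
      obtain ⟨ψ, ⟨F, a1, a2, x, a3, a4⟩, a5⟩ :=
        hT H (by exact_mod_cast h3) _ (cut_bd (norm_dl_le h2 a)) cut_supp h1
      refine ⟨F, x, ⟨a1, a2, a3⟩, fun _ => a5.trans_eq (congrArg _ (sum_congr rfl fun n hn => ?_))⟩
      rw [cut, if_pos (mem_Ico.1 hn), a4]
    · exact ⟨0, 1, ⟨⟨fun _ => by simp, fun _ _ _ _ => by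
        simpa using mul_nonneg T.L0 (sum_nonneg fun _ _ => sum_nonneg fun _ _ => abs_nonneg _),
        fun _ _ _ _ _ => rfl⟩, fun _ _ _ _ => by simp, one_mem _⟩, fun h => (hg h).elim⟩
  choose F x h1 h2 using key
  obtain ⟨y, hy, hy'⟩ := exists_intS (Q := 2) (A := HZ) T.fil x fun i a => (h1 i a).2.2
  have e2 : ∀ a : ℕ → ℤ, (fun z => (app (fun i (s : ℤ × UT T.lv ℝ) => F i s.1 s.2)
      ((st a, z) : HZ × UT T.lv HR) : HC)) = app fun i => F i (a i) := fun a =>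
    funext (st_ind fun z => (app_st (A := HZ × UT T.lv HR) _ fun i => (a i, z i)).trans
      (app_st (fun i => F i (a i)) z).symm)
  refine ⟨T, y, fun a z => app (fun i (s : ℤ × UT T.lv ℝ) => F i s.1 s.2) (a, z),
    st fun _ => (T.q : ℝ), hy, intF_app _, st_ind fun a => ?_, hj.mono (st_ind fun a _ ha => ?_)⟩
  · beta_reduce
    rw [e2]
    refine ⟨(hy' a).1, NiceR.nice (q := fun _ => T.q) (L := fun _ => T.L)
      (Eventually.of_forall fun i => ⟨T.pos, (h1 i _).1⟩) (real_OO _) (real_OO _), ?_⟩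
    have := EqvR.eqv (Q := 2) (Eventually.of_forall fun i => (h1 i (a i)).2.1)
    rwa [starF_zero] at this
  · refine (cr_iff (p := fun i n => dl (a i) (p i) n * F i (a i) (ev (fun _ => (n : ℝ)) (x i (a i))))
      fun n => ?_).2 ⟨c, hc, ((((hP _ a).1 ha.2).and (rep_bd hp hf.2)).and (rep_ge (N := N) N₀)).mono
        fun i hi => h2 i _ ⟨hi.1.1, hi.1.2, hi.2⟩⟩
    beta_reduce
    rw [e, congrFun (e2 a), show (zv fun _ : Unit => (st n : HZ)) = st fun i _ => ((n i : ℤ) : ℝ)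
      from rfl, (hy' a).2.ev, app_st]
    rfl

/-- The family with one frequency and normalised sequences. -/
theorem step0_fam (hG : GIst k) {f : HZ → HC} (hf : Bd f) (hs : Supp N f) (h : BU N (k + 1) f) :
    ∃ (ι : Type) (_ : Fintype ι) (_ : DecidableEq ι) (lv : ι → ℕ) (g : Fam K2 lv ℕ) (D : ℕ)
      (ξ : Matrix ι ι HR →ₗ[HR] HR) (x : HZ → PS lv Unit HR) (Φ : HZ → UT lv HR → HC) (q : HR),
      g.Fil D ∧ RatF K2 ξ ∧ (∀ X ∈ g.r (k + 1), ξ X = 0) ∧ IntS x ∧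
      (IntF fun z : HZ × UT lv HR => Φ z.1 z.2) ∧ Dense 2 (HH N) fun h : HZ =>
        x h ∈ (g.fine Unit).plus.PG ∧ Nice 2 q g.GG (Φ h) ∧ Eqv 2 g.GG (g.r k) ξ (Φ h) ∧
          Cr N fun n => f (n + h) * cj (f n) * Φ h (ev (zv fun _ => n) (x h)) := by
  obtain ⟨T, y, Φ, q, hy, hΦ, h1, h2⟩ := step0_ty hG hf hs h
  have hg : (T.g.star 2).Fil T.D := T.fil.star
  generalize T.g.star 2 = g at *
  have hi := hf.1
  have hev : IntF fun z : HZ × (Unit → HZ) => ev (zv z.2) (y z.1) :=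
    (hy.comp (by fun_prop)).ev (by fun_prop)
  obtain ⟨ξ, Ψ, hΨ, hc, hξ, h3⟩ := fourG (p := fun _ => True) (Fam.Idl.cen ⟨g.rat (k + 1),
    hg.le (Nat.zero_le _), fun X hX Y hY => hg.anti _ (hg.br0 hX hY)⟩) (g.rat k)
    (hg.le (Nat.zero_le _)) (fun X hX W hW => ⟨hg.br0 hX hW, rfl⟩) hΦ
    (w := fun a (b : Unit → HZ) => f (b () + a) * cj (f (b ()))) (by fun_prop) hev
    (h2.mono fun a _ ha => ⟨trivial, (h1 a).2.1, (h1 a).2.2, fun b _ =>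
      ⟨nm_mul_le_one (hf.2 _) (by rw [nm_cj]; exact hf.2 _), ev_mem hg (h1 a).1 _⟩, ha⟩)
  obtain ⟨y0, h0, e0⟩ : ∃ y0 : HZ → UT T.lv HR, IntF y0 ∧ ∀ a, ev 0 (y a) = y0 a :=
    ⟨_, hy.ev (IntF.const _), fun _ => rfl⟩
  have m0 : ∀ a, y0 a ∈ g.GG := fun a => e0 a ▸ ev_mem hg (h1 a).1 0
  obtain ⟨b, hb, h4⟩ := Sig.choice' (p := fun _ : HZ => True) (r := fun a (b : UT T.lv HR) =>
      (b ∈ g.GG ∧ Lev q b) ∧ Ent (OO 2 : Set HR) (y0 a * b⁻¹).val)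
    (((IntP.memGG g (by fun_prop)).and (IntP.lev q (by fun_prop))).sig.and
      (Sig.ent (Sig.memOO IntF.id) (by fun_prop))) (IntP.const _) 1 fun a _ => by
    obtain ⟨u, -, v, hv, e, h5, h6⟩ := normaliseQ g (h1 a).2.1.lvl (m0 a)
    exact ⟨v, ⟨hv, h6⟩, by rwa [e, mul_inv_cancel_right]⟩
  have hm : ∀ a, y0 a * (b a)⁻¹ ∈ g.GG := fun a =>
    mul_mem (m0 a) (inv_mem (h4 a trivial).1.1)
  refine ⟨T.ι, inferInstance, inferInstance, T.lv, g, T.D, ξ,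
    fun a => cst Unit (y0 a * (b a)⁻¹)⁻¹ * y a * cst Unit (b a)⁻¹,
    fun a z => Ψ a (y0 a * (b a)⁻¹ * z), q, hg, hc.rat, hξ,
    ((IntS.cst (by fun_prop)).mul hy).mul (IntS.cst (by fun_prop)),
    hΨ.comp (f := fun z : HZ × UT T.lv HR => (z.1, y0 z.1 * (b z.1)⁻¹ * z.2)) (by fun_prop),
    h3.mono fun a _ ⟨_, a1, a2, a3⟩ => ⟨mem_plus.2 ⟨mul_mem (mul_mem (cst_mem (inv_mem (hm a)))
      (h1 a).1) (cst_mem (inv_mem (h4 a trivial).1.1)), ?_⟩, a1.left (hm a) (h4 a trivial).2,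
      (a2.left hc (hm a)).mono le_rfl le_sup_right fun _ _ => rfl, a3.of_sub ?_⟩⟩
  · simp only [map_mul, ev_cst, e0]
    group
  · have := a1.int
    have h5 : IntF fun t : Unit → HZ => ev (zv t) (y a) := hev.curry a
    simp only [map_mul, ev_cst, mul_assoc, mul_inv_cancel_left]
    refine tinyC_Ex (by fun_prop) (by fun_prop) fun t _ => ?_
    rw [← mul_sub, ← mul_sub]
    refine (TinyC.mul' ?_ (nm_OO (by rw [nm_cj]; exact hf.2 _))).mul' (nm_OO (hf.2 _))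
    have hb' := (h4 a trivial).1
    have := a1.per _ hb'.1 hb'.2 _ (mul_mem (ev_mem hg (h1 a).1 (zv t)) (inv_mem hb'.1))
    rwa [inv_mul_cancel_right] at this

end Pool.Agent.P.MP_a14ce1_nt.GI
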