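import Pool.Agent.P.MP_a14ce1_nt.GI.Def
import Pool.Agent.P.MP_a14ce1_nt.GI.Step0A

/-! The family of nilsequences correlating with the derivatives, with its symbols. -/

open Filter Finset MvPolynomial
open scoped BigOperators

noncomputable section

namespace Pool.Agent.P.MP_a14ce1_nt.GI

open Nil

variable {N : HZ} [Fact (Inf N)] {k : ℕ}

theorem step0 (hG : GIst k) {f : HZ → HC} (hf : Bd f) (hs : Supp N f) (h : BU N (k + 1) f) :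
    ∃ (ι : Type) (_ : Fintype ι) (_ : DecidableEq ι) (lv : ι → ℕ) (g : Fam K2 lv ℕ) (D : ℕ)
      (ξ : Matrix ι ι HR →ₗ[HR] HR) (x : HZ → PS lv Unit HR) (χ : HZ → HZ → HC),
      g.Fil D ∧ RatF K2 ξ ∧ (∀ X ∈ g.r (k + 1), ξ X = 0) ∧ IntS x ∧
      (IntF fun z : HZ × HZ => χ z.1 z.2) ∧ Dense 2 (HH N) fun h : HZ =>
        x h ∈ (g.fine Unit).plus.PG ∧ Nsq1 k (χ h) (sy N (x h) ξ) ∧
          Cr N fun n => f (n + h) * cj (f n) * χ h n := by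
  obtain ⟨ι, _, _, lv, g, D, ξ, x, Φ, q, hg, hξ, ht, hx, hΦ, h⟩ := step0_fam hG hf hs h
  exact ⟨ι, inferInstance, inferInstance, lv, g, D, ξ, x,
    fun a n => Φ a (ev (zv fun _ => n) (x a)), hg, hξ, ht, hx,
    hΦ.comp (f := fun z : HZ × HZ => (z.1, ev (zv fun _ => z.2) (x z.1)))
      (IntF.id.fst.prodMk ((hx.comp IntF.id.fst).ev' fun _ => IntF.id.snd.ci)),
    h.mono fun a _ ⟨h1, h2, h3, h4⟩ => ⟨h1, ⟨⟨ι, lv, g, D, hg, q, Φ a, h2, x a, (mem_plus.1 h1).1⟩,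
      ξ, rfl, ⟨hξ, ht, h3⟩, fun _ _ => rfl⟩, h4⟩⟩

end Pool.Agent.P.MP_a14ce1_nt.GI
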