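import Pool.Agent.P.MP_a14ce1_nt.GI.Def0
import Pool.Agent.P.MP_a14ce1_nt.Nil.NiceL
import Pool.Agent.P.MP_a14ce1_nt.Nil.Gowers3

/-! Types of nilsequences: products, a cofinal sequence, the cases of degree zero and one. -/

open Filter Finset MvPolynomial
open scoped BigOperators

set_option linter.unusedSectionVars false

noncomputable section

namespace Pool.Agent.P.MP_a14ce1_nt.GI

open Nil

variable {k : ℕ}

theorem Ty.At.le {T : Ty} {ψ} (h : T.At k ψ) (n : ℤ) : ‖ψ n‖ ≤ 1 := by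
  obtain ⟨F, h1, -, x, -, h2⟩ := h
  rw [h2]; exact h1.bd _
theorem Ty.At.succ {T : Ty} {ψ} (h : T.At k ψ) : T.At (k + 1) ψ :=
  let ⟨F, h1, h2, h3⟩ := h
  ⟨F, h1, fun z hz => h2 z (T.fil.anti _ hz), h3⟩
theorem Ty.At.mono {T : Ty} {ψ} (h : T.At k ψ) {k' : ℕ} (hk : k ≤ k') : T.At k' ψ :=
  Nat.le_induction h (fun _ _ => At.succ) k' hk
theorem Ty.at_one (T : Ty) (k : ℕ) : T.At k fun _ => 1 :=
  ⟨fun _ => 1, ⟨fun _ => by simp, fun e _ _ _ => by
    rw [sub_self, norm_zero]; exact mul_nonneg T.L0 (by positivity), fun _ _ _ _ _ => rfl⟩,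
    fun _ _ _ _ => by simp, 1, one_mem _, fun _ => rfl⟩

section unb

variable {ι ι' : Type} [Fintype ι] [DecidableEq ι] [Fintype ι'] [DecidableEq ι'] {lv : ι → ℕ}
  {lv' : ι' → ℕ}

/-- The unbundled form of `Ty.At`. -/
def AtU (g : Fam (⊥ : Subfield ℝ) lv ℕ) (q : ℕ) (L : ℝ) (k : ℕ) (ψ : ℤ → ℂ) : Prop :=
  ∃ F : UT lv ℝ → ℂ, NiceR q L g.GG F ∧ EqvR g.GG (g.r (k + 1)) 0 F ∧
    ∃ x ∈ (g.fine Unit).PG, ∀ n : ℤ, ψ n = F (ev (fun _ => (n : ℝ)) x)

theorem AtU.mul {g : Fam (⊥ : Subfield ℝ) lv ℕ} {g' : Fam (⊥ : Subfield ℝ) lv' ℕ} {q q' : ℕ}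
    {L L' : ℝ} (hL : 0 ≤ L) (hL' : 0 ≤ L') {ψ ψ' : ℤ → ℂ} (h : AtU g q L k ψ)
    (h' : AtU g' q' L' k ψ') : AtU (g.prod g') (q * q') (L + L') k fun n => ψ n * ψ' n := by
  obtain ⟨F, a1, a2, x, a3, a4⟩ := h
  obtain ⟨F', b1, b2, x', b3, b4⟩ := h'
  refine ⟨fun z => F z.p1 * F' z.p2, ⟨fun z => ?_, fun e he z hz => ?_, fun e he ht z hz => ?_⟩,
    fun e he z hz => ?_, UT.dg (x, x'),
    by rw [Fam.prod_fine]; exact Fam.dg_mem_prod_PG.2 ⟨a3, b3⟩, fun n => ?_⟩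
  · rw [norm_mul]; exact mul_le_one₀ (a1.bd _) (norm_nonneg _) (b1.bd _)
  · obtain ⟨e1, c1, e2, c2, rfl⟩ := Fam.mem_prod_GG.1 he
    obtain ⟨x1, d1, x2, d2, rfl⟩ := Fam.mem_prod_GG.1 hz
    rw [UT.dg_val, ← dg_one, dg_sub]
    simp only [UT.dg_mul, UT.p1_dg, UT.p2_dg, Fintype.sum_sum_type,
      dg_ll, dg_lr, dg_rl, dg_rr, abs_zero, sum_const_zero, add_zero, zero_add]
    have h1 := a1.lip e1 c1 x1 d1
    have h2 := b1.lip e2 c2 x2 d2
    have h3 : 0 ≤ L * ∑ a, ∑ b, |(e2.val - 1) a b| := mul_nonneg hL (by positivity)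
    have h4 : 0 ≤ L' * ∑ a, ∑ b, |(e1.val - 1) a b| := mul_nonneg hL' (by positivity)
    have h5 := norm_add_le ((F (e1 * x1) - F x1) * F' (e2 * x2)) (F x1 * (F' (e2 * x2) - F' x2))
    rw [norm_mul, norm_mul, show (F (e1 * x1) - F x1) * F' (e2 * x2) + F x1 * (F' (e2 * x2) - F' x2)
      = F (e1 * x1) * F' (e2 * x2) - F x1 * F' x2 by ring] at h5
    have h6 := mul_le_of_le_one_right (norm_nonneg (F (e1 * x1) - F x1)) (b1.bd (e2 * x2))
    have h7 := mul_le_of_le_one_left (norm_nonneg (F' (e2 * x2) - F' x2)) (a1.bd x1)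
    linarith
  · obtain ⟨e1, c1, e2, c2, rfl⟩ := Fam.mem_prod_GG.1 he
    obtain ⟨x1, d1, x2, d2, rfl⟩ := Fam.mem_prod_GG.1 hz
    have := (ent_dg_val (by exact ⟨0, by simp⟩)).1 ht
    simp only [UT.dg_mul, UT.p1_dg, UT.p2_dg]
    rw [a1.per e1 c1 (fun a b => let ⟨z, hz⟩ := this.1 a b
        ⟨q' * z, by rw [hz]; push_cast; ring⟩) x1 d1,
      b1.per e2 c2 (fun a b => let ⟨z, hz⟩ := this.2 a b
        ⟨q * z, by rw [hz]; push_cast; ring⟩) x2 d2]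
  · obtain ⟨X, c1, Y, c2, e⟩ := he
    obtain ⟨e1, e2, rfl, rfl, rfl⟩ := exists_dg e
    obtain ⟨x1, d1, x2, d2, rfl⟩ := Fam.mem_prod_GG.1 hz
    simp only [UT.dg_mul, UT.p1_dg, UT.p2_dg]
    rw [a2 e1 c1 x1 d1, b2 e2 c2 x2 d2]
    simp
  · simp only [ev_dg, UT.p1_dg, UT.p2_dg, a4, b4]

end unb

theorem Ty.exists_mul (T T' : Ty) : ∃ T'' : Ty, ∀ k ψ ψ', T.At k ψ → T'.At k ψ' →
    T''.At k fun n => ψ n * ψ' n :=
  ⟨⟨T.ι ⊕ T'.ι, Sum.elim T.lv T'.lv, T.g.prod T'.g, max T.D T'.D,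
    (T.fil.mono (le_max_left _ _)).prod (T'.fil.mono (le_max_right _ _)), T.q * T'.q,
    mul_pos T.pos T'.pos, T.L + T'.L, add_nonneg T.L0 T'.L0⟩,
    fun _ _ _ h h' => AtU.mul T.L0 T'.L0 h h'⟩

/-! ### Renaming the indices -/

section re

variable {ι κ : Type} [Fintype ι] [DecidableEq ι] [Fintype κ] [DecidableEq κ] {lv : ι → ℕ}
  {lv' : κ → ℕ} {R : Type} [CommRing R] [Algebra ℚ R]

def reM (e : κ ≃ ι) (R : Type) [CommRing R] : Matrix ι ι R →+* Matrix κ κ R where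
  toFun X := X.submatrix e e
  map_one' := Matrix.submatrix_one_equiv e
  map_mul' X Y := (Matrix.submatrix_mul_equiv X Y e e e).symm
  map_zero' := rfl
  map_add' _ _ := rfl

omit [Algebra ℚ R] in
@[simp] theorem reM_apply (e : κ ≃ ι) (X : Matrix ι ι R) (a b : κ) : reM e R X a b = X (e a) (e b) :=
  rfl

def reU (e : κ ≃ ι) (h : ∀ a, lv' a = lv (e a)) : UT lv R →* UT lv' R where
  toFun x := ⟨reM e R x.val, fun a b hab => by
    rw [← map_one (reM e R), ← map_sub]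
    exact x.up (e a) (e b) (by rwa [← h, ← h])⟩
  map_one' := UT.ext (map_one (reM e R))
  map_mul' _ _ := UT.ext (map_mul (reM e R) _ _)

theorem lg_reU (e : κ ≃ ι) (h : ∀ a, lv' a = lv (e a)) (x : UT lv R) :
    lg (reU e h x) = reM e R (lg x) := (map_log x.nil (reM e R)).symm

theorem reU_sub (e : κ ≃ ι) (h : ∀ a, lv' a = lv (e a)) (x : UT lv R) (a b : κ) :
    ((reU e h x).val - 1) a b = (x.val - 1) (e a) (e b) := by
  rw [show (reU e h x).val = reM e R x.val from rfl, ← map_one (reM e R), ← map_sub]; rfl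

@[simp] theorem reU_apply (e : κ ≃ ι) (h : ∀ a, lv' a = lv (e a)) (x : UT lv R) (a b : κ) :
    (reU e h x).val a b = x.val (e a) (e b) := rfl

def reF (e : κ ≃ ι) (g : Fam (⊥ : Subfield ℝ) lv ℕ) : Fam (⊥ : Subfield ℝ) (fun a => lv (e a)) ℕ where
  r i :=
    { carrier := {X | reM e.symm ℝ X ∈ g.r i}
      add_mem' := fun hX hY => (g.r i).add_mem hX hY
      zero_mem' := (g.r i).zero_mem
      smul_mem' := fun c _ hX => (g.r i).smul_mem c hX }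
  up i X hX a b hab := by simpa using g.up i _ hX (e a) (e b) hab
  rat i φ X hX := g.rat i φ _ hX
  br i j X hX Y hY := by
    have := g.br i j _ hX _ hY
    rwa [← map_mul, ← map_mul, ← map_sub] at this

theorem mem_reF {e : κ ≃ ι} {g : Fam (⊥ : Subfield ℝ) lv ℕ} {i X} :
    X ∈ (reF e g).r i ↔ reM e.symm ℝ X ∈ g.r i := Iff.rfl

theorem reF_fil (e : κ ≃ ι) {g : Fam (⊥ : Subfield ℝ) lv ℕ} {D : ℕ} (h : g.Fil D) :
    (reF e g).Fil D where
  zero := Submodule.ext fun X => by rw [mem_reF, mem_reF, h.zero]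
  anti i _ hX := mem_reF.2 (h.anti i hX)
  bd := eq_bot_iff.2 fun X hX => by
    rw [mem_reF, h.bd, Submodule.mem_bot] at hX
    exact Matrix.ext fun a b => by simpa using congrFun (congrFun hX (e a)) (e b)

theorem AtU.re (e : κ ≃ ι) {g : Fam (⊥ : Subfield ℝ) lv ℕ} {q : ℕ} {L L' : ℝ} (h0 : 0 ≤ L')
    (hL : L ≤ L') {ψ : ℤ → ℂ} (hψ : AtU g q L k ψ) : AtU (reF e g) q L' k ψ := by
  have h : ∀ a, lv a = lv (e (e.symm a)) := fun a => by rw [e.apply_symm_apply]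
  obtain ⟨F, a1, a2, x, a3, a4⟩ := hψ
  have hG : ∀ y ∈ (reF e g).GG, reU e.symm h y ∈ g.GG := fun y hy => by
    rw [Fam.mem_GG, lg_reU]; exact hy
  refine ⟨fun y => F (reU e.symm h y), ⟨fun _ => a1.bd _, fun y hy z hz => ?_,
    fun y hy ht z hz => ?_⟩, fun y hy z hz => ?_, reU e (fun _ => rfl) x, fun β => ?_, fun n => ?_⟩
  · rw [map_mul]
    refine (a1.lip _ (hG y hy) _ (hG z hz)).trans (mul_le_mul hL (le_of_eq ?_) (by positivity) h0)
    simp only [reU_sub]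
    exact (sum_congr rfl fun a _ => e.symm.sum_comp fun b => |(y.val - 1) (e.symm a) b|).trans
      (e.symm.sum_comp fun a => ∑ b, |(y.val - 1) a b|)
  · rw [map_mul]
    refine a1.per _ (hG y hy) (fun a b => ?_) _ (hG z hz)
    rw [reU_sub]
    exact ht _ _
  · beta_reduce
    rw [map_mul, a2 _ (by rw [lg_reU]; exact hy) _ (hG z hz)]
    rfl
  · rw [lg_reU]
    refine mem_reF.2 ?_
    rw [show reM e.symm ℝ (co β (reM e _ (lg x))) = co β (lg x) from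
      Matrix.ext fun a b => by simp [co]]
    exact a3 β
  · rw [a4]
    exact congrArg F (UT.ext (Matrix.ext fun a b => by simp [ev]))

end re

/-- Codes of types. -/
def Code : Type := Σ m : ℕ, Σ lv : Fin m → ℕ, Σ D : ℕ,
  {g : Fam (⊥ : Subfield ℝ) lv ℕ // g.Fil D} × ℕ × ℕ

def Code.ty (c : Code) : Ty :=
  ⟨Fin c.1, c.2.1, c.2.2.2.1.1, c.2.2.1, c.2.2.2.1.2, c.2.2.2.2.1 + 1, Nat.succ_pos _,
    c.2.2.2.2.2, Nat.cast_nonneg _⟩

instance : Countable (⊥ : Subfield ℝ) := by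
  rw [Subfield.bot_eq_of_charZero]
  exact (Set.countable_range (algebraMap ℚ ℝ)).to_subtype

instance {ι : Type} [Fintype ι] [DecidableEq ι] :
    Countable {V : Submodule ℝ (Matrix ι ι ℝ) // IsRat (⊥ : Subfield ℝ) V} :=
  Function.Surjective.countable (f := fun c : ι × ι → ι → ι → (⊥ : Subfield ℝ) =>
    ⟨Submodule.span ℝ (Set.range fun j => Matrix.of fun a b => (c j a b).1),
      isRat_span (by rintro _ ⟨j, rfl⟩ a b; exact (c j a b).2)⟩) fun V =>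
    let ⟨e, h1, h2⟩ := V.2.code
    ⟨fun j a b => ⟨e j a b, h1 j a b⟩, Subtype.ext h2⟩

instance {ι : Type} [Fintype ι] [DecidableEq ι] (lv : ι → ℕ) (D : ℕ) :
    Countable {g : Fam (⊥ : Subfield ℝ) lv ℕ // g.Fil D} :=
  Function.Injective.countable (f := fun g (i : Fin (D + 1)) =>
    (⟨g.1.r i, g.1.rat i⟩ : {V : Submodule ℝ (Matrix ι ι ℝ) // IsRat (⊥ : Subfield ℝ) V}))
    fun g h e => Subtype.ext (Fam.ext (funext fun i => by
      rcases lt_or_ge D i with c | c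
      · rw [g.2.eq_bot c, h.2.eq_bot c]
      · exact congrArg Subtype.val (congrFun e ⟨i, by omega⟩)))

instance : Countable Code := by unfold Code; infer_instance

theorem Ty.exists_code (T : Ty) : ∃ c : Code, ∀ k ψ, T.At k ψ → c.ty.At k ψ :=
  ⟨⟨_, _, T.D, ⟨reF (Fintype.equivFin T.ι).symm T.g, reF_fil _ T.fil⟩, T.q - 1, ⌈T.L⌉₊⟩,
    fun k ψ h => by
      have := AtU.re (Fintype.equivFin T.ι).symm (Nat.cast_nonneg _) (Nat.le_ceil _) h
      rw [← Nat.sub_add_cancel T.pos] at this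
      exact this⟩

theorem Ty.cofinal : ∃ 𝒯 : ℕ → Ty, ∀ T : Ty, ∃ i, ∀ i', i ≤ i' → ∀ k ψ, T.At k ψ →
    (𝒯 i').At k ψ := by
  choose mul hmul using Ty.exists_mul
  have : Nonempty Code := ⟨⟨0, Fin.elim0, 0, ⟨Fam.bot _ _ _, rfl, fun _ => le_rfl, rfl⟩, 0, 0⟩⟩
  obtain ⟨e, he⟩ := exists_surjective_nat Code
  let 𝒯 : ℕ → Ty := fun i => Nat.rec (e 0).ty (fun i T => mul T (e i).ty) i
  refine ⟨𝒯, fun T => ?_⟩
  obtain ⟨c, hc⟩ := T.exists_code
  obtain ⟨i, rfl⟩ := he c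
  refine ⟨i + 1, fun i' hi k ψ h => Nat.le_induction ?_ (fun j _ ih => ?_) i' hi⟩
  · simpa using hmul (𝒯 i) _ k _ _ (Ty.at_one _ k) (hc k ψ h)
  · simpa using hmul (𝒯 j) (e j).ty k _ _ ih (Ty.at_one _ k)

/-! ### Degree zero and one -/

section one

variable {R : Type} [CommRing R] [Algebra ℚ R]

theorem sq_zero2 {X Y : Matrix (Fin 2) (Fin 2) R} (hX : X ∈ mF R Fin.val 1)
    (hY : Y ∈ mF R Fin.val 1) : X * Y = 0 :=
  Matrix.ext fun a b => (filt_mF R Fin.val).mul 1 1 X hX Y hY a b (by omega)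

theorem lg2 (x : UT (Fin.val : Fin 2 → ℕ) R) : lg x = x.val - 1 := by
  rw [lg, log_eq_sum (m := 1) (by rw [pow_two]; exact sq_zero2 x.up x.up)]
  simp

theorem mul01 (x y : UT (Fin.val : Fin 2 → ℕ) R) : (x * y).val 0 1 = x.val 0 1 + y.val 0 1 := by
  rw [UT.mul_val, Matrix.mul_apply, Fin.sum_univ_two, x.val_eq (a := 0) (b := 0) (by simp),
    y.val_eq (a := 1) (b := 1) (by simp), Matrix.one_apply_eq, Matrix.one_apply_eq]
  ring

/-- The group of translations. -/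
def g1 : Fam (⊥ : Subfield ℝ) (Fin.val : Fin 2 → ℕ) ℕ where
  r i :=
    { carrier := {X | X ∈ mF ℝ Fin.val 1 ∧ (1 < i → X = 0)}
      add_mem' := fun hX hY => ⟨add_mem hX.1 hY.1, fun h => by rw [hX.2 h, hY.2 h, add_zero]⟩
      zero_mem' := ⟨zero_mem _, fun _ => rfl⟩
      smul_mem' := fun c X hX => ⟨fun a b h => by rw [Matrix.smul_apply, hX.1 a b h, smul_zero],
        fun h => by rw [hX.2 h, smul_zero]⟩ }
  up _ _ h := h.1
  rat _ φ X hX := ⟨fun a b h => by rw [Matrix.map_apply, hX.1 a b h, map_zero],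
    fun h => by rw [hX.2 h, mmap_zero]⟩
  br _ _ X hX Y hY := by
    rw [sq_zero2 hX.1 hY.1, sq_zero2 hY.1 hX.1, sub_zero]; exact zero_mem _

def T1 : Ty :=
  ⟨Fin 2, Fin.val, g1, 1, ⟨Submodule.ext fun _ => and_congr_right fun _ => by simp,
    fun _ _ h => ⟨h.1, fun c => h.2 (by omega)⟩, eq_bot_iff.2 fun _ h => h.2 (by omega)⟩,
    1, one_pos, 7, by norm_num⟩

theorem T1_at (α : ℝ) : AtU g1 1 7 1 fun n => eR (α * n) := by
  have h01 : ∀ x : UT (Fin.val : Fin 2 → ℕ) ℝ, (x.val - 1) 0 1 = x.val 0 1 := fun x => by simp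
  refine ⟨fun x => eR (x.val 0 1), ⟨fun _ => (norm_eR _).le, fun e _ x _ => ?_,
    fun e _ ht x _ => ?_⟩, fun e he x _ => ?_,
    ⟨!![1, C α * X (); 0, 1], fun a b h => ?_⟩, fun β => ?_, fun n => ?_⟩
  · rw [mul01]
    refine (norm_eR_sub_le _ _).trans (mul_le_mul_of_nonneg_left ?_ (by norm_num))
    rw [add_sub_cancel_right, ← h01]
    exact (single_le_sum (f := fun b => |(e.val - 1) 0 b|) (fun _ _ => abs_nonneg _)
      (mem_univ 1)).trans (single_le_sum (f := fun a => ∑ b, |(e.val - 1) a b|)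
      (fun _ _ => by positivity) (mem_univ 0))
  · obtain ⟨z, hz⟩ := ht 0 1
    rw [mul01, ← h01 e, hz, Nat.cast_one, one_mul, eR_add_int]
  · obtain rfl : e = 1 := lg_inj ((he.2 (by norm_num)).trans lg_one.symm)
    simp
  · fin_cases a <;> fin_cases b <;> simp at h ⊢
  · refine ⟨up_iff_co.1 (lg_mem _) β, fun h => ?_⟩
    have : β ≠ Finsupp.single () 1 := by rintro rfl; simp at h
    rw [lg2]
    ext a b
    fin_cases a <;> fin_cases b <;> simp [co, coeff_X, this.symm]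
  · simp [ev]

end one

theorem gi0 : GIst 0 := fun δ hδ => ⟨T1, √δ, 0, Real.sqrt_pos.2 hδ, fun N _ φ _ hs h =>
  ⟨_, T1.at_one 0, by
    rw [U_zero_eq (S := Ico (0 : ℤ) N) fun x hx => mem_Ico.2 (hs x hx)] at h
    simp only [mul_one]
    refine (pow_le_pow_iff_left₀ (by positivity) (norm_nonneg _) two_ne_zero).1 ?_
    rwa [mul_pow, Real.sq_sqrt hδ.le]⟩⟩

theorem gi1 : GIst 1 := fun δ hδ => ⟨T1, √(δ / 2), 1, Real.sqrt_pos.2 (half_pos hδ),
  fun N hN φ h1 hs h => by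
    obtain ⟨α, hα⟩ := gi_one (S := Ico (0 : ℤ) N) (c := √(δ / 2) * N)
      (fun x hx => mem_Ico.2 (hs x hx)) h1 (lt_of_lt_of_le (by
        have : (0 : ℝ) < N := Nat.cast_pos.2 hN
        rw [mul_pow, Real.sq_sqrt (half_pos hδ).le, Int.card_Ico, sub_zero, Int.toNat_natCast]
        nlinarith [mul_pos hδ (pow_pos this 3)]) h)
    exact ⟨_, T1_at α, hα.le⟩⟩

end Pool.Agent.P.MP_a14ce1_nt.GI
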