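import Pool.Agent.P.MP_a14ce1_nt.GI.Def
import Pool.Agent.P.MP_a14ce1_nt.GI.Rees
import Pool.Agent.P.MP_a14ce1_nt.Nil.NilCharR

/-! Unit vectors of nilsequences with a given symbol. -/

open Filter Finset MvPolynomial
open scoped BigOperators

set_option linter.unusedSectionVars false

noncomputable section

namespace Pool.Agent.P.MP_a14ce1_nt.GI

open Nil

variable {σ : Type} [Fintype σ] [DecidableEq σ] {N : HZ} [Fact (Inf N)] {s : ℕ}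

theorem rees0 {ι : Type} [Fintype ι] [DecidableEq ι] {lv : ι → ℕ} (x : PS lv σ HR)
    {ξ : Matrix ι ι HR →ₗ[HR] HR} (hξ : RatF K2 ξ) :
    ∃ (ι' : Type) (_ : Fintype ι') (_ : DecidableEq ι') (lv' : ι' → ℕ) (g : Fam K2 lv' ℕ) (D : ℕ)
      (y : PS lv' σ HR) (η : Matrix ι' ι' HR →ₗ[HR] HR), g.Fil D ∧ y ∈ (g.fine σ).PG ∧ RatF K2 η ∧
      (∀ X ∈ g.r (s + 1), η X = 0) ∧ Eqd s (sy N x ξ) (sy N y η) := by
  obtain ⟨g, y, η, h, h1, h2, h3, h4, h5, h6⟩ := rees_alg s (ev_nrm x) hξ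
  refine ⟨_, _, _, _, g, s, y, η, h1, Fam.PG_mono (Fam.plus_le _) h2, h3, fun X hX => ?_,
    fun β hβ => ?_⟩
  · rw [h1.bd, Submodule.mem_bot] at hX
    rw [hX, map_zero]
  · exact (LinearMap.congr_fun (cl_nrm (sepN N σ) x) ξ).symm.trans (cl_rel _ h4 h5 (h6 β hβ))

theorem Rep.unit0 {A : Sy N σ} (h : Rep s A) :
    ∃ (T : Ty) (D : ℕ) (χ : Fin D → UT T.lv ℝ → ℂ) (x : ℕ → PS T.lv σ ℝ)
      (a : Fin D → (σ → HZ) → HC), (∀ l, Nsq s (a l) A) ∧ Unt a ∧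
      (∀ l, NiceR T.q T.L T.g.GG (χ l) ∧ EqvR T.g.GG (T.g.r (s + 1)) 0 (χ l)) ∧
      (∀ i, x i ∈ (T.g.fine σ).PG) ∧ ∀ l (n : ℕ → σ → ℤ),
        a l (st n) = st fun i => χ l (ev (fun m => (n i m : ℝ)) (x i)) := by
  obtain ⟨ι₀, _, _, lv₀, x₀, ξ₀, r₀, e₀⟩ := h
  obtain ⟨ι, _, _, lv, g, D, y, η, hg, hy, hη, ht, e⟩ := rees0 (N := N) (s := s) x₀ r₀
  obtain ⟨g, rfl⟩ := exists_star g
  obtain ⟨η, hη', rfl⟩ := exists_starF hη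
  have ht' : ∀ X ∈ g.r (s + 1), η X = 0 := fun X hX => by
    have := ht _ (const_mem_starS.2 hX)
    rw [starF_st] at this
    exact eventually_const.1 ((NS.eq_iff (A := HR) _ fun _ => 0).1 this)
  obtain ⟨q, D', L, χ, q0, L0, c1, c2, c3⟩ := nilcharR g (hg.of_star.cen hη' ht')
  obtain ⟨x, hx, hxy⟩ := exists_seq hy
  refine ⟨⟨ι, lv, g, D, hg.of_star, q, q0, L, L0⟩, D', χ, x,
    fun l t => app (fun _ => χ l) (ev (zv t) y), fun l => ⟨⟨ι, lv, g.star 2, D, hg, q,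
      app fun _ => χ l, (c1 l).nice_cst q0 2, y, hy⟩, starF η, rfl,
      ⟨hη, ht, EqvR.eqv (Eventually.of_forall fun _ => c2 l)⟩,
      fun β hβ => (e₀ β hβ).trans (e β hβ)⟩, fun t => sum_app_cj c3 _ (ev_mem hg hy _),
    fun l => ⟨c1 l, (c2 l).mono (hg.of_star.anti s) fun X hX => (ht' X hX).symm⟩, hx,
    fun l n => ?_⟩
  exact (congrArg _ (hxy.ev fun i m => (n i m : ℝ))).trans (app_st _ _)

theorem Rep.unit {A : Sy N σ} (_hs : 1 ≤ s) (h : Rep s A) :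
    ∃ (D : ℕ) (a : Fin D → (σ → HZ) → HC), (∀ l, Nsq s (a l) A) ∧ Unt a :=
  let ⟨_, D, _, _, a, h1, h2, _⟩ := h.unit0
  ⟨D, a, h1, h2⟩

theorem Rep.unit1 {A : Sy N Unit} (_hs : 1 ≤ s) (h : Rep s A) :
    ∃ (D : ℕ) (a : Fin D → HZ → HC), (∀ l, Nsq1 s (a l) A ∧ SNil s (a l)) ∧ Unt a := by
  obtain ⟨T, D, χ, x, a, h1, h2, h3, h4, h5⟩ := h.unit0
  exact ⟨D, fun l n => a l fun _ => n, fun l => ⟨h1 l, T,
    fun i n => χ l (ev (fun _ => (n : ℝ)) (x i)),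
    fun i => ⟨χ l, (h3 l).1, (h3 l).2, x i, h4 i, fun _ => rfl⟩,
    fun n => h5 l fun i _ => n i⟩, fun n => h2 _⟩

end Pool.Agent.P.MP_a14ce1_nt.GI
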